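import Pool.Agent.H59.Cup.Defs

/-!
# Module Basic: elementary lemmas on strings and conditions

All by induction on strings (`List.reverseRecOn` / `List.prefix_append`), from the definitions.

* `T_mono`: from `step`, `p.T y <+: p.T (y ++ [b])`.
* `legit_T`: induction from the stem: `hTs` for `y = s`; for `y ++ [b]` alive, `y` is alive (prefixes
  of alive strings extending the stem are alive: `up`), the insertion has its ones at safe positions
  (third part of `step`), safe colours are not ill (`disj`), and the last bit `b` stands at a position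
  of the same colour as in `y ++ [b]` (second part of `step`), which is legit.
* `alive_of_sext`: `hg`.
* `restem`: same tree map `T`, new stem `s'`, larger `Bad'`; `Ext` with `θ = id`.
* `T_eq_of_pre`: two strings of the same length whose images are initial segments of the same `A`
  are equal: induction; `T (y ++ [b]) = T y ++ (ρ ++ [b])` with `ρ` not depending on `b`.
-/

namespace Cup

open Encodable OWR

variable {P : Par}

theorem sext_refl (s : Str) : sext P s s := by
  refine ⟨List.prefix_refl _, fun i hi h => ?_⟩
  rw [List.getElem?_eq_none hi] at h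
  simp at h

private theorem getElem?_prefix {a b : Str} (h : a <+: b) {i : ℕ} (hi : i < a.length) :
    b[i]? = a[i]? := by
  obtain ⟨u, rfl⟩ := h
  rw [List.getElem?_append_left hi]

theorem sext_trans {a b c : Str} (h : sext P a b) (h' : sext P b c) : sext P a c := by
  refine ⟨h.1.trans h'.1, fun i hi hc => ?_⟩
  rcases lt_or_ge i b.length with hlt | hge
  · exact h.2 i hi (by rwa [getElem?_prefix h'.1 hlt] at hc)
  · exact h'.2 i hge hc

theorem sext_false (s : Str) (k : ℕ) : sext P s (s ++ List.replicate k false) := by
  refine ⟨List.prefix_append _ _, fun i hi h => ?_⟩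
  rw [List.getElem?_append_right hi, List.getElem?_replicate] at h
  split_ifs at h
  simp at h

theorem sext_append_false {s y : Str} (h : sext P s y) (k : ℕ) :
    sext P s (y ++ List.replicate k false) :=
  sext_trans h (sext_false y k)

theorem legit_of_sext {s y : Str} (hs : legit P s) (h : sext P s y) : legit P y := by
  intro i hi
  rcases lt_or_ge i s.length with hlt | hge
  · exact hs i (by rwa [getElem?_prefix h.1 hlt] at hi)
  · exact fun hE => P.disj _ ⟨h.2 i hge hi, hE⟩

theorem legit_prefix {y y' : Str} (h : y <+: y') (hy : legit P y') : legit P y := by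
  intro i hi
  refine hy i ?_
  obtain ⟨hlt, -⟩ := List.getElem?_eq_some_iff.1 hi
  rwa [getElem?_prefix h hlt]

theorem good_of_sext {Bad : Str → Prop} {s y : Str} (hg : good P Bad s) (h : sext P s y) :
    good P Bad y := fun z hz => hg z (sext_trans h hz)

theorem T_mono (p : Cond P) {y y' : Str} (h : y <+: y') : p.T y <+: p.T y' := by
  obtain ⟨u, rfl⟩ := h
  induction u using List.reverseRecOn with
  | nil => rw [List.append_nil]
  | append_singleton u b ih =>
    rw [← List.append_assoc]
    obtain ⟨ρ, h1, -⟩ := p.step (y ++ u)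
    rw [h1]
    exact ih.trans (List.prefix_append _ _)

private theorem T_len_succ (p : Cond P) (y : Str) (b : Bool) :
    (p.T y).length + 1 ≤ (p.T (y ++ [b])).length := by
  obtain ⟨ρ, h1, -⟩ := p.step y
  rw [h1]
  simp only [List.length_append, List.length_singleton]
  omega

theorem length_le_T (p : Cond P) (y : Str) : y.length ≤ (p.T y).length := by
  induction y using List.reverseRecOn with
  | nil => simp
  | append_singleton y b ih =>
    have := T_len_succ p y b
    simp only [List.length_append, List.length_singleton]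
    omega

theorem T_length_lt (p : Cond P) {y y' : Str} (h : y <+: y') (hl : y.length < y'.length) :
    (p.T y).length < (p.T y').length := by
  obtain ⟨u, rfl⟩ := h
  cases u with
  | nil => simp at hl
  | cons b u =>
    have h1 : y ++ [b] <+: y ++ b :: u := by simp
    have h2 := T_len_succ p y b
    have h3 := (T_mono p h1).length_le
    omega

theorem alive_stem (p : Cond P) : Alive p p.s :=
  ⟨List.prefix_refl _, p.hs, p.hg _ (sext_refl _)⟩

theorem alive_prefix {p : Cond P} {y y' : Str} (hy : Alive p y') (h : p.s <+: y) (h' : y <+: y') :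
    Alive p y :=
  ⟨h, legit_prefix h' hy.2.1, fun hb => hy.2.2 (p.up _ _ h' hb)⟩

/-- Safe extensions of a good alive string are alive. -/
theorem alive_of_sext {p : Cond P} {s y : Str} (hs : Alive p s) (hg : good P p.Bad s)
    (h : sext P s y) : Alive p y :=
  ⟨hs.1.trans h.1, legit_of_sext hs.2.1 h, hg y h⟩

private theorem legit_T_aux (p : Cond P) (u : Str) (hy : Alive p (p.s ++ u)) :
    legit P (p.T (p.s ++ u)) := by
  induction u using List.reverseRecOn with
  | nil => rw [List.append_nil]; exact p.hTs
  | append_singleton u b ih =>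
    rw [← List.append_assoc] at hy ⊢
    have ha : Alive p (p.s ++ u) := alive_prefix hy (List.prefix_append _ _)
      (List.prefix_append _ _)
    have h0 := ih ha
    obtain ⟨ρ, h1, h2, h3⟩ := p.step (p.s ++ u)
    rw [h1]
    intro i hi
    rcases lt_or_ge i (p.T (p.s ++ u)).length with hlt | hge
    · rw [List.getElem?_append_left hlt] at hi
      exact h0 i hi
    rw [List.getElem?_append_right hge] at hi
    rcases lt_or_ge (i - (p.T (p.s ++ u)).length) ρ.length with hlt' | hge'
    · rw [List.getElem?_append_left hlt'] at hi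
      have h4 := h3 ha.1 ha.2.1 ha.2.2 _ hi
      rw [Nat.add_sub_cancel' hge] at h4
      exact fun hE => P.disj _ ⟨h4, hE⟩
    · rw [List.getElem?_append_right hge'] at hi
      obtain ⟨h5, h6⟩ := List.getElem?_eq_some_iff.1 hi
      rw [List.length_singleton] at h5
      have h7 : i = (p.T (p.s ++ u)).length + ρ.length := by omega
      have h8 : b = true := by
        rw [← h6]
        simp
      rw [h7, h2]
      refine hy.2.1 _ ?_
      rw [List.getElem?_append_right le_rfl, h8]
      simp

theorem legit_T {p : Cond P} {y : Str} (hy : Alive p y) : legit P (p.T y) := by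
  obtain ⟨u, rfl⟩ := hy.1
  exact legit_T_aux p u hy

private theorem pre_eq_of_prefix {A : ℕ → Bool} {a b : Str} (h : a <+: b)
    (hb : b = pre A b.length) : a = pre A a.length := by
  have hl := h.length_le
  rw [hb] at h
  have h1 := List.prefix_iff_eq_take.1 h
  rw [pre_take_of_le A hl] at h1
  exact h1

theorem T_eq_of_pre {p : Cond P} {A : ℕ → Bool} {y y' : Str} (hl : y.length = y'.length)
    (h : p.T y = pre A (p.T y).length) (h' : p.T y' = pre A (p.T y').length) : y = y' := by
  induction y using List.reverseRecOn generalizing y' with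
  | nil =>
    rw [List.length_nil] at hl
    exact (List.length_eq_zero_iff.1 hl.symm).symm
  | append_singleton y b ih =>
    rcases List.eq_nil_or_concat' y' with rfl | ⟨y', b', rfl⟩
    · simp at hl
    · have h1 := pre_eq_of_prefix (T_mono p (List.prefix_append y [b])) h
      have h2 := pre_eq_of_prefix (T_mono p (List.prefix_append y' [b'])) h'
      have h3 : y = y' := ih (by simpa using hl) h1 h2
      subst h3
      obtain ⟨ρ, h4, -⟩ := p.step y
      rw [h4] at h h'
      have h5 : ∀ c : Bool, (p.T y ++ (ρ ++ [c])).length = (p.T y).length + ρ.length + 1 := by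
        intro c; simp only [List.length_append, List.length_singleton]; omega
      rw [h5] at h h'
      rw [← h'] at h
      have h6 := List.append_cancel_left (List.append_cancel_left h)
      rw [List.cons.injEq] at h6
      rw [h6.1]

theorem ext_refl (p : Cond P) : Ext p p :=
  ⟨id, fun _ => rfl, fun _ _ h => h, fun _ => le_rfl, fun _ h => h⟩

theorem ext_trans {p q r : Cond P} (h : Ext r q) (h' : Ext q p) : Ext r p := by
  obtain ⟨θ, a1, a2, a3, a4⟩ := h
  obtain ⟨θ', b1, b2, b3, b4⟩ := h'
  exact ⟨fun y => θ' (θ y), fun y => by rw [a1, b1], fun y y' hy => b2 _ _ (a2 _ _ hy),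
    fun y => (a3 y).trans (b3 _), fun y hy => b4 _ (a4 _ hy)⟩

theorem through_of_ext {p q : Cond P} (h : Ext q p) {A : ℕ → Bool} (hA : Through q A) :
    Through p A := by
  obtain ⟨θ, a1, a2, a3, a4⟩ := h
  intro j
  obtain ⟨y, h1, h2, h3⟩ := hA j
  exact ⟨θ y, h1.trans (a3 y), a4 y h2, by rw [← a1]; exact h3⟩

/-- Changing the stem and enlarging the set of bad strings. -/
theorem restem (p : Cond P) {s' : Str} (hs' : Alive p s') (Bad' : Str → Prop) (hB : REPred Bad')
    (hup : ∀ y y', y <+: y' → Bad' y → Bad' y') (hsub : ∀ y, p.Bad y → Bad' y)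
    (hg : good P Bad' s') : ∃ q : Cond P, Ext q p ∧ q.T = p.T ∧ q.s = s' ∧ q.Bad = Bad' := by
  refine ⟨{ T := p.T, s := s', Bad := Bad', hT := p.hT, hBad := hB, up := hup, hs := hs'.2.1,
            hg := hg, hTs := legit_T hs', step := fun y => ?_ }, ?_, rfl, rfl, rfl⟩
  · obtain ⟨ρ, h1, h2, h3⟩ := p.step y
    exact ⟨ρ, h1, h2, fun ha hb hc => h3 (hs'.1.trans ha) hb fun h => hc (hsub y h)⟩
  · exact ⟨id, fun _ => rfl, fun _ _ h => h, fun _ => le_rfl,
      fun y hy => ⟨hs'.1.trans hy.1, hy.2.1, fun h => hy.2.2 (hsub y h)⟩⟩

/-- The stem can be lengthened. -/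
theorem grow (p : Cond P) : ∃ q : Cond P, Ext q p ∧ q.T = p.T ∧ q.s = p.s ++ [false] ∧
    q.Bad = p.Bad := by
  have h : sext P p.s (p.s ++ [false]) := sext_false p.s 1
  exact restem p (alive_of_sext (alive_stem p) p.hg h) p.Bad p.hBad p.up (fun _ h => h)
    (good_of_sext p.hg h)

/-- Through a condition, an alive node of each length. -/
theorem through_length {p : Cond P} {A : ℕ → Bool} (hA : Through p A) {j : ℕ}
    (hj : p.s.length ≤ j) : ∃ y, y.length = j ∧ Alive p y ∧ p.T y = pre A (p.T y).length := by
  obtain ⟨y, h1, h2, h3⟩ := hA j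
  refine ⟨y.take j, by simp [h1], ?_, pre_eq_of_prefix (T_mono p (List.take_prefix _ _)) h3⟩
  exact alive_prefix h2 (List.prefix_of_prefix_length_le h2.1 (List.take_prefix _ _)
    (by simp [h1, hj])) (List.take_prefix _ _)

theorem through_stem {p : Cond P} {A : ℕ → Bool} (hA : Through p A) :
    p.T p.s = pre A (p.T p.s).length := by
  obtain ⟨y, h1, h2, h3⟩ := through_length hA le_rfl
  rw [h2.1.eq_of_length h1.symm]
  exact h3

theorem through_legit {p : Cond P} {A : ℕ → Bool} (hA : Through p A) (i : ℕ) (hi : A i = true) :
    ¬ P.E (P.t i) := by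
  obtain ⟨y, h1, h2, h3⟩ := hA (i + 1)
  refine legit_T h2 i ?_
  have h4 := length_le_T p y
  rw [h3, List.getElem?_eq_some_iff]
  refine ⟨by rw [pre_length]; omega, ?_⟩
  simpa [pre] using hi

end Cup
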