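import Pool.Agent.H59.Cup.Defs

/-!
# Module ReUtil: r.e. predicates and computable selection

Use the closure lemmas of `Pool.Agent.H77.OW.Stage` (`exists_stage`, `re_of_prim_nat`, `re_comp`,
`re_and`, `re_or`, `re_exists`, `re_forall_mem`).

* `exists_selector`: take a monotone primitive recursive staging `f : (α × β) → ℕ → Bool` of `R`,
  and search for the least `n` such that `decode (α := β × ℕ) n = some (b, s)` with
  `f (a, b) s = true` (`Partrec.rfind` on a computable Boolean function; total because of `hT`).
* `re_forall_lt`: `∀ j < g a, p a j` iff `∃ k, k = g a ∧ ∀ j ∈ List.range k, p a j`.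
* `re_of_computable_eq`: the graph of a computable function.
-/

namespace Cup

open Encodable OWR

theorem exists_selector {α β : Type*} [Primcodable α] [Primcodable β] {R : α → β → Prop}
    (hR : REPred fun p : α × β => R p.1 p.2) (hT : ∀ a, ∃ b, R a b) :
    ∃ f : α → β, Computable f ∧ ∀ a, R a (f a) := by
  obtain ⟨f, hf, -, ef⟩ := exists_stage hR
  let g : α → ℕ → Option β := fun a n => (decode (α := β × ℕ) n).bind
    (fun q => if f (a, q.1) q.2 = true then some q.1 else none)
  have hg : Primrec₂ g := by
    refine Primrec.option_bind (Primrec.decode.comp Primrec.snd) ?_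
    have h1 : Primrec fun p : (α × ℕ) × (β × ℕ) => f (p.1.1, p.2.1) p.2.2 :=
      hf.comp (Primrec.pair (Primrec.fst.comp Primrec.fst) (Primrec.fst.comp Primrec.snd))
        (Primrec.snd.comp Primrec.snd)
    exact Primrec.ite (Primrec.eq.comp h1 (Primrec.const true))
      (Primrec.option_some.comp (Primrec.fst.comp Primrec.snd)) (Primrec.const none)
  have hdom : ∀ a, (Nat.rfindOpt (g a)).Dom := by
    intro a
    obtain ⟨b, hb⟩ := hT a
    obtain ⟨s, hs⟩ := (ef (a, b)).1 hb
    rw [Nat.rfindOpt_dom]
    refine ⟨encode (b, s), b, ?_⟩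
    simp only [g, encodek, Option.bind_some, hs, if_true]
    exact rfl
  refine ⟨fun a => (Nat.rfindOpt (g a)).get (hdom a), ?_, ?_⟩
  · have h1 : Partrec fun a => Nat.rfindOpt (g a) := Partrec.rfindOpt hg.to_comp
    refine h1.of_eq (fun a => ?_)
    exact (Part.some_get (hdom a)).symm
  · intro a
    obtain ⟨n, hn⟩ := Nat.rfindOpt_spec (Part.get_mem (hdom a))
    simp only [g, Option.mem_def, Option.bind_eq_some_iff] at hn
    obtain ⟨q, -, hq⟩ := hn
    split_ifs at hq with h1
    have h2 : q.1 = (Nat.rfindOpt (g a)).get (hdom a) := Option.some.inj hq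
    have h3 : R a q.1 := (ef (a, q.1)).2 ⟨q.2, h1⟩
    rw [h2] at h3
    exact h3

theorem re_forall_lt {α : Type*} [Primcodable α] {p : α → ℕ → Prop}
    (hp : REPred fun q : α × ℕ => p q.1 q.2) {g : α → ℕ} (hg : Computable g) :
    REPred fun a => ∀ j < g a, p a j := by
  have h1 : REPred fun q : (α × ℕ) × ℕ => p q.1.1 q.2 :=
    re_comp hp (((Primrec.fst.comp Primrec.fst).pair Primrec.snd).to_comp)
  have h2 : REPred fun q : α × ℕ => ∀ j ∈ List.range q.2, p q.1 j :=
    re_forall_mem (p := fun (q : α × ℕ) (j : ℕ) => p q.1 j) h1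
      (Primrec.list_range.comp Primrec.snd)
  refine (re_comp h2 (Computable.id.pair hg)).of_eq (fun a => ?_)
  simp only [List.mem_range, id]

theorem re_of_computable_eq {α β : Type*} [Primcodable α] [Primcodable β] [DecidableEq β]
    {f g : α → β} (hf : Computable f) (hg : Computable g) : REPred fun a => f a = g a := by
  have h1 : REPred fun q : β × β => q.1 = q.2 :=
    re_of_primrec (Primrec.eq.comp Primrec.fst Primrec.snd)
  exact re_comp h1 (hf.pair hg)

private theorem re_prefix : REPred fun q : Str × Str => q.1 <+: q.2 := by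
  have h1 : REPred fun q : (Str × Str) × Str => q.1.1 ++ q.2 = q.1.2 :=
    re_of_primrec (Primrec.eq.comp
      (Primrec.list_append.comp (Primrec.fst.comp Primrec.fst) Primrec.snd)
      (Primrec.snd.comp Primrec.fst))
  exact (re_exists (p := fun (q : Str × Str) (z : Str) => q.1 ++ z = q.2) h1).of_eq
    (fun q => Iff.rfl)

/-- Existential quantification over a prefix. -/
theorem re_exists_prefix {p : Str → Prop} (hp : REPred p) (q : Str → Prop) (hq : ComputablePred q) :
    REPred fun y => ∃ y', y' <+: y ∧ q y' ∧ p y' := by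
  have h1 : REPred fun z : Str × Str => z.2 <+: z.1 :=
    re_comp re_prefix ((Primrec.snd.pair Primrec.fst).to_comp)
  have h2 : REPred fun z : Str × Str => q z.2 := re_comp hq.to_re Computable.snd
  have h3 : REPred fun z : Str × Str => p z.2 := re_comp hp Computable.snd
  exact re_exists (p := fun (y y' : Str) => y' <+: y ∧ q y' ∧ p y') (re_and h1 (re_and h2 h3))

variable (P : Par)

theorem re_ill : REPred fun y : Str => ¬ legit P y := by
  have h1 : REPred fun z : Str × ℕ => z.1[z.2]? = some true :=
    re_of_primrec (Primrec.eq.comp (Primrec.list_getElem?.comp Primrec.fst Primrec.snd)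
      (Primrec.const (some true)))
  have h2 : REPred fun z : Str × ℕ => P.E (P.t z.2) :=
    re_comp P.hE (P.ht.comp Computable.snd)
  refine (re_exists (p := fun (y : Str) (i : ℕ) => y[i]? = some true ∧ P.E (P.t i))
    (re_and h1 h2)).of_eq (fun y => ?_)
  unfold legit
  push Not
  exact Iff.rfl

theorem re_sext : REPred fun p : Str × Str => sext P p.1 p.2 := by
  have h1 : REPred fun z : (Str × Str) × ℕ => z.2 < z.1.1.length :=
    re_of_primrec (Primrec.nat_lt.comp Primrec.snd
      (Primrec.list_length.comp (Primrec.fst.comp Primrec.fst)))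
  have h2 : REPred fun z : (Str × Str) × ℕ => z.1.2[z.2]? = some false :=
    re_of_primrec (Primrec.eq.comp
      (Primrec.list_getElem?.comp (Primrec.snd.comp Primrec.fst) Primrec.snd)
      (Primrec.const (some false)))
  have h3 : REPred fun z : (Str × Str) × ℕ => P.S (P.t z.2) :=
    re_comp P.hS (P.ht.comp Computable.snd)
  have h4 : REPred fun q : Str × Str => ∀ i < q.2.length,
      (i < q.1.length ∨ q.2[i]? = some false ∨ P.S (P.t i)) :=
    re_forall_lt (p := fun (q : Str × Str) (i : ℕ) =>
      (i < q.1.length ∨ q.2[i]? = some false ∨ P.S (P.t i))) (re_or h1 (re_or h2 h3))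
      ((Primrec.list_length.comp Primrec.snd).to_comp)
  refine (re_and re_prefix h4).of_eq (fun q => ?_)
  unfold sext
  refine and_congr Iff.rfl ⟨fun h i hi hy => ?_, fun h i hi => ?_⟩
  · have hlt : i < q.2.length := by
      by_contra hcon
      rw [List.getElem?_eq_none (Nat.le_of_not_lt hcon)] at hy
      exact absurd hy (by simp)
    rcases h i hlt with h5 | h5 | h5
    · omega
    · rw [h5] at hy
      exact absurd hy (by simp)
    · exact h5
  · by_cases h5 : i < q.1.length
    · exact Or.inl h5
    · right
      have h6 : q.2[i]? = some q.2[i] := List.getElem?_eq_getElem hi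
      cases hb : q.2[i] with
      | false =>
        left
        rw [h6, hb]
      | true =>
        right
        rw [hb] at h6
        exact h i (Nat.le_of_not_lt h5) h6

/-- Having a bad safe extension is r.e. -/
theorem re_not_good {Bad : Str → Prop} (hB : REPred Bad) : REPred fun s : Str => ¬ good P Bad s := by
  have h1 : REPred fun q : Str × Str => Bad q.2 := re_comp hB Computable.snd
  refine (re_exists (p := fun (s y : Str) => sext P s y ∧ Bad y)
    (re_and (re_sext P) h1)).of_eq (fun s => ?_)
  unfold good
  push Not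
  exact Iff.rfl

end Cup
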