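import Pool.Agent.H59.Cup.Basic
import Pool.Agent.H59.Cup.ReUtil

/-!
# Module CodeD: coding

`c : ℕ → ℕ` is a computable sequence of colours none of which is ill; the set `{x : c x safe}` is
c.e. and its complement is not c.e. For each `x` let `k_x` be the least `k` with
`P.t (p.s.length + k) = c x` (`P.inf`) and `s_x = p.s ++ (k_x zeros) ++ [true]`. It is a computable
function of `x` (cf. `exists_pad` of `MkTree`, which you may import). Let
`D x := ¬ good P p.Bad s_x`, which is r.e. If `c x` is safe then `s_x` is a safe extension of `p.s`,
so it is good: `¬ D x`. If `D x` held for every `x` with `c x` not safe, then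
`{x : ¬ P.S (c x)} = {x : D x}` would be r.e., a contradiction. So there is `x` with `¬ P.S (c x)`,
`s_x` good; `s_x` is legit since `c x` is not ill, and not bad since it is good. Use `restem` with
the stem `s_x`. The last bit of `q.T q.s` is `true` at a position of colour
`P.t (p.s.length + k_x) = c x` by `p.step`.
-/

namespace Cup

open Encodable OWR

variable {P : Par}

private theorem cd_replicate : Primrec fun n : ℕ => List.replicate n false := by
  have h : Primrec fun n : ℕ => (List.range n).map (fun _ => false) :=
    Primrec.list_map Primrec.list_range (Primrec₂.const false)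
  refine h.of_eq fun n => ?_
  apply List.ext_getElem
  · simp
  · intro i h1 h2
    simp

private theorem cd_getElem (l : Str) (n i : ℕ) (hi : l.length ≤ i)
    (h : (l ++ List.replicate n false ++ [true])[i]? = some true) : i = l.length + n := by
  have hlen : (l ++ List.replicate n false ++ [true]).length = l.length + n + 1 := by
    simp [Nat.add_assoc]
  have hlt : i < l.length + n + 1 := by
    by_contra hcon
    rw [List.getElem?_eq_none (by omega)] at h
    simp at h
  by_contra hne
  have hlt' : i < l.length + n := by omega
  rw [List.getElem?_append_left (by simpa using hlt'), List.getElem?_append_right hi,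
    List.getElem?_replicate] at h
  split_ifs at h
  simp at h

theorem code_dense (c : ℕ → ℕ) (hc : Computable c) (hE : ∀ x, ¬ P.E (c x))
    (hW : ¬ REPred fun x => ¬ P.S (c x)) (p : Cond P) :
    ∃ q, Ext q p ∧ ∃ x i, ¬ P.S (c x) ∧ P.t i = c x ∧ (q.T q.s)[i]? = some true := by
  -- the padding
  have hex : ∃ f : ℕ → ℕ, Computable f ∧ ∀ x, P.t (p.s.length + f x) = c x := by
    refine exists_selector (R := fun x k => P.t (p.s.length + k) = c x) ?_ ?_
    · refine re_of_computable_eq (f := fun q : ℕ × ℕ => P.t (p.s.length + q.2))
        (g := fun q : ℕ × ℕ => c q.1) ?_ (hc.comp Computable.fst)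
      exact P.ht.comp (Primrec.nat_add.to_comp.comp (Computable.const p.s.length) Computable.snd)
    · intro x
      obtain ⟨m, hm, hmt⟩ := P.inf (c x) p.s.length
      exact ⟨m - p.s.length, by rw [Nat.add_sub_cancel' hm]; exact hmt⟩
  obtain ⟨f, hf, hft⟩ := hex
  set st : ℕ → Str := fun x => p.s ++ List.replicate (f x) false ++ [true] with hst
  have hstc : Computable st := by
    have h1 : Computable fun x => List.replicate (f x) false := cd_replicate.to_comp.comp hf
    have h2 : Computable fun x => p.s ++ List.replicate (f x) false :=
      Primrec.list_append.to_comp.comp (Computable.const p.s) h1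
    exact Primrec.list_append.to_comp.comp h2 (Computable.const [true])
  have hpre : ∀ x, p.s <+: st x := fun x => by
    rw [hst]
    simp only [List.append_assoc]
    exact List.prefix_append _ _
  -- safe colours give good strings
  have hsafe : ∀ x, P.S (c x) → good P p.Bad (st x) := by
    intro x hx
    refine good_of_sext p.hg ⟨hpre x, fun i hi h => ?_⟩
    have hi' := cd_getElem p.s (f x) i hi h
    rw [hi', hft]
    exact hx
  have hD : ∃ x, ¬ P.S (c x) ∧ good P p.Bad (st x) := by
    by_contra hcon
    push Not at hcon
    apply hW
    have h1 : REPred fun x => ¬ good P p.Bad (st x) := re_comp (re_not_good P p.hBad) hstc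
    refine h1.of_eq fun x => ?_
    constructor
    · intro h hS
      exact h (hsafe x hS)
    · intro h
      exact hcon x h
  obtain ⟨x, hx, hgood⟩ := hD
  have hal : Alive p (st x) := by
    refine ⟨hpre x, fun i hi => ?_, hgood _ (sext_refl _)⟩
    rcases lt_or_ge i p.s.length with h | h
    · refine p.hs i ?_
      have h2 : (st x)[i]? = p.s[i]? := by
        simp only [hst]
        rw [List.append_assoc, List.getElem?_append_left h]
      rw [← h2, hi]
    · have hi' := cd_getElem p.s (f x) i h hi
      rw [hi', hft]
      exact hE x
  obtain ⟨q, hq, hqT, hqs, -⟩ := restem p hal p.Bad p.hBad p.up (fun _ h => h) hgood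
  obtain ⟨ρ, hρ, hcol, -⟩ := p.step (p.s ++ List.replicate (f x) false)
  refine ⟨q, hq, x, (p.T (p.s ++ List.replicate (f x) false)).length + ρ.length, hx, ?_, ?_⟩
  · rw [hcol, ← hft x]
    simp
  · rw [hqT, hqs]
    simp only [hst]
    rw [hρ true, List.getElem?_append_right (by omega), Nat.add_sub_cancel_left]
    simp

end Cup
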