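import Pool.Agent.H59.Cup.Basic

/-!
# Module Comp: composition of a condition with an inner tree map

`q.T = p.T ∘ θ`. Lemmas of `Basic` give monotonicity etc.

* `θ` is monotone and `y.length ≤ (θ y).length`, by induction from `hθ`.
* `step`: for `z ≥ θ y` inside `θ y ++ w y`: `p.T (θ (y ++ [b])) = p.T (θ y ++ w y ++ [b])
  = p.T (θ y ++ w y) ++ (ρ' ++ [b])` by `p.step`, and `p.T (θ y ++ w y) = p.T (θ y) ++ u` (`T_mono`),
  so the insertion of `q` at `y` is `u ++ ρ'`, of final colour `t |θ y ++ w y| = t |y|`.
  It is safe if `y ≥ s'` is legit and not in `Bad'`: by induction on the length of a string `w₁`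
  with `θ y ++ w₁ <+: θ y ++ w y`, `p.T (θ y ++ w₁)` is a safe extension of `p.T (θ y)`: the strings
  `θ y ++ w₁` are alive for `p` (prefixes of the alive string `θ y ++ w y`), the insertions of `p`
  are safe, and the copied bits of `w y` are safe because `θ y ++ w y` is a safe extension of
  `θ y` and the colour is the same.
* `hTs`: `legit_T` of `Basic` for `p` at `θ s'` (alive by `hal` applied to `y = s'`, which is not
  in `Bad'` by `hg`).
-/

namespace Cup

open Encodable OWR

variable {P : Par}

private theorem sext_app {s z ρ : Str} {b : Bool} (h : sext P s z)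
    (hρ : ∀ i, ρ[i]? = some true → P.S (P.t (z.length + i)))
    (hb : b = true → P.S (P.t (z.length + ρ.length))) : sext P s (z ++ (ρ ++ [b])) := by
  refine ⟨h.1.trans (List.prefix_append _ _), fun i hli hi => ?_⟩
  rcases lt_or_ge i z.length with hlt | hge
  · rw [List.getElem?_append_left hlt] at hi
    exact h.2 i hli hi
  rw [List.getElem?_append_right hge] at hi
  rcases lt_or_ge (i - z.length) ρ.length with hlt' | hge'
  · rw [List.getElem?_append_left hlt'] at hi
    have h4 := hρ _ hi
    rwa [Nat.add_sub_cancel' hge] at h4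
  · rw [List.getElem?_append_right hge'] at hi
    obtain ⟨h5, h6⟩ := List.getElem?_eq_some_iff.1 hi
    rw [List.length_singleton] at h5
    have h7 : i = z.length + ρ.length := by omega
    rw [h7]
    refine hb ?_
    rw [← h6]
    simp

private theorem sext_T (p : Cond P) (a v : Str) (h1 : Alive p a) (h2 : Alive p (a ++ v))
    (h3 : sext P a (a ++ v)) : sext P (p.T a) (p.T (a ++ v)) := by
  induction v using List.reverseRecOn with
  | nil => rw [List.append_nil]; exact sext_refl _
  | append_singleton v b ih =>
    rw [← List.append_assoc] at h2 h3 ⊢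
    have ha : Alive p (a ++ v) := alive_prefix h2 (h1.1.trans (List.prefix_append _ _))
      (List.prefix_append _ _)
    have hs : sext P a (a ++ v) := by
      refine ⟨List.prefix_append _ _, fun i hli hi => h3.2 i hli ?_⟩
      obtain ⟨hlt, -⟩ := List.getElem?_eq_some_iff.1 hi
      rwa [List.getElem?_append_left hlt]
    obtain ⟨ρ, g1, g2, g3⟩ := p.step (a ++ v)
    rw [g1]
    refine sext_app (ih ha hs) (g3 ha.1 ha.2.1 ha.2.2) fun hb => ?_
    rw [g2]
    refine h3.2 _ (by simp) ?_
    rw [List.getElem?_append_right le_rfl, hb]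
    simp

theorem comp_cond (p : Cond P) (θ w : Str → Str) (hθc : Computable θ)
    (hθ : ∀ y b, θ (y ++ [b]) = θ y ++ (w y ++ [b]))
    (hcol : ∀ y, P.t ((θ y).length + (w y).length) = P.t y.length)
    (s' : Str) (Bad' : Str → Prop) (hB : REPred Bad')
    (hup : ∀ y y', y <+: y' → Bad' y → Bad' y') (hs' : legit P s') (hg : good P Bad' s')
    (hal : ∀ y, s' <+: y → legit P y → ¬ Bad' y →
      Alive p (θ y) ∧ Alive p (θ y ++ w y) ∧ sext P (θ y) (θ y ++ w y)) :
    ∃ q : Cond P, Ext q p ∧ (∀ y, q.T y = p.T (θ y)) ∧ q.s = s' ∧ q.Bad = Bad' := by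
  have hmono : ∀ y y' : Str, y <+: y' → θ y <+: θ y' := by
    intro y y' hy
    obtain ⟨u, rfl⟩ := hy
    induction u using List.reverseRecOn with
    | nil => rw [List.append_nil]
    | append_singleton u b ih =>
      rw [← List.append_assoc, hθ]
      exact ih.trans (List.prefix_append _ _)
  have hlen : ∀ y : Str, y.length ≤ (θ y).length := by
    intro y
    induction y using List.reverseRecOn with
    | nil => simp
    | append_singleton y b ih =>
      rw [hθ]
      simp only [List.length_append, List.length_singleton]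
      omega
  refine ⟨{ T := fun y => p.T (θ y), s := s', Bad := Bad', hT := p.hT.comp hθc, hBad := hB,
            up := hup, hs := hs', hg := hg,
            hTs := legit_T (hal s' (List.prefix_refl _) hs' (hg _ (sext_refl _))).1,
            step := fun y => ?_ }, ⟨θ, fun _ => rfl, hmono, hlen,
              fun y hy => (hal y hy.1 hy.2.1 hy.2.2).1⟩, fun _ => rfl, rfl, rfl⟩
  obtain ⟨ρ, g1, g2, g3⟩ := p.step (θ y ++ w y)
  obtain ⟨u, hu⟩ := T_mono p (List.prefix_append (θ y) (w y))
  refine ⟨u ++ ρ, fun b => ?_, ?_, fun h1 h2 h3 => ?_⟩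
  · simp only [hθ]
    rw [← List.append_assoc (θ y), g1, ← hu]
    simp only [List.append_assoc]
  · rw [List.length_append, ← Nat.add_assoc, ← List.length_append, hu, g2, List.length_append, hcol]
  · obtain ⟨a1, a2, a3⟩ := hal y h1 h2 h3
    have h4 := sext_T p _ _ a1 a2 a3
    intro i hi
    rcases lt_or_ge i u.length with hlt | hge
    · rw [List.getElem?_append_left hlt] at hi
      refine h4.2 _ (Nat.le_add_right _ _) ?_
      rw [← hu, List.getElem?_append_right (Nat.le_add_right _ _), Nat.add_sub_cancel_left]
      exact hi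
    · rw [List.getElem?_append_right hge] at hi
      have h5 := g3 a2.1 a2.2.1 a2.2.2 _ hi
      rw [← hu, List.length_append] at h5
      rwa [show (p.T (θ y)).length + u.length + (i - u.length) = (p.T (θ y)).length + i by omega]
        at h5

end Cup
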