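import Pool.Agent.H59.Cup.Defs
import Pool.Agent.H77.OW.Part0b
import Pool.Agent.H77.OW.Approx

/-!
# Module Count: countability

* `countable_func`: `Func` is determined by the relation `R`; an r.e. relation `R` is the domain of
  a partial recursive function given by a code `c : Nat.Partrec.Code` (`Nat.Partrec.Code.exists_code`),
  and there are countably many codes (`Denumerable Nat.Partrec.Code`).
* `countable_computable`, `countable_computable_bool`: same argument.
* `countable_ktrivial`: let `A` be K-trivial, `U`, `c` as in the definition. By
  `OWR.ksys_of_optimal` and `OWR.exists_approx` (see the proof of `OWR.lk_of_ktrivial` in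
  `Pool.Agent.H77.OW.Main`) there is a primitive recursive `As : ℕ → List Bool` such that
  `∀ n, ∃ s0, ∀ s ≥ s0, (As s).take n = pre A n`. The set `A` is determined by `As`, and there are
  countably many primitive recursive (computable) functions `ℕ → List Bool`.
-/

namespace Cup

open Encodable OWR

private theorem Count_partrec {α σ : Type*} [Primcodable α] [Primcodable σ] :
    Countable {f : α →. σ // Partrec f} := by
  have h : ∀ f : {f : α →. σ // Partrec f}, ∃ c : Nat.Partrec.Code, c.eval =
      fun n => Part.bind (decode (α := α) n) fun a => (f.1 a).map encode :=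
    fun f => Nat.Partrec.Code.exists_code.1 f.2
  choose F hF using h
  refine Function.Injective.countable (f := F) ?_
  intro f g hfg
  have h1 := hF f
  rw [hfg, hF g] at h1
  apply Subtype.ext
  funext a
  have h2 := congrFun h1 (encode a)
  simp only [encodek, Part.coe_some, Part.bind_some] at h2
  apply Part.ext
  intro b
  have h3 : encode b ∈ Part.map encode (g.1 a) ↔ encode b ∈ Part.map encode (f.1 a) := by rw [h2]
  rw [Part.mem_map_iff, Part.mem_map_iff] at h3
  constructor
  · intro hb
    obtain ⟨b', h4, h5⟩ := h3.2 ⟨b, hb, rfl⟩
    rwa [encode_injective h5] at h4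
  · intro hb
    obtain ⟨b', h4, h5⟩ := h3.1 ⟨b, hb, rfl⟩
    rwa [encode_injective h5] at h4

private theorem Count_computable {α σ : Type*} [Primcodable α] [Primcodable σ] :
    Countable {f : α → σ // Computable f} := by
  have h0 : Countable {f : α →. σ // Partrec f} := Count_partrec
  refine Function.Injective.countable
    (f := fun f : {f : α → σ // Computable f} => (⟨(f.1 : α →. σ), f.2⟩ : {f : α →. σ // Partrec f}))
    ?_
  intro f g hfg
  apply Subtype.ext
  funext a
  have h1 := congrFun (congrArg Subtype.val hfg) a
  exact Part.some_injective h1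

instance countable_func : Countable Func := by
  have h0 : Countable {f : Str × ℕ × ℕ →. Unit // Partrec f} := Count_partrec
  refine Function.Injective.countable
    (f := fun G : Func => (⟨_, G.re⟩ : {f : Str × ℕ × ℕ →. Unit // Partrec f})) ?_
  intro G G' h
  have h1 : ∀ ρ x y, G.R ρ x y ↔ G'.R ρ x y := by
    intro ρ x y
    have h2 := congrFun (congrArg Subtype.val h) (ρ, x, y)
    have h3 := congrArg Part.Dom h2
    simpa [Part.assert] using h3
  have h4 : G.R = G'.R := by
    funext ρ x y
    exact propext (h1 ρ x y)
  cases G
  cases G'
  simp only at h4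
  subst h4
  rfl

instance countable_computable : Countable {g : ℕ → ℕ // Computable g} := Count_computable

instance countable_computable_bool : Countable {g : ℕ → Bool // Computable g} := Count_computable

theorem countable_ktrivial : {A : ℕ → Bool | KTrivial A}.Countable := by
  have h : ∀ A : {A : ℕ → Bool | KTrivial A}, ∃ As : {g : ℕ → List Bool // Computable g},
      ∀ n, ∃ s0, ∀ s, s0 ≤ s → (As.1 s).take n = pre A.1 n := by
    rintro ⟨A, U, hU, c, hc⟩
    obtain ⟨S, hS⟩ := ksys_of_optimal U hU
    have hb : ∀ n r, (∃ s, S.le s n r = true) →
        ∃ s, S.le s (encode (pre A n)) (r + c) = true := by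
      intro n r h
      rw [hS] at h ⊢
      refine (hc n).trans ?_
      push_cast
      gcongr
    obtain ⟨As, h1, h2, h3, h4⟩ := exists_approx S A c hb
    exact ⟨⟨As, h1.to_comp⟩, h4⟩
  choose F hF using h
  have h0 : Countable {g : ℕ → List Bool // Computable g} := Count_computable
  have : Countable {A : ℕ → Bool | KTrivial A} := by
    refine Function.Injective.countable (f := F) ?_
    intro A B hAB
    apply Subtype.ext
    funext n
    obtain ⟨s0, h1⟩ := hF A (n + 1)
    obtain ⟨s1, h2⟩ := hF B (n + 1)
    have h3 := h1 (max s0 s1) (le_max_left _ _)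
    have h4 := h2 (max s0 s1) (le_max_right _ _)
    rw [hAB, h4] at h3
    have h5 := congrArg (fun l : List Bool => l[n]?) h3
    simp only [pre, List.getElem?_map, List.getElem?_range (Nat.lt_succ_self n), Option.map_some,
      Option.some.injEq] at h5
    exact h5.symm
  exact this

end Cup
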