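import Pool.Agent.H59.Cup.Defs

/-!
# Module MkTree: tree maps from insertion functions

Given a computable insertion function `r : Str → Str → Str` (arguments: the input `y` and its
image `z = θ y`), define `θ` by recursion on the input string:
`θ [] = []`, `θ (y ++ [b]) = θ y ++ r y (θ y) ++ (zeros) ++ [b]`, where the number `k` of zeros is the
least one such that the colour `t (|θ y| + |r y (θ y)| + k)` is `t |y|` (it exists by `P.inf`).

Computability: `θ y` is a left fold over `y` (`Computable.list_foldl`, or `Primrec`/`Computable`
recursion on the list) with the state `(y', θ y')`; the least `k` is found with `Nat.rfind`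
(total because of `P.inf`), e.g. first show that
`pad : ℕ × ℕ → ℕ`, `pad (l, c) = least k with P.t (l + k) = c`, is computable
(use `Partrec.rfind`, `Part` totality; `exists_selector` of `ReUtil` is not enough since the least
`k` is wanted, but you may also import ReUtil).
-/

namespace Cup

open Encodable OWR

theorem exists_pad (P : Par) : ∃ pad : ℕ → ℕ → ℕ, Computable₂ pad ∧
    (∀ l c, P.t (l + pad l c) = c) ∧ ∀ l c k, k < pad l c → P.t (l + k) ≠ c := by
  have ex : ∀ l c, ∃ k, P.t (l + k) = c := by
    intro l c
    obtain ⟨m, hm, hc⟩ := P.inf c l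
    exact ⟨m - l, by rw [Nat.add_sub_cancel' hm]; exact hc⟩
  refine ⟨fun l c => Nat.find (ex l c), ?_, fun l c => Nat.find_spec (ex l c),
    fun l c k hk => Nat.find_min (ex l c) hk⟩
  have h1 : Computable₂ fun (a : ℕ × ℕ) (n : ℕ) => decide (P.t (a.1 + n) = a.2) := by
    have h2 : Computable fun q : (ℕ × ℕ) × ℕ => P.t (q.1.1 + q.2) :=
      P.ht.comp (Primrec.nat_add.to_comp.comp (Computable.fst.comp Computable.fst)
        Computable.snd)
    have h3 : Computable₂ fun (a b : ℕ) => decide (a = b) := Primrec.eq.decide.to_comp
    exact h3.comp h2 (Computable.snd.comp Computable.fst)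
  have h4 : Partrec fun a : ℕ × ℕ => Nat.rfind fun n => Part.some (decide (P.t (a.1 + n) = a.2)) :=
    Partrec.rfind h1.partrec₂
  refine h4.of_eq_tot fun a => ?_
  refine Nat.mem_rfind.2 ⟨?_, fun {m} hm => ?_⟩
  · exact Part.mem_some_iff.2 (decide_eq_true (Nat.find_spec (ex a.1 a.2))).symm
  · exact Part.mem_some_iff.2 (decide_eq_false (Nat.find_min (ex a.1 a.2) hm)).symm

private theorem mktree_replicate : Computable fun k : ℕ => List.replicate k false := by
  have h1 : Primrec fun k : ℕ => (List.range k).map fun _ => false :=
    Primrec.list_map Primrec.list_range (Primrec.const false).to₂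
  refine (h1.of_eq fun k => ?_).to_comp
  rw [List.map_const', List.length_range]

/-- one step -/
private def mktree_w (P : Par) (pad : ℕ → ℕ → ℕ) (r : Str → Str → Str) (y z : Str) : Str :=
  r y z ++ List.replicate (pad (z.length + (r y z).length) (P.t y.length)) false

private theorem mktree_w_comp (P : Par) {pad : ℕ → ℕ → ℕ} (hp : Computable₂ pad)
    {r : Str → Str → Str} (hr : Computable₂ r) : Computable₂ (mktree_w P pad r) := by
  have h1 : Computable fun q : Str × Str => r q.1 q.2 := hr
  have h2 : Computable fun q : Str × Str => q.2.length + (r q.1 q.2).length :=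
    Primrec.nat_add.to_comp.comp (Computable.list_length.comp Computable.snd)
      (Computable.list_length.comp h1)
  have h3 : Computable fun q : Str × Str => P.t q.1.length :=
    P.ht.comp (Computable.list_length.comp Computable.fst)
  have h4 : Computable fun q : Str × Str =>
      pad (q.2.length + (r q.1 q.2).length) (P.t q.1.length) := hp.comp h2 h3
  exact Computable.list_append.comp h1 (mktree_replicate.comp h4)

/-- the state after `n` steps -/
private def mktree_G (W : Str → Str → Str) (y : Str) (n : ℕ) : Str :=
  Nat.rec [] (fun n z => Option.casesOn (y[n]?) z fun b => z ++ (W (y.take n) z ++ [b])) n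

private theorem mktree_G_comp {W : Str → Str → Str} (hW : Computable₂ W) :
    Computable fun y : Str => mktree_G W y y.length := by
  have hz : Computable fun q : Str × ℕ × Str => q.2.2 := Computable.snd.comp Computable.snd
  have hn : Computable fun q : Str × ℕ × Str => q.2.1 := Computable.fst.comp Computable.snd
  have ho : Computable fun q : Str × ℕ × Str => q.1[q.2.1]? :=
    Computable.list_getElem?.comp Computable.fst hn
  have ht : Computable fun q : (Str × ℕ × Str) × Bool => q.1.1.take q.1.2.1 :=
    Primrec.list_take.to_comp.comp (hn.comp Computable.fst) (Computable.fst.comp Computable.fst)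
  have hz' : Computable fun q : (Str × ℕ × Str) × Bool => q.1.2.2 := hz.comp Computable.fst
  have hg : Computable₂ fun (q : Str × ℕ × Str) (b : Bool) =>
      q.2.2 ++ (W (q.1.take q.2.1) q.2.2 ++ [b]) :=
    Computable.list_append.comp hz'
      (Computable.list_concat.comp (hW.comp ht hz') Computable.snd)
  have hh : Computable₂ fun (y : Str) (q : ℕ × Str) =>
      (Option.casesOn (y[q.1]?) q.2 fun b => q.2 ++ (W (y.take q.1) q.2 ++ [b]) : Str) :=
    Computable.option_casesOn ho hz hg
  exact Computable.nat_rec (f := fun y : Str => y.length) (g := fun _ : Str => ([] : Str))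
    Computable.list_length (Computable.const _) hh

private theorem mktree_G_append (W : Str → Str → Str) (y v : Str) (n : ℕ) (hn : n ≤ y.length) :
    mktree_G W (y ++ v) n = mktree_G W y n := by
  induction n with
  | zero => rfl
  | succ n ih =>
    have h1 : (y ++ v)[n]? = y[n]? := List.getElem?_append_left (by omega)
    have h2 : (y ++ v).take n = y.take n := List.take_append_of_le_length (by omega)
    have ih' := ih (by omega)
    show (Option.casesOn ((y ++ v)[n]?) (mktree_G W (y ++ v) n)
      fun b => mktree_G W (y ++ v) n ++ (W ((y ++ v).take n) (mktree_G W (y ++ v) n) ++ [b]) : Str) =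
      Option.casesOn (y[n]?) (mktree_G W y n)
        fun b => mktree_G W y n ++ (W (y.take n) (mktree_G W y n) ++ [b])
    rw [h1, h2, ih']

theorem exists_tree (P : Par) (r : Str → Str → Str) (hr : Computable₂ r) :
    ∃ (θ w : Str → Str), Computable θ ∧ Computable w ∧ θ [] = [] ∧
      (∀ y b, θ (y ++ [b]) = θ y ++ (w y ++ [b])) ∧
      (∀ y, ∃ k, w y = r y (θ y) ++ List.replicate k false) ∧
      (∀ y, P.t ((θ y).length + (w y).length) = P.t y.length) ∧
      (∀ y, θ y = y → r y y = [] → w y = []) := by
  obtain ⟨pad, hp, hp1, hp2⟩ := exists_pad P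
  have hW := mktree_w_comp P hp hr
  have hG := mktree_G_comp hW
  refine ⟨fun y => mktree_G (mktree_w P pad r) y y.length,
    fun y => mktree_w P pad r y (mktree_G (mktree_w P pad r) y y.length),
    hG, hW.comp Computable.id hG, rfl, ?_, fun y => ⟨_, rfl⟩, ?_, ?_⟩
  · intro y b
    have h1 : (y ++ [b]).length = y.length + 1 := by simp
    have h2 : (y ++ [b])[y.length]? = some b := by simp
    have h3 : (y ++ [b]).take y.length = y := by simp
    simp only [h1]
    show (Option.casesOn ((y ++ [b])[y.length]?) (mktree_G (mktree_w P pad r) (y ++ [b]) y.length)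
      fun c => mktree_G (mktree_w P pad r) (y ++ [b]) y.length ++
        (mktree_w P pad r ((y ++ [b]).take y.length)
          (mktree_G (mktree_w P pad r) (y ++ [b]) y.length) ++ [c]) : Str) = _
    rw [h2, h3, mktree_G_append _ _ _ _ le_rfl]
  · intro y
    simp only
    generalize mktree_G (mktree_w P pad r) y y.length = z
    unfold mktree_w
    rw [List.length_append, List.length_replicate, ← add_assoc]
    exact hp1 _ _
  · intro y h1 h2
    simp only at h1 ⊢
    rw [h1]
    unfold mktree_w
    rw [h2, List.length_nil, add_zero, List.nil_append]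
    have h3 : pad y.length (P.t y.length) = 0 := by
      by_contra hne
      exact hp2 y.length (P.t y.length) 0 (Nat.pos_of_ne_zero hne) rfl
    rw [h3]
    rfl

end Cup
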