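import Pool.Agent.H59.Cup.Basic
import Pool.Agent.H59.Cup.Comp
import Pool.Agent.H59.Cup.MkTree
import Pool.Agent.H59.Cup.ReUtil

/-!
# Module Dec: deciding totality, and computable bounds

Let `conv m y := ∃ v, F.R (p.T y) m v` (r.e. in `y, m`; upward closed in `y`).

Case (a): there are `m` and `s'` with `Alive p s'` and `good P (fun y => p.Bad y ∨ conv m y) s'`.
Take `restem` with `Bad' = Bad ∨ conv m`; the first alternative of `DecR` holds.

Case (b): for all `m` and all `s'` with `Alive p s'` there is a safe extension `ρ` of `s'` with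
`p.Bad ρ ∨ conv m ρ`. Call `z` dead if `¬ p.s <+: z`, or `¬ legit P z`, or `¬ good P p.Bad z`
(r.e.: `re_ill`, `re_not_good`). If `z` is not dead, it is alive, and every finite set of `m`s has a
common safe extension `ρ` of `z` with `conv m ρ` for all of them (iterate (b); safe extensions of a
good alive string are good and alive; `conv` is upward closed by `T_mono`, `F.mono`).
So the r.e. relation (of `(y, z)` and `(w, flag)`)
 `flag = true  ∧ sext P z (z ++ w) ∧ ∀ j < g (y.length + 1), conv j (z ++ w)` or
 `flag = false ∧ w = [] ∧ z is dead`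
is total; take a computable selector (`exists_selector`), let
`r y z = if p.s.length ≤ y.length then (the selected w) else []`, get `θ, w` from `exists_tree`.
Then `θ y = y` for `y.length ≤ p.s.length`. Let `D y` (decidable) say that `p.s.length ≤ y.length` and
the flag selected at `(y, θ y)` is `false`. Let
 `Bad' y := (∃ y', y' <+: y ∧ D y') ∨ p.Bad (θ y ++ w y)`, `s' := p.s ++ [false]`,
and apply `comp_cond`.
* upward closed: for `y <+: y'`, `y ≠ y'`, `θ y ++ w y <+: θ y'`.
* `hal`: for `y ≥ s'` legit, not in `Bad'`, all prefixes `y' ≥ p.s` of `y` (also `y` itself) have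
  `¬ D y'`, so the flag is true and `w y'` (the selected string plus zeros) is a safe extension of
  `θ y'`; by induction `θ y'` is legit (copied bits have the same colour as in `y`) and extends
  `p.s`; not bad since `θ y <+: θ y ++ w y` and `¬ p.Bad (θ y ++ w y)`.
* `hg`: let `y` be a safe extension of `s'` (`p.s` is good, alive and `p.s ++ [false]` is a safe
  extension of `p.s`). By induction all `θ y'`, `p.s <+: y' <+: y`, are safe extensions of `p.s`,
  hence good, alive, not dead, so the flags are true, and `θ y ++ w y` is a safe extension of `p.s`,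
  so not bad.
* second alternative of `DecR`: an alive `y` of `q` is `y₀ ++ [b]` with `p.s <+: y₀`, and
  `conv j (θ y₀ ++ w y₀)` for `j < g (y₀.length + 1) = g y.length`, where
  `θ y₀ ++ w y₀ <+: θ y`.
-/

namespace Cup

open Encodable OWR

variable {P : Par}

/-- Either the functional diverges somewhere, or it converges below `g |y|` at each alive `y`. -/
def DecR (F : Func) (g : ℕ → ℕ) (q : Cond P) : Prop :=
  (∃ m, ∀ y, Alive q y → ∀ v, ¬ F.R (q.T y) m v) ∨
  (∀ y, Alive q y → ∀ j < g y.length, ∃ v, F.R (q.T y) j v)

/-- the functional converges at `m` on the image of `y` -/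
private def conv (F : Func) (p : Cond P) (m : ℕ) (y : Str) : Prop := ∃ v, F.R (p.T y) m v

private theorem conv_re (F : Func) (p : Cond P) {α : Type*} [Primcodable α] {f : α → ℕ}
    {h : α → Str} (hf : Computable f) (hh : Computable h) :
    REPred fun a => conv F p (f a) (h a) := by
  refine re_exists (p := fun a v => F.R (p.T (h a)) (f a) v) ?_
  exact re_comp F.re (((p.hT.comp hh).comp Computable.fst).pair
    ((hf.comp Computable.fst).pair Computable.snd))

private theorem conv_mono (F : Func) (p : Cond P) (m : ℕ) {y y' : Str} (h : y <+: y')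
    (hc : conv F p m y) : conv F p m y' := by
  obtain ⟨v, hv⟩ := hc
  exact ⟨v, F.mono _ _ _ _ (T_mono p h) hv⟩

private def dead (p : Cond P) (z : Str) : Prop :=
  ¬ p.s <+: z ∨ ¬ legit P z ∨ ¬ good P p.Bad z

private theorem dead_re (p : Cond P) : REPred fun z => dead p z := by
  refine re_or ?_ (re_or (re_ill P) (re_not_good P p.hBad))
  refine re_of_primrec ?_
  have : PrimrecPred fun z : Str => ¬ z.take p.s.length = p.s :=
    PrimrecPred.not (Primrec.eq.comp (Primrec.list_take.comp (Primrec.const _) Primrec.id)
      (Primrec.const _))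
  refine this.of_eq fun z => ?_
  rw [List.prefix_iff_eq_take]
  exact not_congr ⟨fun h => h.symm, fun h => h.symm⟩

private theorem not_dead {p : Cond P} {z : Str} (h : ¬ dead p z) :
    Alive p z ∧ good P p.Bad z := by
  unfold dead at h
  push Not at h
  obtain ⟨h1, h2, h3⟩ := h
  exact ⟨⟨h1, h2, h3 z (sext_refl z)⟩, h3⟩

private theorem not_dead_of_sext {p : Cond P} {z : Str} (h : sext P p.s z) : ¬ dead p z := by
  rintro (h1 | h1 | h1)
  · exact h1 h.1
  · exact h1 (legit_of_sext p.hs h)
  · exact h1 (good_of_sext p.hg h)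

/-- common convergence -/
private theorem exists_conv {F : Func} {p : Cond P}
    (hb : ∀ m s', Alive p s' → ∃ ρ, sext P s' ρ ∧ (p.Bad ρ ∨ conv F p m ρ))
    {z : Str} (hz : Alive p z) (hg : good P p.Bad z) (n : ℕ) :
    ∃ ρ, sext P z ρ ∧ ∀ j < n, conv F p j ρ := by
  induction n with
  | zero => exact ⟨z, sext_refl z, fun j hj => absurd hj (Nat.not_lt_zero j)⟩
  | succ n ih =>
    obtain ⟨ρ, h1, h2⟩ := ih
    have ha := alive_of_sext hz hg h1
    have hgr := good_of_sext hg h1
    obtain ⟨ρ', h3, h4⟩ := hb n ρ ha
    refine ⟨ρ', sext_trans h1 h3, fun j hj => ?_⟩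
    rcases Nat.lt_succ_iff_lt_or_eq.1 hj with h5 | rfl
    · exact conv_mono F p j h3.1 (h2 j h5)
    · exact h4.resolve_left (hgr ρ' h3)

theorem dec_dense (F : Func) {g : ℕ → ℕ} (hg : Computable g) (p : Cond P) :
    ∃ q, Ext q p ∧ DecR F g q := by
  classical
  by_cases ha : ∃ m s', Alive p s' ∧ good P (fun y => p.Bad y ∨ conv F p m y) s'
  · obtain ⟨m, s', hs', hgs⟩ := ha
    obtain ⟨q, hq, hqT, hqs, hqB⟩ := restem p hs' (fun y => p.Bad y ∨ conv F p m y)
      (re_or p.hBad (conv_re F p (Computable.const m) Computable.id))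
      (fun y y' hy h => h.imp (p.up y y' hy) (conv_mono F p m hy)) (fun y h => Or.inl h) hgs
    refine ⟨q, hq, Or.inl ⟨m, fun y hy v hv => hy.2.2 ?_⟩⟩
    rw [hqB]
    exact Or.inr ⟨v, by rwa [hqT] at hv⟩
  have hb : ∀ m s', Alive p s' → ∃ ρ, sext P s' ρ ∧ (p.Bad ρ ∨ conv F p m ρ) := by
    intro m s' hs'
    by_contra hcon
    refine ha ⟨m, s', hs', fun y hy hbad => hcon ⟨y, hy, hbad⟩⟩
  -- the selector
  let R : (Str × Str) → (Str × Bool) → Prop := fun a b =>
    (b.2 = true ∧ sext P a.2 (a.2 ++ b.1) ∧ ∀ j < g (a.1.length + 1), conv F p j (a.2 ++ b.1)) ∨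
    (b.2 = false ∧ b.1 = [] ∧ dead p a.2)
  have hR : REPred fun q : (Str × Str) × (Str × Bool) => R q.1 q.2 := by
    have cz : Computable fun q : (Str × Str) × (Str × Bool) => q.1.2 :=
      (Computable.snd.comp Computable.fst)
    have cw : Computable fun q : (Str × Str) × (Str × Bool) => q.2.1 :=
      (Computable.fst.comp Computable.snd)
    have cf : Computable fun q : (Str × Str) × (Str × Bool) => q.2.2 :=
      (Computable.snd.comp Computable.snd)
    have cy : Computable fun q : (Str × Str) × (Str × Bool) => q.1.1 :=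
      (Computable.fst.comp Computable.fst)
    have czw : Computable fun q : (Str × Str) × (Str × Bool) => q.1.2 ++ q.2.1 :=
      Primrec.list_append.to_comp.comp cz cw
    have cg : Computable fun q : (Str × Str) × (Str × Bool) => g (q.1.1.length + 1) :=
      hg.comp (Computable.succ.comp (Computable.list_length.comp cy))
    refine re_or (re_and (re_of_computable_eq cf (Computable.const true)) (re_and ?_ ?_))
      (re_and (re_of_computable_eq cf (Computable.const false))
        (re_and (re_of_computable_eq cw (Computable.const [])) ?_))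
    · exact re_comp (re_sext P) (cz.pair czw)
    · refine re_forall_lt (p := fun q j => conv F p j (q.1.2 ++ q.2.1)) ?_ cg
      exact conv_re F p Computable.snd (czw.comp Computable.fst)
    · exact re_comp (dead_re p) cz
  have hRt : ∀ a, ∃ b, R a b := by
    rintro ⟨y, z⟩
    by_cases hd : dead p z
    · exact ⟨([], false), Or.inr ⟨rfl, rfl, hd⟩⟩
    · obtain ⟨hal, hgd⟩ := not_dead hd
      obtain ⟨ρ, h1, h2⟩ := exists_conv hb hal hgd (g (y.length + 1))
      obtain ⟨w, rfl⟩ := h1.1
      exact ⟨(w, true), Or.inl ⟨rfl, h1, h2⟩⟩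
  obtain ⟨f, hfc, hf⟩ := exists_selector hR hRt
  -- the insertion function
  let r : Str → Str → Str := fun y z => if p.s.length ≤ y.length then (f (y, z)).1 else []
  have hr : Computable₂ r := by
    have h1 : Computable fun q : Str × Str => decide (p.s.length ≤ q.1.length) :=
      (Primrec.nat_le.comp (Primrec.const _) (Primrec.list_length.comp Primrec.fst)).decide.to_comp
    have h2 : Computable fun q : Str × Str => (f (q.1, q.2)).1 :=
      Computable.fst.comp (hfc.comp (Computable.fst.pair Computable.snd))
    refine (Computable.cond h1 h2 (Computable.const [])).of_eq fun q => ?_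
    by_cases h : p.s.length ≤ q.1.length <;> simp [r, h]
  obtain ⟨θ, w, hθc, hwc, hθ0, hθ, hw, hcol, hw0⟩ := exists_tree P r hr
  have hθlow : ∀ y : Str, y.length ≤ p.s.length → θ y = y := by
    intro y
    induction y using List.reverseRecOn with
    | nil => intro _; exact hθ0
    | append_singleton y b ih =>
      intro hl
      rw [List.length_append, List.length_singleton] at hl
      have h1 := ih (by omega)
      have h2 : w y = [] := hw0 y h1 (by simp [r, show ¬ p.s.length ≤ y.length by omega])
      rw [hθ, h1, h2, List.nil_append]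
  have hθs : θ p.s = p.s := hθlow _ le_rfl
  have hθmono : ∀ y y' : Str, y <+: y' → θ y <+: θ y' := by
    intro y y' hy
    obtain ⟨u, rfl⟩ := hy
    induction u using List.reverseRecOn with
    | nil => rw [List.append_nil]
    | append_singleton u b ih =>
      rw [← List.append_assoc, hθ]
      exact ih.trans (List.prefix_append _ _)
  have hθw : ∀ y y' : Str, y <+: y' → y.length < y'.length → θ y ++ w y <+: θ y' := by
    intro y y' hy hl
    obtain ⟨u, rfl⟩ := hy
    cases u with
    | nil => simp at hl
    | cons b u =>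
      have : y ++ [b] <+: y ++ b :: u := by simp
      refine List.IsPrefix.trans ?_ (hθmono _ _ this)
      rw [hθ, ← List.append_assoc]
      exact List.prefix_append _ _
  -- marks
  let D : Str → Prop := fun y => p.s.length ≤ y.length ∧ (f (y, θ y)).2 = false
  have hD : ComputablePred D := by
    refine ⟨fun y => inferInstanceAs (Decidable (_ ∧ _)), ?_⟩
    have h1 : Computable fun y : Str => decide (p.s.length ≤ y.length) :=
      (Primrec.nat_le.comp (Primrec.const _) Primrec.list_length).decide.to_comp
    have h2 : Computable fun y : Str => !(f (y, θ y)).2 :=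
      Primrec.not.to_comp.comp (Computable.snd.comp (hfc.comp (Computable.id.pair hθc)))
    refine (Primrec.and.to_comp.comp h1 h2).of_eq fun y => ?_
    by_cases h : p.s.length ≤ y.length <;> simp [D, h]
  let Bad' : Str → Prop := fun y => (∃ y', y' <+: y ∧ D y') ∨ p.Bad (θ y ++ w y)
  have htrue : REPred fun _ : Str => True :=
    re_of_primrec (PrimrecPred.of_eq (p := fun y : Str => y = y)
      (Primrec.eq.comp Primrec.id Primrec.id) fun y => by simp)
  have hB : REPred Bad' := by
    refine re_or ?_ (re_comp p.hBad (Primrec.list_append.to_comp.comp hθc hwc))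
    refine (re_exists_prefix (p := fun _ => True) htrue D
      hD).of_eq fun y => ?_
    simp
  have hup : ∀ y y', y <+: y' → Bad' y → Bad' y' := by
    rintro y y' hy (⟨x, h1, h2⟩ | h)
    · exact Or.inl ⟨x, h1.trans hy, h2⟩
    · refine Or.inr ?_
      rcases lt_or_eq_of_le hy.length_le with hl | hl
      · exact p.up _ _ ((hθw y y' hy hl).trans (List.prefix_append _ _)) h
      · rw [← hy.eq_of_length hl]
        exact h
  have hnode : ∀ y : Str, p.s.length ≤ y.length → (f (y, θ y)).2 = true →
      sext P (θ y) (θ y ++ w y) ∧ ∀ j < g (y.length + 1), conv F p j (θ y ++ w y) := by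
    intro y hl hfl
    rcases hf (y, θ y) with ⟨-, h1, h2⟩ | ⟨h0, -⟩
    · obtain ⟨k, hk⟩ := hw y
      have hr1 : r y (θ y) = (f (y, θ y)).1 := by simp [r, hl]
      rw [hk, hr1, ← List.append_assoc]
      refine ⟨sext_append_false h1 k, fun j hj => conv_mono F p j (List.prefix_append _ _) (h2 j hj)⟩
    · rw [hfl] at h0
      exact absurd h0 (by simp)
  have hs0 : sext P p.s (p.s ++ [false]) := sext_false p.s 1
  have hbitl : ∀ (z : Str) (b : Bool), legit P z → (b = true → ¬ P.E (P.t z.length)) →
      legit P (z ++ [b]) := by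
    intro z b hz hb' i hi
    rcases lt_trichotomy i z.length with hlt | rfl | hgt
    · rw [List.getElem?_append_left hlt] at hi
      exact hz i hi
    · rw [List.getElem?_append_right le_rfl] at hi
      simp only [Nat.sub_self, List.getElem?_cons_zero, Option.some.injEq] at hi
      exact hb' hi
    · rw [List.getElem?_append_right hgt.le] at hi
      rw [List.getElem?_eq_none (by simp only [List.length_singleton]; omega)] at hi
      simp at hi
  have hbits : ∀ (s z : Str) (b : Bool), sext P s z → (b = true → P.S (P.t z.length)) →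
      sext P s (z ++ [b]) := by
    intro s z b hz hb'
    refine ⟨hz.1.trans (List.prefix_append _ _), fun i hli hi => ?_⟩
    rcases lt_trichotomy i z.length with hlt | rfl | hgt
    · rw [List.getElem?_append_left hlt] at hi
      exact hz.2 i hli hi
    · rw [List.getElem?_append_right le_rfl] at hi
      simp only [Nat.sub_self, List.getElem?_cons_zero, Option.some.injEq] at hi
      exact hb' hi
    · rw [List.getElem?_append_right hgt.le] at hi
      rw [List.getElem?_eq_none (by simp only [List.length_singleton]; omega)] at hi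
      simp at hi
  have hlast : ∀ (z y : Str) (b : Bool), z ++ [b] <+: y → y[z.length]? = some b := by
    intro z y b h
    obtain ⟨u, rfl⟩ := h
    simp
  -- alive nodes
  have hal : ∀ y, p.s ++ [false] <+: y → legit P y → ¬ Bad' y →
      Alive p (θ y) ∧ Alive p (θ y ++ w y) ∧ sext P (θ y) (θ y ++ w y) := by
    intro y hy hleg hbad
    have hsy : p.s <+: y := (List.prefix_append _ _).trans hy
    have hfl : ∀ y', y' <+: y → p.s.length ≤ y'.length → (f (y', θ y')).2 = true := by
      intro y' h1 h2
      by_contra hne
      exact hbad (Or.inl ⟨y', h1, h2, by simpa using hne⟩)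
    have claim : ∀ u : Str, p.s ++ u <+: y → legit P (θ (p.s ++ u)) ∧ p.s <+: θ (p.s ++ u) := by
      intro u
      induction u using List.reverseRecOn with
      | nil => intro _; rw [List.append_nil, hθs]; exact ⟨p.hs, List.prefix_refl _⟩
      | append_singleton u b ih =>
        intro hu
        rw [← List.append_assoc] at hu ⊢
        obtain ⟨h1, h2⟩ := ih ((List.prefix_append _ _).trans hu)
        have h3 := hfl (p.s ++ u) ((List.prefix_append _ _).trans hu) (by simp)
        obtain ⟨h4, -⟩ := hnode (p.s ++ u) (by simp) h3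
        rw [hθ, ← List.append_assoc]
        refine ⟨hbitl _ _ (legit_of_sext h1 h4) fun hb' => ?_, h2.trans (h4.1.trans
          (List.prefix_append _ _))⟩
        rw [List.length_append, hcol]
        refine hleg _ ?_
        rw [hlast _ _ _ hu, hb']
    obtain ⟨u, rfl⟩ := hsy
    obtain ⟨h1, h2⟩ := claim u (List.prefix_refl _)
    obtain ⟨h3, -⟩ := hnode (p.s ++ u) (by simp) (hfl _ (List.prefix_refl _) (by simp))
    have h4 : ¬ p.Bad (θ (p.s ++ u) ++ w (p.s ++ u)) := fun h => hbad (Or.inr h)
    exact ⟨⟨h2, h1, fun h => h4 (p.up _ _ (List.prefix_append _ _) h)⟩,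
      ⟨h2.trans h3.1, legit_of_sext h1 h3, h4⟩, h3⟩
  have hgood : good P Bad' (p.s ++ [false]) := by
    intro y hy
    have hsy : sext P p.s y := sext_trans hs0 hy
    have claim : ∀ u : Str, p.s ++ u <+: y → sext P p.s (θ (p.s ++ u)) ∧
        sext P p.s (θ (p.s ++ u) ++ w (p.s ++ u)) ∧ (f (p.s ++ u, θ (p.s ++ u))).2 = true := by
      have aux : ∀ u : Str, sext P p.s (θ (p.s ++ u)) →
          sext P p.s (θ (p.s ++ u) ++ w (p.s ++ u)) ∧
            (f (p.s ++ u, θ (p.s ++ u))).2 = true := by
        intro u h1
        have h2 : (f (p.s ++ u, θ (p.s ++ u))).2 = true := by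
          rcases hf (p.s ++ u, θ (p.s ++ u)) with ⟨h0, -⟩ | ⟨-, -, h0⟩
          · exact h0
          · exact absurd h0 (not_dead_of_sext h1)
        exact ⟨sext_trans h1 (hnode _ (by simp) h2).1, h2⟩
      intro u
      induction u using List.reverseRecOn with
      | nil =>
        intro _
        have h1 : sext P p.s (θ (p.s ++ [])) := by rw [List.append_nil, hθs]; exact sext_refl _
        exact ⟨h1, aux [] h1⟩
      | append_singleton u b ih =>
        intro hu
        have hu' : p.s ++ u ++ [b] <+: y := by rw [List.append_assoc]; exact hu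
        obtain ⟨-, h2, -⟩ := ih ((List.prefix_append _ _).trans hu')
        have h1 : sext P p.s (θ (p.s ++ (u ++ [b]))) := by
          rw [← List.append_assoc, hθ, ← List.append_assoc]
          refine hbits _ _ _ h2 fun hb' => ?_
          rw [List.length_append, hcol]
          refine hsy.2 _ (by simp) ?_
          rw [hlast _ _ _ hu', hb']
        exact ⟨h1, aux _ h1⟩
    rintro (⟨y', h1, h2, h3⟩ | h)
    · obtain ⟨u, hu⟩ := List.prefix_of_prefix_length_le hsy.1 h1 h2
      rw [← hu] at h1 h3
      rw [(claim u h1).2.2] at h3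
      simp at h3
    · obtain ⟨u, hu⟩ := hsy.1
      rw [← hu] at h
      exact p.hg _ (claim u (by rw [hu])).2.1 h
  obtain ⟨q, hq, hqT, hqs, hqB⟩ := comp_cond p θ w hθc hθ hcol (p.s ++ [false]) Bad' hB hup
    (legit_of_sext p.hs hs0) hgood hal
  refine ⟨q, hq, Or.inr fun y hy j hj => ?_⟩
  obtain ⟨h1, h2, h3⟩ := hy
  rw [hqs] at h1
  rw [hqB] at h3
  rcases List.eq_nil_or_concat' y with rfl | ⟨y0, b, rfl⟩
  · exact absurd h1.length_le (by simp)
  have hl : p.s.length ≤ y0.length := by
    have := h1.length_le
    simp only [List.length_append, List.length_singleton] at this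
    omega
  have h4 : (f (y0, θ y0)).2 = true := by
    by_contra hne
    exact h3 (Or.inl ⟨y0, List.prefix_append _ _, hl, by simpa using hne⟩)
  rw [List.length_append, List.length_singleton] at hj
  have h5 := (hnode y0 hl h4).2 j hj
  rw [hqT, hθ, ← List.append_assoc]
  exact conv_mono F p j (List.prefix_append _ _) h5

end Cup
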