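import Pool.Agent.H59.Cup.Join

/-!
# Module Decode: the coded set cups every noncomputable c.e. set

`B = {x : (phi i x).Dom}` for some `i` (an r.e. set is the domain of a partial recursive function
`ℕ →. Unit`, hence of some `phi i`; `Nat.Partrec.Code.exists_code`, `Denumerable.ofNat_encode`).
The complement of `B` is not r.e., otherwise `B` is computable
(`ComputablePred.computable_iff_re_compl_re`). Then
`Halt n = false ↔ ∃ m x, A m = true ∧ P.t m = Nat.pair i (Nat.pair n x) ∧ B x = false`
(from right to left: if `phi n n` is defined then the colour is ill by `hE`, contradicting `hA`).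
Conclude with `tle_join_of_re`, where
`R σ τ n b := (b = true ∧ (phi n n).Dom) ∨ (b = false ∧ ∃ m x, σ[m]? = some true ∧
  P.t m = Nat.pair i (Nat.pair n x) ∧ τ[x]? = some false)`.
The r.e. predicate `(phi n n).Dom`: `Nat.Partrec.Code.eval_part` is partial recursive.
-/

namespace Cup

open Encodable OWR

variable {P : Par}

private theorem re_halt : REPred fun n : ℕ => (phi n n).Dom := by
  have h : Partrec fun n : ℕ => phi n n := by
    unfold phi
    exact Nat.Partrec.Code.eval_part.comp (Computable.ofNat Nat.Partrec.Code) Computable.id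
  exact h.dom_re

private theorem exists_index {B : ℕ → Bool} (hB : REPred fun x => B x = true) :
    ∃ i, ∀ x, (phi i x).Dom ↔ B x = true := by
  obtain ⟨c, hc⟩ := Nat.Partrec.Code.exists_code.1 hB
  refine ⟨encode c, fun x => ?_⟩
  have h1 : phi (encode c) = Nat.Partrec.Code.eval c := by
    unfold phi; rw [Denumerable.ofNat_encode]
  rw [h1, hc]
  simp [Part.assert]

private theorem pre_get {A : ℕ → Bool} {k m : ℕ} {b : Bool} :
    (pre A k)[m]? = some b ↔ m < k ∧ A m = b := by
  unfold pre
  rw [List.getElem?_map]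
  rcases lt_or_ge m k with h | h
  · rw [List.getElem?_range h]; simp [h]
  · rw [List.getElem?_eq_none (by simpa using h)]
    simp [not_lt.2 h]

theorem complete_of_codes
    (hE : ∀ i n x, (phi n n).Dom → ¬ (phi i x).Dom → P.E (Nat.pair i (Nat.pair n x)))
    {A B : ℕ → Bool} (hA : ∀ m, A m = true → ¬ P.E (P.t m))
    (hB : REPred fun x => B x = true) (hBc : ¬ Computable B)
    (hcode : ∀ i n, ¬ (phi n n).Dom → (¬ REPred fun x => ¬ (phi i x).Dom) →
      ∃ x m, ¬ (phi i x).Dom ∧ P.t m = Nat.pair i (Nat.pair n x) ∧ A m = true) :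
    Complete (join A B) := by
  obtain ⟨i, hi⟩ := exists_index hB
  have hnr : ¬ REPred fun x => ¬ (phi i x).Dom := by
    intro h
    refine hBc ?_
    have h1 : REPred fun x => ¬ (B x = true) := h.of_eq fun x => by rw [hi]
    have h2 : ComputablePred fun x => B x = true :=
      ComputablePred.computable_iff_re_compl_re.2 ⟨hB, h1⟩
    obtain ⟨f, hf, hf'⟩ := ComputablePred.computable_iff.1 h2
    refine hf.of_eq fun x => ?_
    have := congrFun hf' x
    rw [Bool.eq_iff_iff, ← this]
  have hHalt : ∀ n, Halt n = true ↔ (phi n n).Dom := fun n => by simp [Halt]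
  have hHalt' : ∀ n, Halt n = false ↔ ¬ (phi n n).Dom := fun n => by simp [Halt]
  refine tle_join_of_re (fun σ τ n b => (b = true ∧ (phi n n).Dom) ∨
    (b = false ∧ ∃ q : ℕ × ℕ, σ[q.1]? = some true ∧ P.t q.1 = Nat.pair i (Nat.pair n q.2) ∧
      τ[q.2]? = some false)) ?_ ?_
  · have b1 : Primrec fun p : Str × Str × ℕ × Bool => p.2.2.2 :=
      Primrec.snd.comp (Primrec.snd.comp Primrec.snd)
    have n1 : Primrec fun p : Str × Str × ℕ × Bool => p.2.2.1 :=
      Primrec.fst.comp (Primrec.snd.comp Primrec.snd)
    have s1 : Primrec fun p : Str × Str × ℕ × Bool => p.1 := Primrec.fst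
    have t1 : Primrec fun p : Str × Str × ℕ × Bool => p.2.1 := Primrec.fst.comp Primrec.snd
    refine re_or (re_and (re_of_primrec (Primrec.eq.comp b1 (Primrec.const true)))
      (re_comp re_halt n1.to_comp))
      (re_and (re_of_primrec (Primrec.eq.comp b1 (Primrec.const false))) (re_exists ?_))
    refine re_and (re_of_primrec ?_) (re_and ?_ (re_of_primrec ?_))
    · exact Primrec.eq.comp (Primrec.list_getElem?.comp (s1.comp Primrec.fst)
        (Primrec.fst.comp Primrec.snd)) (Primrec.const (some true))
    · have e1 : Computable fun u : (Str × Str × ℕ × Bool) × (ℕ × ℕ) => P.t u.2.1 :=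
        P.ht.comp (Computable.fst.comp Computable.snd)
      have e2 : Primrec fun u : (Str × Str × ℕ × Bool) × (ℕ × ℕ) =>
          Nat.pair i (Nat.pair u.1.2.2.1 u.2.2) :=
        Primrec₂.natPair.comp (Primrec.const i) (Primrec₂.natPair.comp (n1.comp Primrec.fst)
          (Primrec.snd.comp Primrec.snd))
      have e3 : ComputablePred fun u : (Str × Str × ℕ × Bool) × (ℕ × ℕ) =>
          P.t u.2.1 = Nat.pair i (Nat.pair u.1.2.2.1 u.2.2) :=
        ⟨fun _ => inferInstance, (Primrec.eq.decide.to_comp).comp e1 e2.to_comp⟩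
      exact e3.to_re
    · exact Primrec.eq.comp (Primrec.list_getElem?.comp (t1.comp Primrec.fst)
        (Primrec.snd.comp Primrec.snd)) (Primrec.const (some false))
  · intro n b
    cases b with
    | true =>
      rw [hHalt]
      simp
    | false =>
      rw [hHalt']
      constructor
      · intro hn
        obtain ⟨x, m, h1, h2, h3⟩ := hcode i n hn hnr
        refine ⟨m + 1, x + 1, Or.inr ⟨rfl, (m, x), pre_get.2 ⟨Nat.lt_succ_self _, h3⟩, h2,
          pre_get.2 ⟨Nat.lt_succ_self _, ?_⟩⟩⟩
        rw [hi] at h1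
        simpa using h1
      · rintro ⟨k, l, ⟨h, -⟩ | ⟨-, q, h1, h2, h3⟩⟩
        · exact absurd h (by decide)
        · intro hn
          have h4 := (pre_get.1 h1).2
          have h5 := (pre_get.1 h3).2
          refine hA q.1 h4 ?_
          rw [h2]
          refine hE i n q.2 hn ?_
          rw [hi, h5]
          decide

end Cup
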