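import Pool.Agent.H77.OW.RecIn

/-!
# Project CUP: definitions

Sets of natural numbers are `ℕ → Bool`; strings are `List Bool`; `OWR.pre X n` is the initial
segment of length `n`; `OWR.chi A` is the characteristic function of `A` as an oracle.
`TLe C A` (`C` is Turing reducible to `A`) is Mathlib's `ComputableIn {chi A} C`.
-/

namespace Cup

open Encodable OWR

abbrev Str := List Bool

/-- `C ≤_T A`. -/
def TLe (C A : ℕ → Bool) : Prop := ComputableIn {chi A} C

/-- The join `A ⊕ B`. -/
def join (A B : ℕ → Bool) : ℕ → Bool := fun n => if n % 2 = 0 then A (n / 2) else B (n / 2)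

/-- The `e`-th partial recursive function on `ℕ`. -/
def phi (e : ℕ) : ℕ →. ℕ := Nat.Partrec.Code.eval (Denumerable.ofNat Nat.Partrec.Code e)

open Classical in
/-- The halting problem `{e : phi e e is defined}`. -/
noncomputable def Halt : ℕ → Bool := fun e => decide (phi e e).Dom

/-- `X` is Turing complete: it computes the halting problem. -/
def Complete (X : ℕ → Bool) : Prop := TLe Halt X

/-- `A` has minimal Turing degree. -/
def MinimalDeg (A : ℕ → Bool) : Prop :=
  ¬ Computable A ∧ ∀ C : ℕ → Bool, TLe C A → Computable C ∨ TLe A C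

/-- `A` is computably traceable, for every computable order function `h`. -/
def CompTraceable (A : ℕ → Bool) : Prop :=
  ∀ h : ℕ → ℕ, Computable h → Monotone h → (∀ k, ∃ n, k ≤ h n) → (∀ n, 1 ≤ h n) →
    ∀ f : ℕ → ℕ, ComputableIn {chi A} f →
      ∃ T : ℕ → List ℕ, Computable T ∧ ∀ n, (T n).length ≤ h n ∧ f n ∈ T n

/-! ## The forcing -/

/-- Parameters: a computable colouring `t` of the positions in which every colour occurs
infinitely often, a c.e. set `S` of safe colours and a disjoint c.e. set `E` of ill colours. -/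
structure Par where
  t : ℕ → ℕ
  ht : Computable t
  inf : ∀ c N, ∃ m, N ≤ m ∧ t m = c
  S : ℕ → Prop
  E : ℕ → Prop
  hS : REPred S
  hE : REPred E
  disj : ∀ c, ¬ (S c ∧ E c)

variable (P : Par)

/-- No one stands at a position of ill colour. -/
def legit (y : Str) : Prop := ∀ i, y[i]? = some true → ¬ P.E (P.t i)

/-- `y` is a safe extension of `s`: all new ones stand at positions of safe colour. -/
def sext (s y : Str) : Prop := s <+: y ∧ ∀ i, s.length ≤ i → y[i]? = some true → P.S (P.t i)

/-- No safe extension of `s` is bad. -/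
def good (Bad : Str → Prop) (s : Str) : Prop := ∀ y, sext P s y → ¬ Bad y

/-- Forcing conditions: a computable tree map `T`, a stem `s`, a c.e. set `Bad` of strings. -/
structure Cond where
  T : Str → Str
  s : Str
  Bad : Str → Prop
  hT : Computable T
  hBad : REPred Bad
  up : ∀ y y', y <+: y' → Bad y → Bad y'
  hs : legit P s
  hg : good P Bad s
  hTs : legit P (T s)
  step : ∀ y, ∃ ρ : Str, (∀ b, T (y ++ [b]) = T y ++ (ρ ++ [b])) ∧
    P.t ((T y).length + ρ.length) = P.t y.length ∧
    (s <+: y → legit P y → ¬ Bad y → ∀ i, ρ[i]? = some true → P.S (P.t ((T y).length + i)))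

variable {P}

/-- The inputs `y` which may still lead to the generic set. -/
def Alive (p : Cond P) (y : Str) : Prop := p.s <+: y ∧ legit P y ∧ ¬ p.Bad y

/-- `q` extends `p`. -/
def Ext (q p : Cond P) : Prop :=
  ∃ θ : Str → Str, (∀ y, q.T y = p.T (θ y)) ∧ (∀ y y', y <+: y' → θ y <+: θ y') ∧
    (∀ y, y.length ≤ (θ y).length) ∧ ∀ y, Alive q y → Alive p (θ y)

/-- The set `A` is a limit of alive nodes of `p`. -/
def Through (p : Cond P) (A : ℕ → Bool) : Prop :=
  ∀ j, ∃ y, j ≤ y.length ∧ Alive p y ∧ p.T y = pre A (p.T y).length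

/-- An r.e. monotone functional. -/
structure Func where
  R : Str → ℕ → ℕ → Prop
  re : REPred (fun p : Str × ℕ × ℕ => R p.1 p.2.1 p.2.2)
  mono : ∀ ρ ρ' x y, ρ <+: ρ' → R ρ x y → R ρ' x y

end Cup
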