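import Pool.Agent.H59.Cup.Final

/-!
# Project CUP: non-cupping against a countable family of incomplete sets
-/

namespace Cup

open Encodable OWR

theorem part_two_family (S : Set (ℕ → Bool)) (hSc : S.Countable) (hSi : ∀ B ∈ S, ¬ Complete B) :
    ∃ A : ℕ → Bool, MinimalDeg A ∧ CompTraceable A ∧ ∀ B ∈ S, ¬ Complete (join A B) := by
  classical
  obtain ⟨P, hS⟩ := exists_parAll
  obtain ⟨p0⟩ := exists_cond P
  have : Countable {B : ℕ → Bool // B ∈ S} := hSc.to_subtype
  let ι : Type := (Func × {g : ℕ → ℕ // Computable g}) ⊕ (Func ⊕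
    ((Func × {B : ℕ → Bool // B ∈ S}) ⊕ {g : ℕ → Bool // Computable g}))
  let Rq : ι → Cond P → Prop := fun i q => match i with
    | Sum.inl (F, g) => DecR F g.1 q
    | Sum.inr (Sum.inl F) => MinR F q
    | Sum.inr (Sum.inr (Sum.inl (F, B))) => ∀ A, Through q A →
      ¬ ∀ x y, (∃ k, F.R (pre (join A B.1) k) x y) ↔ y = (Halt x).toNat
    | Sum.inr (Sum.inr (Sum.inr g)) => ∀ A, Through q A → A ≠ g.1
  have hd : ∀ i p, ∃ q, Ext q p ∧ Rq i q := by
    rintro (⟨F, g⟩ | F | ⟨F, B⟩ | g) p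
    · exact dec_dense F g.2 p
    · exact min_dense F p
    · exact noncup_dense hS B.1 (hSi B.1 B.2) F p
    · exact noncomp_dense hS g.1 p
  obtain ⟨A, hA0, hA⟩ := exists_generic Rq hd p0
  refine ⟨A, minimal_of_through (fun F => hA (Sum.inr (Sum.inl F))) ?_,
    trace_of_through (fun F g => hA (Sum.inl (F, g))), ?_⟩
  · intro hAc
    obtain ⟨q, hq, hqA⟩ := hA (Sum.inr (Sum.inr (Sum.inr ⟨A, hAc⟩)))
    exact hq A hqA rfl
  · intro B hB hcomp
    obtain ⟨F, hF⟩ := func_of_tle hcomp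
    obtain ⟨q, hq, hqA⟩ := hA (Sum.inr (Sum.inr (Sum.inl (F, ⟨B, hB⟩))))
    exact hq A hqA hF

/-- One `A` for all K-trivial sets and all members of a countable family of incomplete sets. -/
theorem part_two_both (S : Set (ℕ → Bool)) (hSc : S.Countable) (hSi : ∀ B ∈ S, ¬ Complete B) :
    ∃ A : ℕ → Bool, MinimalDeg A ∧ CompTraceable A ∧ (∀ B ∈ S, ¬ Complete (join A B)) ∧
      ∀ B : ℕ → Bool, KTrivial B → ¬ Complete (join A B) := by
  obtain ⟨A, h1, h2, h3⟩ := part_two_family (S ∪ {B | KTrivial B}) (hSc.union countable_ktrivial)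
    (by
      rintro B (hB | hB)
      · exact hSi B hB
      · exact not_complete_of_ktrivial hB)
  exact ⟨A, h1, h2, fun B hB => h3 B (Or.inl hB), fun B hB => h3 B (Or.inr hB)⟩

end Cup
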