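import Pool.Agent.H59.Cup.Turing
import Pool.Agent.H59.Cup.ReUtil
import Pool.Agent.H77.OW.Main

/-!
# Module KInc: K-trivial sets are incomplete

`OWR.lk_of_ktrivial` : a K-trivial set `A` is low for K: there is `S : KSys` with `LK S A`.
Suppose `Halt ≤_T A`. For each `n` there is `x` such that no `s` has `S.le s x (2 * n) = true`
(otherwise `S.kraft` with `F = range (4 ^ n + 1)` fails). The predicate
`∃ s, S.le s x (2 * n) = true` of `(n, x)` is r.e., hence decidable relative to `Halt`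
(many-one reduction: there is a computable `g` with `(phi (g n x) (g n x)).Dom ↔ ∃ s, ...`, by the
s-m-n theorem `Nat.Partrec.Code.exists_code`, `Nat.Partrec.Code.curry`), hence relative to `A`
(`func_of_tle`). So the relation `f n = x`, `f n :=` least `x` with `¬ ∃ s, S.le s x (2 * n)`, is
r.e. in `A`: there is an r.e. `W : List Bool → ℕ → ℕ → Prop` with
`(∃ k, W (pre A k) (n + 1) x) ↔ x = f n` and no requests `(0, x)`; the total weight is at most
`∑ 2^{-n-1} ≤ 1`. `LK` gives `C` with `∃ s, S.le s (f n) (n + 1 + C) = true` for all `n`; take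
`n = C + 1` and use `S.mono_r` to contradict the choice of `f n`.
-/

namespace Cup

open Encodable OWR

/-- Many-one reduction of an r.e. predicate of pairs to the halting problem. -/
private theorem kinc_smn {Q : ℕ → ℕ → Prop} (hQ : REPred fun p : ℕ × ℕ => Q p.1 p.2) :
    ∃ g : ℕ → ℕ → ℕ, Computable (fun p : ℕ × ℕ => g p.1 p.2) ∧
      ∀ n x z, (phi (g n x) z).Dom ↔ Q n x := by
  -- the partial function
  have h1 : Partrec fun m : ℕ => (Part.assert (Q m.unpair.1.unpair.1 m.unpair.1.unpair.2)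
      fun _ => Part.some ()).map fun _ => (0 : ℕ) := by
    have h0 : Computable fun m : ℕ => (m.unpair.1.unpair.1, m.unpair.1.unpair.2) := by
      have h00 : Primrec fun m : ℕ => m.unpair.1.unpair :=
        Primrec.unpair.comp (Primrec.fst.comp Primrec.unpair)
      exact ((Primrec.fst.comp h00).pair (Primrec.snd.comp h00)).to_comp
    exact (Partrec.comp hQ h0).map (Computable.const 0).to₂
  obtain ⟨c, hc⟩ := Nat.Partrec.Code.exists_code.1 (Partrec.nat_iff.1 h1)
  refine ⟨fun n x => encode (Nat.Partrec.Code.curry c (Nat.pair n x)), ?_, fun n x z => ?_⟩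
  · exact Computable.encode.comp ((Nat.Partrec.Code.primrec₂_curry.comp (Primrec.const c)
      (Primrec₂.natPair.comp Primrec.fst Primrec.snd)).to_comp)
  · unfold phi
    rw [Denumerable.ofNat_encode, Nat.Partrec.Code.eval_curry, hc]
    simp [Part.assert]

private theorem kinc_sum (F : Finset (ℕ × ℕ)) (f : ℕ → ℕ)
    (hF : ∀ p ∈ F, ∃ n, p.1 = n + 1 ∧ p.2 = f n) : ∑ p ∈ F, (2 : ℝ)⁻¹ ^ p.1 ≤ 1 := by
  have hinj : Set.InjOn Prod.fst (F : Set (ℕ × ℕ)) := by
    rintro ⟨a, b⟩ ha ⟨a', b'⟩ ha' (h : a = a')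
    obtain ⟨n, h1, h2⟩ := hF _ ha
    obtain ⟨m, h3, h4⟩ := hF _ ha'
    simp only at h1 h2 h3 h4
    have : n = m := by omega
    rw [h, h2, h4, this]
  have h1 : ∑ p ∈ F, (2 : ℝ)⁻¹ ^ p.1 = ∑ r ∈ F.image Prod.fst, (2 : ℝ)⁻¹ ^ r :=
    (Finset.sum_image hinj).symm
  rw [h1]
  obtain ⟨N, hN⟩ : ∃ N, ∀ r ∈ F.image Prod.fst, r < N + 1 :=
    ⟨(F.image Prod.fst).sup id, fun r hr => Nat.lt_succ_of_le (Finset.le_sup (f := id) hr)⟩
  have h2 : F.image Prod.fst ⊆ (Finset.range N).image Nat.succ := by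
    intro r hr
    have hr1 : 1 ≤ r := by
      obtain ⟨p, hp, rfl⟩ := Finset.mem_image.1 hr
      obtain ⟨n, h1, -⟩ := hF _ hp
      omega
    have := hN r hr
    exact Finset.mem_image.2 ⟨r - 1, Finset.mem_range.2 (by omega), by omega⟩
  refine (Finset.sum_le_sum_of_subset_of_nonneg h2 fun _ _ _ => by positivity).trans ?_
  rw [Finset.sum_image (by intro a _ b _ h; exact Nat.succ_injective h)]
  have h3 : ∀ N : ℕ, ∑ r ∈ Finset.range N, (2 : ℝ)⁻¹ ^ (Nat.succ r) = 1 - (2 : ℝ)⁻¹ ^ N := by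
    intro N
    induction N with
    | zero => simp
    | succ N ih => rw [Finset.sum_range_succ, ih, Nat.succ_eq_add_one, pow_succ]; ring
  rw [h3]
  have : (0 : ℝ) ≤ (2 : ℝ)⁻¹ ^ N := by positivity
  linarith

private theorem kinc_exists (S : KSys) (n : ℕ) : ∃ x, ¬ ∃ s, S.le s x (2 * n) = true := by
  by_contra hcon
  push Not at hcon
  have h := S.kraft (Finset.range (4 ^ n + 1)) (fun _ => 2 * n) (fun x _ => by
    obtain ⟨s, hs⟩ := hcon x
    exact ⟨s, hs⟩)
  rw [Finset.sum_const, Finset.card_range, nsmul_eq_mul, pow_mul] at h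
  push_cast at h
  have h1 : ((2 : ℝ)⁻¹ ^ 2) ^ n * 4 ^ n = 1 := by
    rw [← mul_pow]
    norm_num
  have h2 : (0 : ℝ) < ((2 : ℝ)⁻¹ ^ 2) ^ n := by positivity
  nlinarith

theorem not_complete_of_ktrivial {A : ℕ → Bool} (hA : KTrivial A) : ¬ Complete A := by
  intro hC
  obtain ⟨S, hS⟩ := lk_of_ktrivial A hA
  obtain ⟨F, hF⟩ := func_of_tle hC
  -- the r.e. predicate
  have hQ : REPred fun p : ℕ × ℕ => ∃ s, S.le s p.2 (2 * p.1) = true := by
    refine re_of_prim_nat (f := fun (p : ℕ × ℕ) s => S.le s p.2 (2 * p.1)) ?_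
    exact S.prim.comp (Primrec.snd.pair ((Primrec.snd.comp Primrec.fst).pair
      (Primrec.nat_mul.comp (Primrec.const 2) (Primrec.fst.comp Primrec.fst))))
  obtain ⟨g, hg, hgQ⟩ := kinc_smn (Q := fun n x => ∃ s, S.le s x (2 * n) = true) hQ
  have hH0 : ∀ n x, (∃ k, F.R (pre A k) (g n x) 0) ↔ ¬ ∃ s, S.le s x (2 * n) = true := by
    intro n x
    rw [hF, ← hgQ n x (g n x)]
    by_cases h : (phi (g n x) (g n x)).Dom <;> simp [Halt, h]
  have hH1 : ∀ n x, (∃ k, F.R (pre A k) (g n x) 1) ↔ ∃ s, S.le s x (2 * n) = true := by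
    intro n x
    rw [hF, ← hgQ n x (g n x)]
    by_cases h : (phi (g n x) (g n x)).Dom <;> simp [Halt, h]
  -- the requests
  obtain ⟨W, hW⟩ : ∃ W : List Bool → ℕ → ℕ → Prop, W = fun ρ r x =>
      ∃ n, r = n + 1 ∧ (F.R ρ (g n x) 0 ∧ ∀ y ∈ List.range x, F.R ρ (g n y) 1) := ⟨_, rfl⟩
  have hWre : REPred (fun p : List Bool × ℕ × ℕ => W p.1 p.2.1 p.2.2) := by
    rw [hW]
    refine re_exists (p := fun (p : List Bool × ℕ × ℕ) n => p.2.1 = n + 1 ∧
      (F.R p.1 (g n p.2.2) 0 ∧ ∀ y ∈ List.range p.2.2, F.R p.1 (g n y) 1)) ?_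
    refine re_and (re_of_primrec ?_) (re_and ?_ ?_)
    · exact Primrec.eq.comp (Primrec.fst.comp (Primrec.snd.comp Primrec.fst))
        (Primrec.succ.comp Primrec.snd)
    · have h1 : Computable fun q : (List Bool × ℕ × ℕ) × ℕ => (q.2, q.1.2.2) :=
        (Primrec.snd.pair (Primrec.snd.comp (Primrec.snd.comp Primrec.fst))).to_comp
      have h2 : Computable fun q : (List Bool × ℕ × ℕ) × ℕ => g q.2 q.1.2.2 := hg.comp h1
      have h3 : Computable fun q : (List Bool × ℕ × ℕ) × ℕ => (q.1.1, g q.2 q.1.2.2, 0) :=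
        (Computable.fst.comp Computable.fst).pair (h2.pair (Computable.const 0))
      have h4 := re_comp F.re h3
      exact h4
    · refine re_forall_mem (β := ℕ) (p := fun (q : (List Bool × ℕ × ℕ) × ℕ) y =>
        F.R q.1.1 (g q.2 y) 1) ?_ (l := fun q : (List Bool × ℕ × ℕ) × ℕ => List.range q.1.2.2) ?_
      · have h1 : Computable fun q : ((List Bool × ℕ × ℕ) × ℕ) × ℕ => (q.1.2, q.2) :=
          ((Primrec.snd.comp Primrec.fst).pair Primrec.snd).to_comp
        have h2 : Computable fun q : ((List Bool × ℕ × ℕ) × ℕ) × ℕ => g q.1.2 q.2 := hg.comp h1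
        have h3 : Computable fun q : ((List Bool × ℕ × ℕ) × ℕ) × ℕ =>
            (q.1.1.1, g q.1.2 q.2, 1) :=
          (Computable.fst.comp (Computable.fst.comp Computable.fst)).pair
            (h2.pair (Computable.const 1))
        have h4 := re_comp F.re h3
        exact h4
      · exact Primrec.list_range.comp (Primrec.snd.comp (Primrec.snd.comp Primrec.fst))
  -- the least number
  classical
  have hex : ∀ n, ∃ x, ¬ ∃ s, S.le s x (2 * n) = true := kinc_exists S
  have hWf : ∀ k r x, W (pre A k) r x → ∃ n, r = n + 1 ∧ x = Nat.find (hex n) := by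
    intro k r x h
    rw [hW] at h
    obtain ⟨n, hn, h1, h2⟩ := h
    refine ⟨n, hn, ?_⟩
    refine ((Nat.find_eq_iff (hex n)).2 ⟨(hH0 n x).1 ⟨k, h1⟩, fun y hy => ?_⟩).symm
    exact not_not.2 ((hH1 n y).1 ⟨k, h2 y (List.mem_range.2 hy)⟩)
  have hfW : ∀ n, ∃ k, W (pre A k) (n + 1) (Nat.find (hex n)) := by
    intro n
    obtain ⟨k0, hk0⟩ := (hH0 n (Nat.find (hex n))).2 (Nat.find_spec (hex n))
    have h1 : ∀ m, m ≤ Nat.find (hex n) → ∃ k, ∀ y ∈ List.range m, F.R (pre A k) (g n y) 1 := by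
      intro m
      induction m with
      | zero => intro _; exact ⟨0, fun y hy => by simp at hy⟩
      | succ m ih =>
        intro hm
        obtain ⟨k, hk⟩ := ih (by omega)
        obtain ⟨l, hl⟩ := (hH1 n m).2 (not_not.1 (Nat.find_min (hex n) (by omega)))
        refine ⟨max k l, fun y hy => ?_⟩
        rcases Nat.lt_succ_iff_lt_or_eq.1 (List.mem_range.1 hy) with h | rfl
        · exact F.mono _ _ _ _ (pre_isPre A (le_max_left _ _)) (hk y (List.mem_range.2 h))
        · exact F.mono _ _ _ _ (pre_isPre A (le_max_right _ _)) hl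
    obtain ⟨k, hk⟩ := h1 _ le_rfl
    refine ⟨max k0 k, ?_⟩
    rw [hW]
    exact ⟨n, rfl, F.mono _ _ _ _ (pre_isPre A (le_max_left _ _)) hk0,
      fun y hy => F.mono _ _ _ _ (pre_isPre A (le_max_right _ _)) (hk y hy)⟩
  obtain ⟨C, hCW⟩ := hS W hWre (fun G hG => kinc_sum G (fun n => Nat.find (hex n)) fun p hp => by
    obtain ⟨k, hk⟩ := hG p hp
    exact hWf k _ _ hk)
  obtain ⟨k, hk⟩ := hfW (C + 1)
  obtain ⟨s, hs⟩ := hCW k _ _ hk
  refine Nat.find_spec (hex (C + 1)) ⟨s, ?_⟩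
  have h2C : C + 1 + 1 + C = 2 * (C + 1) := by ring
  rw [h2C] at hs
  exact hs

end Cup
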