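import Pool.Agent.H77.OW.Basic

/-!
# Module KTE: a noncomputable c.e. K-trivial set

`S : KSys` is the staged complexity (`S.le s x r = true` means `K_s(x) ≤ r`).
Let `K s n` be the least `r ≤ s` with `S.le s n r = true` (no value if there is none), and
`cost x s := ∑ over n with x < n ≤ s and K s n defined, of 2^{-K s n}` (a rational; computable;
multiply by `2 ^ s` to get a natural number). `cost` is nondecreasing in `s`, and by `S.kraft` all
finite sums `∑ 2^{-K(n)}` are at most `1`, so the tails are small: for each `i` there is `x₀` with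
`cost x s ≤ 2^{-i-1}` for all `x ≥ x₀` and all `s`.

Let `W e s x := (evaln s (ofNat Code e) x).isSome`. The requirement `i` acts at the first stage `s` at
which there is `x ≤ s` with `2 * i ≤ x`, `W i s x`, `cost x s ≤ 2^{-i-1}`, with the least such `x =: x_i`
(at stage `s_i`). `B` is the set of all `x_i` (c.e.: `∃ i s`, a decidable relation).

* Not computable: otherwise the complement of `B` is r.e., say it is `W i`. It is infinite, because
  `B ∩ [0, 2 k)` has at most `k` elements (`x_i ≥ 2 i`). So there is `x ∈ W i` with `2 i ≤ x`, `x ≥ x₀`,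
  and requirement `i` acts, with `x_i ∈ W i ∩ B`.
* K-trivial: let `B_s = {x_i : s_i ≤ s}`. The request set
  `P r' y := ∃ s n r, n ≤ s ∧ S.le s n r ∧ y = encode (pre B_s n) ∧ r' = r + 2`
  is r.e., and its total weight is at most `1`: for each `n` and `r` (`r ≥ K(n)`) the strings
  `pre B_s n`, `s ≥ n` with `S.le s n r`, form a chain whose number of members is at most
  `1 + #{i : x_i < n ≤ s_i, S.le s_i n r ... }`; the sum of `2^{-r-2}` over all `(n, r)` with
  `r ≥ K(n)` is at most `1/2`, and the sum over the changes is at most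
  `∑_i ∑_{x_i < n ≤ s_i} 2 · 2^{-K s_i n - 2} ≤ ∑_i cost x_i s_i / 2 ≤ 1/2`
  (a change at stage `s_i` of the string belonging to `(n, r)` which had been requested before
  stage `s_i` has `n < s_i` and `S.le s_i n r`). Any other organisation of this estimate is fine
  (for instance new requests only when `s` is the first stage at which `(n, r)` appears, or `s = s_i`).
  Then `S.univ` gives the constant.
-/

set_option autoImplicit false

namespace Cup

open Encodable OWR

/-! ### Primitive recursive ingredients -/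

/-- Bounded existential quantification. -/
def KTE_bex (g : ℕ → Bool) (k : ℕ) : Bool := Nat.rec false (fun j b => b || g j) k

private theorem KTE_bex_iff (g : ℕ → Bool) (k : ℕ) :
    KTE_bex g k = true ↔ ∃ j < k, g j = true := by
  induction k with
  | zero => simp [KTE_bex]
  | succ k ih =>
    have h1 : KTE_bex g (k + 1) = (KTE_bex g k || g k) := rfl
    rw [h1, Bool.or_eq_true, ih]
    constructor
    · rintro (⟨j, hj, h⟩ | h)
      · exact ⟨j, by omega, h⟩
      · exact ⟨k, by omega, h⟩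
    · rintro ⟨j, hj, h⟩
      rcases Nat.lt_succ_iff_lt_or_eq.1 hj with h2 | h2
      · exact Or.inl ⟨j, h2, h⟩
      · subst h2
        exact Or.inr h

private theorem KTE_bex_prim {α : Type*} [Primcodable α] {g : α → ℕ → Bool} {f : α → ℕ}
    (hg : Primrec₂ g) (hf : Primrec f) : Primrec fun a => KTE_bex (g a) (f a) := by
  unfold KTE_bex
  refine Primrec.nat_rec' (h := fun a (q : ℕ × Bool) => q.2 || g a q.1) hf
    (Primrec.const false) ?_
  exact Primrec.or.comp (Primrec.snd.comp Primrec.snd)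
    (hg.comp Primrec.fst (Primrec.fst.comp Primrec.snd))

variable (S : KSys)

/-- `K_t(n) ≤ r` for the code `m` of `(n, r)`. -/
def KTE_ok (t m : ℕ) : Bool := S.le t m.unpair.1 m.unpair.2

private theorem KTE_ok_prim : Primrec₂ (KTE_ok S) := by
  have h1 : Primrec fun p : ℕ × ℕ => (p.1, p.2.unpair.1, p.2.unpair.2) :=
    Primrec.fst.pair ((Primrec.fst.comp (Primrec.unpair.comp Primrec.snd)).pair
      (Primrec.snd.comp (Primrec.unpair.comp Primrec.snd)))
  exact S.prim.comp h1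

/-- The contribution of `m` to the cost of `x` at the stage `t`, multiplied by `2 ^ t`. -/
def KTE_tm (x t m : ℕ) : ℕ :=
  bif decide (x < m.unpair.1) && KTE_ok S t m then 2 ^ (t - m.unpair.2) else 0

/-- The cost of `x` at the stage `t`, multiplied by `2 ^ t`. -/
def KTE_N (x t : ℕ) : ℕ := Nat.rec 0 (fun j a => a + KTE_tm S x t j) t

private theorem KTE_pow : Primrec₂ ((· ^ ·) : ℕ → ℕ → ℕ) :=
  Primrec₂.unpaired'.1 Nat.Primrec.pow

private theorem KTE_tm_prim : Primrec fun q : (ℕ × ℕ) × ℕ => KTE_tm S q.1.1 q.1.2 q.2 := by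
  have h1 : Primrec fun q : (ℕ × ℕ) × ℕ => decide (q.1.1 < q.2.unpair.1) :=
    Primrec.nat_lt.decide.comp (Primrec.fst.comp Primrec.fst)
      (Primrec.fst.comp (Primrec.unpair.comp Primrec.snd))
  have h2 : Primrec fun q : (ℕ × ℕ) × ℕ => KTE_ok S q.1.2 q.2 :=
    (KTE_ok_prim S).comp (Primrec.snd.comp Primrec.fst) Primrec.snd
  have h3 : Primrec fun q : (ℕ × ℕ) × ℕ => 2 ^ (q.1.2 - q.2.unpair.2) :=
    KTE_pow.comp (Primrec.const 2) (Primrec.nat_sub.comp (Primrec.snd.comp Primrec.fst)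
      (Primrec.snd.comp (Primrec.unpair.comp Primrec.snd)))
  exact Primrec.cond (Primrec.and.comp h1 h2) h3 (Primrec.const 0)

private theorem KTE_N_prim : Primrec₂ (KTE_N S) := by
  unfold KTE_N
  refine Primrec.nat_rec' (α := ℕ × ℕ) (f := fun p => p.2) (g := fun _ => 0)
    (h := fun p (q : ℕ × ℕ) => q.2 + KTE_tm S p.1 p.2 q.1) Primrec.snd (Primrec.const 0) ?_
  refine Primrec.nat_add.comp (Primrec.snd.comp Primrec.snd) ?_
  exact (KTE_tm_prim S).comp (Primrec.fst.pair (Primrec.fst.comp Primrec.snd))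

/-- The requirement `i` may act at the stage `t` with `x = t.unpair.1`. -/
def KTE_A (i t : ℕ) : Bool :=
  decide (2 * i ≤ t.unpair.1) &&
    ((Nat.Partrec.Code.evaln t (Denumerable.ofNat Nat.Partrec.Code i) t.unpair.1).isSome &&
      decide (KTE_N S t.unpair.1 t * 2 ^ i ≤ 2 ^ t))

private theorem KTE_A_prim : Primrec₂ (KTE_A S) := by
  have hx : Primrec fun p : ℕ × ℕ => p.2.unpair.1 :=
    Primrec.fst.comp (Primrec.unpair.comp Primrec.snd)
  have h1 : Primrec fun p : ℕ × ℕ => decide (2 * p.1 ≤ p.2.unpair.1) :=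
    Primrec.nat_le.decide.comp (Primrec.nat_mul.comp (Primrec.const 2) Primrec.fst) hx
  have h2 : Primrec fun p : ℕ × ℕ => (Nat.Partrec.Code.evaln p.2
      (Denumerable.ofNat Nat.Partrec.Code p.1) p.2.unpair.1).isSome :=
    Primrec.option_isSome.comp (Nat.Partrec.Code.primrec_evaln.comp
      ((Primrec.snd.pair ((Primrec.ofNat Nat.Partrec.Code).comp Primrec.fst)).pair hx))
  have h3 : Primrec fun p : ℕ × ℕ => decide (KTE_N S p.2.unpair.1 p.2 * 2 ^ p.1 ≤ 2 ^ p.2) :=
    Primrec.nat_le.decide.comp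
      (Primrec.nat_mul.comp ((KTE_N_prim S).comp hx Primrec.snd)
        (KTE_pow.comp (Primrec.const 2) Primrec.fst))
      (KTE_pow.comp (Primrec.const 2) Primrec.snd)
  exact Primrec.and.comp h1 (Primrec.and.comp h2 h3)

/-- The requirement `i` acts at the stage `t`. -/
def KTE_F (i t : ℕ) : Bool := KTE_A S i t && !KTE_bex (KTE_A S i) t

private theorem KTE_F_prim : Primrec₂ (KTE_F S) := by
  have h1 : Primrec fun p : ℕ × ℕ => KTE_bex (KTE_A S p.1) p.2 :=
    KTE_bex_prim (g := fun (p : ℕ × ℕ) j => KTE_A S p.1 j)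
      ((KTE_A_prim S).comp (Primrec.fst.comp Primrec.fst) Primrec.snd) Primrec.snd
  exact Primrec.and.comp (KTE_A_prim S) (Primrec.not.comp h1)

private theorem KTE_F_iff (i t : ℕ) :
    KTE_F S i t = true ↔ KTE_A S i t = true ∧ ∀ t' < t, KTE_A S i t' ≠ true := by
  unfold KTE_F
  rw [Bool.and_eq_true, Bool.not_eq_true', ← Bool.not_eq_true, KTE_bex_iff]
  simp

/-- The stage `t` brings the new element `t.unpair.1`. -/
def KTE_ch (t : ℕ) : Bool := KTE_bex (fun i => KTE_F S i t) (t + 1)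

private theorem KTE_ch_prim : Primrec (KTE_ch S) :=
  KTE_bex_prim (g := fun t i => KTE_F S i t) ((KTE_F_prim S).comp Primrec.snd Primrec.fst)
    Primrec.succ

private theorem KTE_A_le {i t : ℕ} (h : KTE_A S i t = true) : 2 * i ≤ t.unpair.1 := by
  unfold KTE_A at h
  rw [Bool.and_eq_true, decide_eq_true_iff] at h
  exact h.1

private theorem KTE_ch_iff (t : ℕ) : KTE_ch S t = true ↔ ∃ i, KTE_F S i t = true := by
  unfold KTE_ch
  rw [KTE_bex_iff]
  constructor
  · rintro ⟨i, _, h⟩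
    exact ⟨i, h⟩
  · rintro ⟨i, h⟩
    have h1 := KTE_A_le S ((KTE_F_iff S i t).1 h).1
    have h2 := Nat.unpair_left_le t
    exact ⟨i, by omega, h⟩

/-- The set at the stage `s`. -/
def KTE_B (s x : ℕ) : Bool := KTE_bex (fun t => KTE_ch S t && decide (t.unpair.1 = x)) s

private theorem KTE_B_prim : Primrec₂ (KTE_B S) := by
  refine KTE_bex_prim (α := ℕ × ℕ)
    (g := fun p t => KTE_ch S t && decide (t.unpair.1 = p.2)) ?_ Primrec.fst
  exact Primrec.and.comp ((KTE_ch_prim S).comp Primrec.snd)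
    (Primrec.eq.decide.comp (Primrec.fst.comp (Primrec.unpair.comp Primrec.snd))
      (Primrec.snd.comp Primrec.fst))

private theorem KTE_B_iff (s x : ℕ) :
    KTE_B S s x = true ↔ ∃ t < s, KTE_ch S t = true ∧ t.unpair.1 = x := by
  unfold KTE_B
  rw [KTE_bex_iff]
  simp

/-- The length of the string with code `y`. -/
def KTE_len (y : ℕ) : ℕ := ((decode y : Option (List Bool)).getD []).length

private theorem KTE_len_prim : Primrec KTE_len :=
  Primrec.list_length.comp (Primrec.option_getD.comp Primrec.decode (Primrec.const []))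

private theorem KTE_len_pre (X : ℕ → Bool) (n : ℕ) : KTE_len (encode (pre X n)) = n := by
  unfold KTE_len
  rw [encodek]
  exact pre_length X n

/-- The code of `(n, r)` for the request `p = (r + 2, y)`, `y` the code of a string of length
`n`. -/
def KTE_mm (p : ℕ × ℕ) : ℕ := Nat.pair (KTE_len p.2) (p.1 - 2)

private theorem KTE_mm_prim : Primrec KTE_mm :=
  Primrec₂.natPair.comp (KTE_len_prim.comp Primrec.snd)
    (Primrec.nat_sub.comp Primrec.fst (Primrec.const 2))

/-- The request `p` is made at the stage `s`. -/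
def KTE_Q (p : ℕ × ℕ) (s : ℕ) : Bool :=
  decide (2 ≤ p.1) && (decide (KTE_mm p < s) && (KTE_ok S s (KTE_mm p) &&
    decide (p.2 = encode (pre (KTE_B S s) (KTE_len p.2)))))

private theorem KTE_Q_prim : Primrec₂ (KTE_Q S) := by
  have hm : Primrec fun q : (ℕ × ℕ) × ℕ => KTE_mm q.1 := KTE_mm_prim.comp Primrec.fst
  have h1 : Primrec fun q : (ℕ × ℕ) × ℕ => decide (2 ≤ q.1.1) :=
    Primrec.nat_le.decide.comp (Primrec.const 2) (Primrec.fst.comp Primrec.fst)
  have h2 : Primrec fun q : (ℕ × ℕ) × ℕ => decide (KTE_mm q.1 < q.2) :=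
    Primrec.nat_lt.decide.comp hm Primrec.snd
  have h3 : Primrec fun q : (ℕ × ℕ) × ℕ => KTE_ok S q.2 (KTE_mm q.1) :=
    (KTE_ok_prim S).comp Primrec.snd hm
  have h4 : Primrec fun q : (ℕ × ℕ) × ℕ => pre (KTE_B S q.2) (KTE_len q.1.2) := by
    unfold pre
    refine Primrec.list_map (Primrec.list_range.comp
      (KTE_len_prim.comp (Primrec.snd.comp Primrec.fst))) ?_
    exact (KTE_B_prim S).comp (Primrec.snd.comp Primrec.fst) Primrec.snd
  have h5 : Primrec fun q : (ℕ × ℕ) × ℕ =>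
      decide (q.1.2 = encode (pre (KTE_B S q.2) (KTE_len q.1.2))) :=
    Primrec.eq.decide.comp (Primrec.snd.comp Primrec.fst) (Primrec.encode.comp h4)
  exact Primrec.and.comp h1 (Primrec.and.comp h2 (Primrec.and.comp h3 h5))

private theorem KTE_Q_iff (p : ℕ × ℕ) (s : ℕ) : KTE_Q S p s = true ↔
    2 ≤ p.1 ∧ KTE_mm p < s ∧ KTE_ok S s (KTE_mm p) = true ∧
      p.2 = encode (pre (KTE_B S s) (KTE_len p.2)) := by
  unfold KTE_Q
  simp only [Bool.and_eq_true, decide_eq_true_iff]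

/-! ### The cost -/

/-- The cost of `x` at the stage `t`. -/
noncomputable def KTE_c (x t : ℕ) : ℝ :=
  ∑ m ∈ (Finset.range t).filter (fun m => x < m.unpair.1 ∧ KTE_ok S t m = true),
    (2 : ℝ)⁻¹ ^ m.unpair.2

private theorem KTE_N_sum (x t k : ℕ) :
    (Nat.rec 0 (fun j a => a + KTE_tm S x t j) k : ℕ) = ∑ j ∈ Finset.range k, KTE_tm S x t j := by
  induction k with
  | zero => rfl
  | succ k ih => rw [Finset.sum_range_succ, ← ih]

private theorem KTE_N_eq (x t : ℕ) : (KTE_N S x t : ℝ) = KTE_c S x t * 2 ^ t := by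
  unfold KTE_N KTE_c
  rw [KTE_N_sum, Nat.cast_sum, Finset.sum_filter, Finset.sum_mul]
  refine Finset.sum_congr rfl fun m hm => ?_
  have h1 : m.unpair.2 ≤ t := (Nat.unpair_right_le m).trans (Finset.mem_range.1 hm).le
  unfold KTE_tm
  by_cases h2 : x < m.unpair.1 ∧ KTE_ok S t m = true
  · rw [if_pos h2, decide_eq_true h2.1, h2.2]
    simp only [Bool.and_self, cond_true, Nat.cast_pow, Nat.cast_ofNat]
    have h3 : (2 : ℝ) ^ t = 2 ^ (t - m.unpair.2) * 2 ^ m.unpair.2 := by
      rw [← pow_add, Nat.sub_add_cancel h1]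
    rw [h3, inv_pow]
    field_simp
  · rw [if_neg h2, zero_mul]
    have h4 : (decide (x < m.unpair.1) && KTE_ok S t m) = false := by
      rw [← Bool.not_eq_true, Bool.and_eq_true, decide_eq_true_iff]
      exact h2
    rw [h4]
    simp

private theorem KTE_N_iff (x t i : ℕ) :
    KTE_N S x t * 2 ^ i ≤ 2 ^ t ↔ KTE_c S x t ≤ (2 : ℝ)⁻¹ ^ i := by
  have h1 : KTE_N S x t * 2 ^ i ≤ 2 ^ t ↔ (KTE_N S x t : ℝ) * 2 ^ i ≤ 2 ^ t := by
    exact_mod_cast Iff.rfl
  rw [h1, KTE_N_eq, inv_pow]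
  have h2 : (0 : ℝ) < 2 ^ t := by positivity
  have h3 : (0 : ℝ) < 2 ^ i := by positivity
  have h4 : KTE_c S x t * 2 ^ t * 2 ^ i = KTE_c S x t * 2 ^ i * 2 ^ t := by ring
  rw [← one_div, le_div_iff₀ h3, h4]
  constructor
  · intro h
    exact le_of_mul_le_mul_right (by rw [one_mul]; exact h) h2
  · intro h
    have := mul_le_mul_of_nonneg_right h h2.le
    rwa [one_mul] at this

private theorem KTE_geom (J : Finset ℕ) : ∑ j ∈ J, (2 : ℝ)⁻¹ ^ j ≤ 2 := by
  have h1 : Summable fun n : ℕ => (1 / 2 : ℝ) ^ n := summable_geometric_two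
  have h2 : ∑ j ∈ J, (1 / 2 : ℝ) ^ j ≤ ∑' n : ℕ, (1 / 2 : ℝ) ^ n :=
    h1.sum_le_tsum J fun i _ => by positivity
  rw [tsum_geometric_two] at h2
  simpa [one_div] using h2

/-- Kraft's inequality for all pairs. -/
private theorem KTE_kraft (G : Finset ℕ) (hG : ∀ m ∈ G, ∃ s, KTE_ok S s m = true) :
    ∑ m ∈ G, (2 : ℝ)⁻¹ ^ m.unpair.2 ≤ 2 := by
  classical
  let N : Finset ℕ := G.image fun m => m.unpair.1
  have hex : ∀ n ∈ N, ∃ r, ∃ s, S.le s n r = true := by
    intro n hn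
    obtain ⟨m, hm, rfl⟩ := Finset.mem_image.1 hn
    obtain ⟨s, hs⟩ := hG m hm
    exact ⟨m.unpair.2, s, hs⟩
  let K : ℕ → ℕ := fun n => if h : ∃ r, ∃ s, S.le s n r = true then Nat.find h else 0
  have hK : ∀ n ∈ N, ∃ s, S.le s n (K n) = true := by
    intro n hn
    have h := hex n hn
    have h1 : K n = Nat.find h := dif_pos h
    rw [h1]
    exact Nat.find_spec h
  have hKle : ∀ n r, (∃ s, S.le s n r = true) → K n ≤ r := by
    intro n r hr
    have h : ∃ r, ∃ s, S.le s n r = true := ⟨r, hr⟩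
    have h1 : K n = Nat.find h := dif_pos h
    rw [h1]
    exact Nat.find_min' h hr
  have h1 := Finset.sum_fiberwise_of_maps_to (s := G) (t := N) (g := fun m => m.unpair.1)
    (fun m hm => Finset.mem_image_of_mem _ hm) (fun m => (2 : ℝ)⁻¹ ^ m.unpair.2)
  rw [← h1]
  have h2 : ∀ n ∈ N, ∑ m ∈ G with m.unpair.1 = n, (2 : ℝ)⁻¹ ^ m.unpair.2 ≤
      2 * (2 : ℝ)⁻¹ ^ K n := by
    intro n hn
    have h3 : ∑ m ∈ G with m.unpair.1 = n, (2 : ℝ)⁻¹ ^ m.unpair.2 =
        ∑ m ∈ G with m.unpair.1 = n, (2 : ℝ)⁻¹ ^ K n * (2 : ℝ)⁻¹ ^ (m.unpair.2 - K n) := by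
      refine Finset.sum_congr rfl fun m hm => ?_
      obtain ⟨h4, h5⟩ := Finset.mem_filter.1 hm
      have h6 : K n ≤ m.unpair.2 := by
        obtain ⟨s, hs⟩ := hG m h4
        refine hKle n _ ⟨s, ?_⟩
        rw [← h5]
        exact hs
      rw [← pow_add, Nat.add_sub_cancel' h6]
    have h7 : ∑ m ∈ G with m.unpair.1 = n, (2 : ℝ)⁻¹ ^ (m.unpair.2 - K n) =
        ∑ j ∈ (G.filter fun m => m.unpair.1 = n).image (fun m => m.unpair.2 - K n),
          (2 : ℝ)⁻¹ ^ j := by
      rw [Finset.sum_image]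
      intro m hm m' hm' hmm
      obtain ⟨h4, h5⟩ := Finset.mem_filter.1 (Finset.mem_coe.1 hm)
      obtain ⟨h4', h5'⟩ := Finset.mem_filter.1 (Finset.mem_coe.1 hm')
      have h6 : K n ≤ m.unpair.2 := by
        obtain ⟨s, hs⟩ := hG m h4
        refine hKle n _ ⟨s, ?_⟩
        rw [← h5]
        exact hs
      have h6' : K n ≤ m'.unpair.2 := by
        obtain ⟨s, hs⟩ := hG m' h4'
        refine hKle n _ ⟨s, ?_⟩
        rw [← h5']
        exact hs
      simp only at hmm
      have h8 : m.unpair.2 = m'.unpair.2 := by omega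
      rw [← Nat.pair_unpair m, ← Nat.pair_unpair m', h5, h5', h8]
    rw [h3, ← Finset.mul_sum, h7, mul_comm 2]
    exact mul_le_mul_of_nonneg_left (KTE_geom _) (by positivity)
  refine (Finset.sum_le_sum h2).trans ?_
  rw [← Finset.mul_sum]
  have h3 := S.kraft N K hK
  linarith

private theorem KTE_tail (i : ℕ) : ∃ x0, ∀ x, x0 ≤ x → ∀ t, KTE_c S x t ≤ (2 : ℝ)⁻¹ ^ i := by
  classical
  let w : ℕ → ℝ := fun m => if ∃ s, KTE_ok S s m = true then (2 : ℝ)⁻¹ ^ m.unpair.2 else 0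
  have hw0 : 0 ≤ w := by
    intro m
    show (0 : ℝ) ≤ if ∃ s, KTE_ok S s m = true then (2 : ℝ)⁻¹ ^ m.unpair.2 else 0
    split_ifs
    · positivity
    · exact le_rfl
  have hw : Summable w := by
    refine summable_of_sum_le (c := 2) hw0 fun u => ?_
    have h1 : ∑ m ∈ u, w m = ∑ m ∈ u.filter (fun m => ∃ s, KTE_ok S s m = true),
        (2 : ℝ)⁻¹ ^ m.unpair.2 := (Finset.sum_filter _ _).symm
    rw [h1]
    exact KTE_kraft S _ fun m hm => (Finset.mem_filter.1 hm).2
  obtain ⟨s0, hs0⟩ := summable_iff_vanishing_norm.1 hw ((2 : ℝ)⁻¹ ^ i) (by positivity)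
  refine ⟨s0.sup id, fun x hx t => ?_⟩
  have hdis : Disjoint ((Finset.range t).filter
      (fun m => x < m.unpair.1 ∧ KTE_ok S t m = true)) s0 := by
    rw [Finset.disjoint_left]
    intro m hm hm0
    have h1 : m ≤ s0.sup id := Finset.le_sup (f := id) hm0
    have h2 := (Finset.mem_filter.1 hm).2.1
    have h3 := Nat.unpair_left_le m
    omega
  have h4 := hs0 _ hdis
  have h5 : ∑ m ∈ (Finset.range t).filter (fun m => x < m.unpair.1 ∧ KTE_ok S t m = true), w m =
      KTE_c S x t := by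
    unfold KTE_c
    refine Finset.sum_congr rfl fun m hm => ?_
    exact if_pos ⟨t, (Finset.mem_filter.1 hm).2.2⟩
  rw [h5] at h4
  exact (le_abs_self _).trans h4.le

/-! ### The set -/

open Classical in
/-- The set. -/
noncomputable def KTE_set (x : ℕ) : Bool := decide (∃ t, KTE_ch S t = true ∧ t.unpair.1 = x)

private theorem KTE_set_iff (x : ℕ) :
    KTE_set S x = true ↔ ∃ t, KTE_ch S t = true ∧ t.unpair.1 = x := by
  classical
  unfold KTE_set
  exact decide_eq_true_iff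

private theorem KTE_set_re : REPred fun x => KTE_set S x = true := by
  have h1 : Primrec₂ fun x t : ℕ => KTE_ch S t && decide (t.unpair.1 = x) :=
    Primrec.and.comp ((KTE_ch_prim S).comp Primrec.snd)
      (Primrec.eq.decide.comp (Primrec.fst.comp (Primrec.unpair.comp Primrec.snd)) Primrec.fst)
  refine (re_of_prim_nat h1).of_eq fun x => ?_
  rw [KTE_set_iff]
  simp

private theorem KTE_F_unique {i t t' : ℕ} (h : KTE_F S i t = true) (h' : KTE_F S i t' = true) :
    t = t' := by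
  rw [KTE_F_iff] at h h'
  rcases lt_trichotomy t t' with h1 | h1 | h1
  · exact absurd h.1 (h'.2 t h1)
  · exact h1
  · exact absurd h'.1 (h.2 t' h1)

/-- There are arbitrarily large numbers outside of the set. -/
private theorem KTE_coinf (M : ℕ) : ∃ x, M ≤ x ∧ KTE_set S x ≠ true := by
  by_contra hcon
  push Not at hcon
  have h1 : ∀ x, M ≤ x → ∃ i, 2 * i ≤ x ∧ ∃ t, KTE_F S i t = true ∧ t.unpair.1 = x := by
    intro x hx
    obtain ⟨t, h2, h3⟩ := (KTE_set_iff S x).1 (hcon x hx)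
    obtain ⟨i, hi⟩ := (KTE_ch_iff S t).1 h2
    have h4 := KTE_A_le S ((KTE_F_iff S i t).1 hi).1
    rw [h3] at h4
    exact ⟨i, h4, t, hi, h3⟩
  choose! I hI using h1
  -- 2 M + 2 - M elements, M + 1 indices
  have h2 : (Finset.Ico M (2 * M + 2)).card ≤ (Finset.range (M + 1)).card := by
    refine Finset.card_le_card_of_injOn I ?_ ?_
    · intro x hx
      have hx' := Finset.mem_Ico.1 (Finset.mem_coe.1 hx)
      have h3 := (hI x hx'.1).1
      refine Finset.mem_coe.2 (Finset.mem_range.2 ?_)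
      omega
    · intro x hx x' hx' hxx
      have h3 := Finset.mem_Ico.1 (Finset.mem_coe.1 hx)
      have h3' := Finset.mem_Ico.1 (Finset.mem_coe.1 hx')
      obtain ⟨t, ht, rfl⟩ := (hI x h3.1).2
      obtain ⟨t', ht', rfl⟩ := (hI x' h3'.1).2
      rw [hxx] at ht
      rw [KTE_F_unique S ht ht']
  rw [Nat.card_Ico, Finset.card_range] at h2
  omega

private theorem KTE_evaln {i t x : ℕ} (h : KTE_A S i t = true) (hx : t.unpair.1 = x) :
    (Nat.Partrec.Code.evaln t (Denumerable.ofNat Nat.Partrec.Code i) x).isSome = true := by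
  unfold KTE_A at h
  rw [Bool.and_eq_true, Bool.and_eq_true, hx] at h
  exact h.2.1

private theorem KTE_notcomp : ¬ Computable (KTE_set S) := by
  intro hc
  -- the complement is the domain of a partial recursive function
  have hre : REPred fun x => KTE_set S x = false := by
    have h1 : ComputablePred fun x => KTE_set S x = false := by
      refine ⟨inferInstance, ?_⟩
      have h2 : Computable fun x => !KTE_set S x :=
        (Primrec.not.to_comp).comp hc
      refine h2.of_eq fun x => ?_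
      cases h3 : KTE_set S x <;> simp [h3]
    exact h1.to_re
  obtain ⟨c, hcode⟩ := Nat.Partrec.Code.exists_code.1 hre
  have hdom : ∀ x, (∃ t, (Nat.Partrec.Code.evaln t c x).isSome = true) ↔
      KTE_set S x = false := by
    intro x
    have h1 : (∃ s, (Nat.Partrec.Code.evaln s c x).isSome = true) ↔
        (Nat.Partrec.Code.eval c x).Dom := by
      constructor
      · rintro ⟨s, hs⟩
        obtain ⟨y, hy⟩ := Option.isSome_iff_exists.1 hs
        exact Part.dom_iff_mem.2 ⟨y, Nat.Partrec.Code.evaln_sound hy⟩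
      · intro h
        obtain ⟨y, hy⟩ := Part.dom_iff_mem.1 h
        obtain ⟨k, hk⟩ := Nat.Partrec.Code.evaln_complete.1 hy
        exact ⟨k, Option.isSome_iff_exists.2 ⟨y, hk⟩⟩
    rw [h1, hcode]
    simp [Part.assert]
  let i : ℕ := encode c
  have hi : Denumerable.ofNat Nat.Partrec.Code i = c := Denumerable.ofNat_encode c
  obtain ⟨x0, hx0⟩ := KTE_tail S i
  obtain ⟨x, hxM, hxB⟩ := KTE_coinf S (max (2 * i) x0)
  have hx1 : 2 * i ≤ x := (le_max_left _ _).trans hxM
  have hx2 : x0 ≤ x := (le_max_right _ _).trans hxM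
  obtain ⟨t1, ht1⟩ := (hdom x).2 (by simpa using hxB)
  -- the requirement acts
  have hA : KTE_A S i (Nat.pair x t1) = true := by
    unfold KTE_A
    rw [Nat.unpair_pair]
    simp only [hi]
    rw [Bool.and_eq_true, Bool.and_eq_true, decide_eq_true_iff, decide_eq_true_iff]
    refine ⟨hx1, ?_, (KTE_N_iff S _ _ _).2 (hx0 x hx2 _)⟩
    obtain ⟨y, hy⟩ := Option.isSome_iff_exists.1 ht1
    exact Option.isSome_iff_exists.2
      ⟨y, Nat.Partrec.Code.evaln_mono (Nat.right_le_pair x t1) hy⟩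
  have hex : ∃ t, KTE_A S i t = true := ⟨_, hA⟩
  have hF : KTE_F S i (Nat.find hex) = true :=
    (KTE_F_iff S _ _).2 ⟨Nat.find_spec hex, fun t' ht' => Nat.find_min hex ht'⟩
  have h1 : KTE_set S (Nat.find hex).unpair.1 = true :=
    (KTE_set_iff S _).2 ⟨_, (KTE_ch_iff S _).2 ⟨i, hF⟩, rfl⟩
  have h2 := KTE_evaln S (Nat.find_spec hex) rfl
  rw [hi] at h2
  have h3 := (hdom _).1 ⟨_, h2⟩
  rw [h1] at h3
  exact Bool.noConfusion h3

/-! ### The requests -/

/-- The set of the stage `s` agrees with the final set below `n`. -/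
private theorem KTE_settle (n : ℕ) :
    ∃ s0, ∀ s, s0 ≤ s → ∀ x < n, KTE_B S s x = KTE_set S x := by
  induction n with
  | zero => exact ⟨0, fun s _ x hx => absurd hx (Nat.not_lt_zero x)⟩
  | succ n ih =>
    obtain ⟨s0, hs0⟩ := ih
    by_cases h : KTE_set S n = true
    · obtain ⟨t, ht, htn⟩ := (KTE_set_iff S n).1 h
      refine ⟨max s0 (t + 1), fun s hs x hx => ?_⟩
      rcases Nat.lt_succ_iff_lt_or_eq.1 hx with h1 | h1
      · exact hs0 s ((le_max_left _ _).trans hs) x h1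
      · subst h1
        rw [h]
        exact (KTE_B_iff S s x).2 ⟨t, (Nat.lt_of_succ_le ((le_max_right _ _).trans hs)), ht, htn⟩
    · refine ⟨s0, fun s hs x hx => ?_⟩
      rcases Nat.lt_succ_iff_lt_or_eq.1 hx with h1 | h1
      · exact hs0 s hs x h1
      · subst h1
        have h2 : KTE_B S s x ≠ true := by
          intro h3
          obtain ⟨t, _, h4, h5⟩ := (KTE_B_iff S s x).1 h3
          exact h ((KTE_set_iff S x).2 ⟨t, h4, h5⟩)
        rw [Bool.not_eq_true _ |>.mp h, Bool.not_eq_true _ |>.mp h2]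

private theorem KTE_pre_congr {X Y : ℕ → Bool} {n : ℕ} (h : ∀ x < n, X x = Y x) :
    pre X n = pre Y n := by
  unfold pre
  refine List.map_congr_left fun x hx => h x (List.mem_range.1 hx)

/-- A change of the set below `n`. -/
private theorem KTE_change {t n : ℕ} (h : pre (KTE_B S t) n ≠ pre (KTE_B S (t + 1)) n) :
    KTE_ch S t = true ∧ t.unpair.1 < n := by
  by_contra hcon
  apply h
  refine KTE_pre_congr fun x hx => ?_
  rw [Bool.eq_iff_iff, KTE_B_iff, KTE_B_iff]
  constructor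
  · rintro ⟨t', h1, h2⟩
    exact ⟨t', by omega, h2⟩
  · rintro ⟨t', h1, h2, h3⟩
    rcases Nat.lt_succ_iff_lt_or_eq.1 h1 with h4 | h4
    · exact ⟨t', h4, h2, h3⟩
    · subst h4
      exact absurd ⟨h2, by rw [h3]; exact hx⟩ hcon

private theorem KTE_ok_mono {s t m : ℕ} (h : s ≤ t) (hs : KTE_ok S s m = true) :
    KTE_ok S t m = true := S.mono_s h hs

/-- The sum of the costs of the changes. -/
private theorem KTE_costs (T : Finset ℕ) (hT : ∀ t ∈ T, KTE_ch S t = true) :
    ∑ t ∈ T, KTE_c S t.unpair.1 t ≤ 2 := by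
  classical
  have h1 : ∀ t, ∃ i, KTE_ch S t = true → KTE_F S i t = true := by
    intro t
    by_cases h : KTE_ch S t = true
    · obtain ⟨i, hi⟩ := (KTE_ch_iff S t).1 h
      exact ⟨i, fun _ => hi⟩
    · exact ⟨0, fun h' => absurd h' h⟩
  choose I hI using h1
  have h2 : ∀ t ∈ T, KTE_c S t.unpair.1 t ≤ (2 : ℝ)⁻¹ ^ I t := by
    intro t ht
    have h3 := ((KTE_F_iff S _ _).1 (hI t (hT t ht))).1
    unfold KTE_A at h3
    rw [Bool.and_eq_true, Bool.and_eq_true, decide_eq_true_iff, decide_eq_true_iff] at h3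
    exact (KTE_N_iff S _ _ _).1 h3.2.2
  refine (Finset.sum_le_sum h2).trans ?_
  have h3 : ∑ t ∈ T, (2 : ℝ)⁻¹ ^ I t = ∑ j ∈ T.image I, (2 : ℝ)⁻¹ ^ j := by
    rw [Finset.sum_image]
    intro t ht t' ht' htt
    have h4 := hI t (hT t (Finset.mem_coe.1 ht))
    have h5 := hI t' (hT t' (Finset.mem_coe.1 ht'))
    rw [htt] at h4
    exact KTE_F_unique S h4 h5
  rw [h3]
  exact KTE_geom _

private theorem KTE_mm_eq {p q : ℕ × ℕ} (hp : 2 ≤ p.1) (hq : 2 ≤ q.1)
    (h : KTE_mm p = KTE_mm q) : p.1 = q.1 ∧ KTE_len p.2 = KTE_len q.2 := by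
  unfold KTE_mm at h
  obtain ⟨h1, h2⟩ := Nat.pair_eq_pair.1 h
  exact ⟨by omega, h1⟩

private theorem KTE_eq_of {p q : ℕ × ℕ} {s : ℕ} (hp : KTE_Q S p s = true)
    (hq : KTE_Q S q s = true) (h : KTE_mm p = KTE_mm q) : p = q := by
  obtain ⟨h1, _, _, h2⟩ := (KTE_Q_iff S p s).1 hp
  obtain ⟨h3, _, _, h4⟩ := (KTE_Q_iff S q s).1 hq
  obtain ⟨h5, h6⟩ := KTE_mm_eq h1 h3 h
  refine Prod.ext h5 ?_
  rw [h2, h4, h6]

private theorem KTE_wt {p : ℕ × ℕ} (hp : 2 ≤ p.1) :
    (2 : ℝ)⁻¹ ^ p.1 = 4⁻¹ * (2 : ℝ)⁻¹ ^ (KTE_mm p).unpair.2 := by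
  unfold KTE_mm
  rw [Nat.unpair_pair]
  obtain ⟨k, hk⟩ := Nat.exists_eq_add_of_le hp
  simp only [hk, Nat.add_sub_cancel_left]
  rw [pow_add]
  norm_num

private theorem KTE_weight (F : Finset (ℕ × ℕ)) (hF : ∀ p ∈ F, ∃ s, KTE_Q S p s = true) :
    ∑ p ∈ F, (2 : ℝ)⁻¹ ^ p.1 ≤ 1 := by
  classical
  let σ : ℕ × ℕ → ℕ := fun p => if h : ∃ s, KTE_Q S p s = true then Nat.find h else 0
  have hσ : ∀ p ∈ F, KTE_Q S p (σ p) = true := by
    intro p hp
    have h := hF p hp
    have h1 : σ p = Nat.find h := dif_pos h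
    rw [h1]
    exact Nat.find_spec h
  have hσmin : ∀ p s, KTE_Q S p s = true → σ p ≤ s := by
    intro p s hs
    have h : ∃ s, KTE_Q S p s = true := ⟨s, hs⟩
    have h1 : σ p = Nat.find h := dif_pos h
    rw [h1]
    exact Nat.find_min' h hs
  have h2le : ∀ p ∈ F, 2 ≤ p.1 := fun p hp => ((KTE_Q_iff S p _).1 (hσ p hp)).1
  have hmm : ∀ p ∈ F, KTE_mm p < σ p ∧ KTE_ok S (σ p) (KTE_mm p) = true := fun p hp =>
    ⟨((KTE_Q_iff S p _).1 (hσ p hp)).2.1, ((KTE_Q_iff S p _).1 (hσ p hp)).2.2.1⟩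
  let T2 : ℕ × ℕ → Prop := fun p =>
    KTE_mm p < σ p - 1 ∧ KTE_ok S (σ p - 1) (KTE_mm p) = true
  have hle : ∀ p ∈ F, ∀ q ∈ F, KTE_mm p = KTE_mm q → ¬ T2 q → σ q ≤ σ p := by
    intro p hp q hq hpq hT
    by_contra hlt
    apply hT
    obtain ⟨h1, h2⟩ := hmm p hp
    refine ⟨by rw [← hpq]; omega, ?_⟩
    rw [← hpq]
    exact KTE_ok_mono S (by omega) h2
  rw [← Finset.sum_filter_add_sum_filter_not F T2]
  -- the changes
  have hs2 : ∑ p ∈ F.filter T2, (2 : ℝ)⁻¹ ^ p.1 ≤ 1 / 2 := by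
    have h1 := Finset.sum_fiberwise_of_maps_to (s := F.filter T2)
      (t := (F.filter T2).image fun p => σ p - 1) (g := fun p => σ p - 1)
      (fun p hp => Finset.mem_image_of_mem _ hp) (fun p => (2 : ℝ)⁻¹ ^ p.1)
    rw [← h1]
    have hch : ∀ p ∈ F.filter T2, KTE_ch S (σ p - 1) = true ∧
        (σ p - 1).unpair.1 < (KTE_mm p).unpair.1 := by
      intro p hp
      obtain ⟨hpF, hpT⟩ := Finset.mem_filter.1 hp
      obtain ⟨q1, q2, q3, q4⟩ := (KTE_Q_iff S p _).1 (hσ p hpF)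
      have h2 : σ p - 1 + 1 = σ p := by omega
      have h3 : (KTE_mm p).unpair.1 = KTE_len p.2 := by
        unfold KTE_mm
        rw [Nat.unpair_pair]
      rw [h3]
      refine KTE_change S ?_
      intro h4
      rw [h2] at h4
      have h5 : KTE_Q S p (σ p - 1) = true := by
        refine (KTE_Q_iff S p _).2 ⟨q1, hpT.1, hpT.2, ?_⟩
        rw [h4]
        exact q4
      have h6 := hσmin p _ h5
      omega
    have h2 : ∀ t ∈ (F.filter T2).image (fun p => σ p - 1),
        ∑ p ∈ F.filter T2 with σ p - 1 = t, (2 : ℝ)⁻¹ ^ p.1 ≤ 4⁻¹ * KTE_c S t.unpair.1 t := by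
      intro t _
      have h3 : ∑ p ∈ F.filter T2 with σ p - 1 = t, (2 : ℝ)⁻¹ ^ p.1 =
          ∑ p ∈ F.filter T2 with σ p - 1 = t, 4⁻¹ * (2 : ℝ)⁻¹ ^ (KTE_mm p).unpair.2 :=
        Finset.sum_congr rfl fun p hp =>
          KTE_wt (h2le p (Finset.mem_filter.1 (Finset.mem_filter.1 hp).1).1)
      rw [h3, ← Finset.mul_sum]
      refine mul_le_mul_of_nonneg_left ?_ (by norm_num)
      have h4 : ∑ p ∈ F.filter T2 with σ p - 1 = t, (2 : ℝ)⁻¹ ^ (KTE_mm p).unpair.2 =
          ∑ m ∈ ((F.filter T2).filter fun p => σ p - 1 = t).image KTE_mm,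
            (2 : ℝ)⁻¹ ^ m.unpair.2 := by
        rw [Finset.sum_image]
        intro p hp q hq hpq
        obtain ⟨hp1, hp2⟩ := Finset.mem_filter.1 (Finset.mem_coe.1 hp)
        obtain ⟨hq1, hq2⟩ := Finset.mem_filter.1 (Finset.mem_coe.1 hq)
        have hpF := (Finset.mem_filter.1 hp1).1
        have hqF := (Finset.mem_filter.1 hq1).1
        have h5 := (hmm p hpF).1
        have h6 := (hmm q hqF).1
        have h7 : σ p = σ q := by omega
        have h8 := hσ q hqF
        rw [← h7] at h8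
        exact KTE_eq_of S (hσ p hpF) h8 hpq
      rw [h4]
      unfold KTE_c
      refine Finset.sum_le_sum_of_subset_of_nonneg ?_ fun m _ _ => by positivity
      intro m hm
      obtain ⟨p, hp, rfl⟩ := Finset.mem_image.1 hm
      obtain ⟨hp1, rfl⟩ := Finset.mem_filter.1 hp
      obtain ⟨hpF, hpT⟩ := Finset.mem_filter.1 hp1
      exact Finset.mem_filter.2 ⟨Finset.mem_range.2 hpT.1, (hch p hp1).2, hpT.2⟩
    refine (Finset.sum_le_sum h2).trans ?_
    rw [← Finset.mul_sum]
    have h3 := KTE_costs S ((F.filter T2).image fun p => σ p - 1) (by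
      intro t ht
      obtain ⟨p, hp, rfl⟩ := Finset.mem_image.1 ht
      exact (hch p hp).1)
    linarith
  -- the first requests
  have hs1 : ∑ p ∈ F.filter (fun p => ¬ T2 p), (2 : ℝ)⁻¹ ^ p.1 ≤ 1 / 2 := by
    have h3 : ∑ p ∈ F.filter (fun p => ¬ T2 p), (2 : ℝ)⁻¹ ^ p.1 =
        ∑ p ∈ F.filter (fun p => ¬ T2 p), 4⁻¹ * (2 : ℝ)⁻¹ ^ (KTE_mm p).unpair.2 :=
      Finset.sum_congr rfl fun p hp => KTE_wt (h2le p (Finset.mem_filter.1 hp).1)
    have h4 : ∑ p ∈ F.filter (fun p => ¬ T2 p), (2 : ℝ)⁻¹ ^ (KTE_mm p).unpair.2 =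
        ∑ m ∈ (F.filter (fun p => ¬ T2 p)).image KTE_mm, (2 : ℝ)⁻¹ ^ m.unpair.2 := by
      rw [Finset.sum_image]
      intro p hp q hq hpq
      obtain ⟨hpF, hpT⟩ := Finset.mem_filter.1 (Finset.mem_coe.1 hp)
      obtain ⟨hqF, hqT⟩ := Finset.mem_filter.1 (Finset.mem_coe.1 hq)
      have h5 := hle p hpF q hqF hpq hqT
      have h6 := hle q hqF p hpF hpq.symm hpT
      have h7 : σ p = σ q := le_antisymm h6 h5
      have h8 := hσ q hqF
      rw [← h7] at h8
      exact KTE_eq_of S (hσ p hpF) h8 hpq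
    rw [h3, ← Finset.mul_sum, h4]
    have h5 := KTE_kraft S ((F.filter (fun p => ¬ T2 p)).image KTE_mm) (by
      intro m hm
      obtain ⟨p, hp, rfl⟩ := Finset.mem_image.1 hm
      exact ⟨_, (hmm p (Finset.mem_filter.1 hp).1).2⟩)
    linarith
  linarith

theorem exists_ce_ktrivial (S : KSys) :
    ∃ B : ℕ → Bool, (REPred fun x => B x = true) ∧ ¬ Computable B ∧
      ∃ b, ∀ n r, (∃ s, S.le s n r = true) →
        ∃ s, S.le s (encode (pre B n)) (r + b) = true := by
  refine ⟨KTE_set S, KTE_set_re S, KTE_notcomp S, ?_⟩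
  obtain ⟨C, hC⟩ := S.univ (fun r y => ∃ s, KTE_Q S (r, y) s = true)
    (re_of_prim_nat (KTE_Q_prim S)) (KTE_weight S)
  refine ⟨C + 2, fun n r hnr => ?_⟩
  obtain ⟨s1, hs1⟩ := hnr
  obtain ⟨s0, hs0⟩ := KTE_settle S n
  have h1 : ∃ s, KTE_Q S (r + 2, encode (pre (KTE_set S) n)) s = true := by
    have hm : KTE_mm (r + 2, encode (pre (KTE_set S) n)) = Nat.pair n r := by
      unfold KTE_mm
      simp only [KTE_len_pre, Nat.add_sub_cancel]
    refine ⟨max (max s0 s1) (Nat.pair n r + 1), ?_⟩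
    rw [KTE_Q_iff, hm]
    refine ⟨by simp, Nat.lt_of_succ_le (le_max_right _ _), ?_, ?_⟩
    · unfold KTE_ok
      rw [Nat.unpair_pair]
      exact S.mono_s ((le_max_right s0 s1).trans (le_max_left _ _)) hs1
    · simp only [KTE_len_pre]
      congr 1
      refine (KTE_pre_congr fun x hx => ?_).symm
      exact hs0 _ ((le_max_left s0 s1).trans (le_max_left _ _)) x hx
  obtain ⟨s, hs⟩ := hC (r + 2) _ h1
  refine ⟨s, ?_⟩
  have h2 : r + (C + 2) = r + 2 + C := by ring
  rw [h2]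
  exact hs

end Cup
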