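import Pool.Agent.H59.Cup.Defs

/-!
# Module Turing: functionals and Turing reducibility

`OWR.recIn_nat`, `OWR.recIn` (use principle) and `OWR.recIn_of_functional` of
`Pool.Agent.H77.OW.RecIn` are the tools.

* `func_of_computableIn`, `func_of_tle`: `recIn_nat` applied to the function on codes.
* `tle_of_graph`: the graph of the total function `C` is r.e. in `A`. The function
  `x ↦ least m such that m codes (k, s, b) and the axiom (pre A k, x, b) of Ψ is seen at stage s`
  is recursive in `A`, and `C x` is read off from `m`.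
-/

namespace Cup

open Encodable OWR

private theorem Turing_tle_iff {C A : ℕ → Bool} :
    TLe C A ↔ Nat.RecursiveIn {chi A} (fun n => Part.some (C n).toNat) := by
  have h : (fun n : ℕ => Part.bind (decode (α := ℕ) n) fun a =>
      (Part.some (C a)).map encode) = fun n => Part.some (C n).toNat := by
    funext n
    simp only [decode_nat, Part.coe_some, Part.bind_some, Part.map_some]
    cases C n <;> rfl
  unfold TLe ComputableIn RecursiveIn
  rw [h]

private theorem Turing_chi (B : ℕ → Bool) : chi B = fun n => Part.some (B n).toNat := by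
  funext n
  unfold chi
  cases B n <;> rfl

theorem func_of_computableIn {A : ℕ → Bool} {f : ℕ → ℕ} (h : ComputableIn {chi A} f) :
    ∃ F : Func, ∀ x y, (∃ k, F.R (pre A k) x y) ↔ y = f x := by
  obtain ⟨Φ, rΦ, mΦ, eΦ⟩ := recIn_nat A (RecursiveIn.iff_nat.1 h)
  refine ⟨⟨Φ, rΦ, mΦ⟩, fun x y => ?_⟩
  rw [← eΦ, Part.mem_some_iff]

theorem func_of_tle {C A : ℕ → Bool} (h : TLe C A) :
    ∃ F : Func, ∀ x y, (∃ k, F.R (pre A k) x y) ↔ y = (C x).toNat := by
  obtain ⟨Φ, rΦ, mΦ, eΦ⟩ := recIn_nat A (Turing_tle_iff.1 h)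
  refine ⟨⟨Φ, rΦ, mΦ⟩, fun x y => ?_⟩
  rw [← eΦ, Part.mem_some_iff]

/-- The function `k ↦ A ↾ k` is recursive in `A`. -/
private theorem Turing_rec_pre (A : ℕ → Bool) :
    Nat.RecursiveIn {chi A} fun k => Part.some (encode (pre A k)) := by
  -- the step function
  have hst : Primrec fun q : ℕ =>
      encode (((decode (α := List Bool) q.unpair.1.unpair.2.unpair.2).getD []) ++
        [decide (q.unpair.2 = 1)]) := by
    have h1 : Primrec fun q : ℕ => decode (α := List Bool) q.unpair.1.unpair.2.unpair.2 :=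
      Primrec.decode.comp (Primrec.snd.comp (Primrec.unpair.comp (Primrec.snd.comp
        (Primrec.unpair.comp (Primrec.fst.comp Primrec.unpair)))))
    have h2 : Primrec fun q : ℕ => (decode (α := List Bool) q.unpair.1.unpair.2.unpair.2).getD [] :=
      Primrec.option_getD.comp h1 (Primrec.const [])
    have h3 : Primrec fun q : ℕ => decide (q.unpair.2 = 1) :=
      (Primrec.eq.comp (Primrec.snd.comp Primrec.unpair) (Primrec.const 1)).decide
    have h4 : Primrec fun q : ℕ => [decide (q.unpair.2 = 1)] :=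
      Primrec.list_cons.comp h3 (Primrec.const [])
    exact Primrec.encode.comp (Primrec.list_append.comp h2 h4)
  have hst' := (Primrec.nat_iff.1 hst).recursiveIn (O := {chi A})
  -- the oracle at the counter
  have hor : Nat.RecursiveIn {chi A}
      fun q : ℕ => Part.some (if A q.unpair.2.unpair.1 then 1 else 0) := by
    have h1 : Nat.RecursiveIn {chi A} (fun q : ℕ => (q.unpair.2.unpair.1 : Part ℕ)) :=
      (Primrec.nat_iff.1 (Primrec.fst.comp (Primrec.unpair.comp
        (Primrec.snd.comp Primrec.unpair)))).recursiveIn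
    have h2 := Nat.RecursiveIn.comp (Nat.RecursiveIn.oracle (chi A) (Set.mem_singleton (chi A))) h1
    refine h2.of_eq fun n => ?_
    change Part.bind _ _ = _
    rw [Part.coe_some]
    exact Part.bind_some _ _
  have hid : Nat.RecursiveIn {chi A} fun q : ℕ => (q : Part ℕ) :=
    (Primrec.nat_iff.1 Primrec.id).recursiveIn
  have hstep := Nat.RecursiveIn.comp hst' (Nat.RecursiveIn.pair hid hor)
  have hz : Nat.RecursiveIn {chi A} fun _ : ℕ => Part.some (encode ([] : List Bool)) := by
    have := (Primrec.nat_iff.1 (Primrec.const (encode ([] : List Bool)))).recursiveIn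
      (O := {chi A})
    refine this.of_eq fun n => ?_
    rw [Part.coe_some]
  have hprec := Nat.RecursiveIn.prec hz hstep
  have hk : Nat.RecursiveIn {chi A} fun k : ℕ => ((Nat.pair 0 k : ℕ) : Part ℕ) :=
    (Primrec.nat_iff.1 (Primrec₂.natPair.comp (Primrec.const 0) Primrec.id)).recursiveIn
  have hfin := Nat.RecursiveIn.comp hprec hk
  refine hfin.of_eq fun k => ?_
  change Part.bind _ _ = _
  rw [Part.coe_some, Part.bind_some]
  simp only [Nat.unpair_pair]
  induction k with
  | zero => rfl
  | succ k ih =>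
    change Part.bind _ _ = _
    rw [ih, Part.bind_some]
    simp [seq_eq_bind_map, Part.bind_some, pre_succ, encodek]

theorem tle_of_graph {C A : ℕ → Bool} (Ψ : Str → ℕ → Bool → Prop)
    (hΨ : REPred fun p : Str × ℕ × Bool => Ψ p.1 p.2.1 p.2.2)
    (h : ∀ x b, C x = b ↔ ∃ k, Ψ (pre A k) x b) : TLe C A := by
  obtain ⟨g, hg, -, eg⟩ := exists_stage hΨ
  -- the test
  obtain ⟨Q, hQ⟩ : ∃ Q : ℕ → ℕ → ℕ, Q = fun n m =>
    bif g (pre A m.unpair.1, n, decide (m.unpair.2.unpair.2 = 1)) m.unpair.2.unpair.1
      then 0 else 1 := ⟨_, rfl⟩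
  have hP : Primrec fun q : ℕ => ((decode (α := List Bool) q.unpair.2).map fun ρ =>
        bif g (ρ, q.unpair.1.unpair.1, decide (q.unpair.1.unpair.2.unpair.2.unpair.2 = 1))
          q.unpair.1.unpair.2.unpair.2.unpair.1 then 0 else 1).getD 1 := by
    refine Primrec.option_getD.comp ?_ (Primrec.const 1)
    refine Primrec.option_map (Primrec.decode.comp (Primrec.snd.comp Primrec.unpair)) ?_
    have e1 : Primrec fun r : ℕ × List Bool => r.1.unpair.1.unpair.1 :=
      Primrec.fst.comp (Primrec.unpair.comp (Primrec.fst.comp (Primrec.unpair.comp Primrec.fst)))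
    have e2 : Primrec fun r : ℕ × List Bool => r.1.unpair.1.unpair.2.unpair.2.unpair.2 :=
      Primrec.snd.comp (Primrec.unpair.comp (Primrec.snd.comp (Primrec.unpair.comp
        (Primrec.snd.comp (Primrec.unpair.comp (Primrec.fst.comp
          (Primrec.unpair.comp Primrec.fst)))))))
    have e3 : Primrec fun r : ℕ × List Bool => r.1.unpair.1.unpair.2.unpair.2.unpair.1 :=
      Primrec.fst.comp (Primrec.unpair.comp (Primrec.snd.comp (Primrec.unpair.comp
        (Primrec.snd.comp (Primrec.unpair.comp (Primrec.fst.comp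
          (Primrec.unpair.comp Primrec.fst)))))))
    have e4 : Primrec fun r : ℕ × List Bool =>
        decide (r.1.unpair.1.unpair.2.unpair.2.unpair.2 = 1) :=
      (Primrec.eq.comp e2 (Primrec.const 1)).decide
    have h1 : Primrec fun r : ℕ × List Bool =>
        g (r.2, r.1.unpair.1.unpair.1, decide (r.1.unpair.1.unpair.2.unpair.2.unpair.2 = 1))
          r.1.unpair.1.unpair.2.unpair.2.unpair.1 :=
      hg.comp (Primrec.pair Primrec.snd (Primrec.pair e1 e4)) e3
    exact Primrec.cond h1 (Primrec.const 0) (Primrec.const 1)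
  have hF : Nat.RecursiveIn {chi A} fun q => Part.some (Q q.unpair.1 q.unpair.2) := by
    have hP' := (Primrec.nat_iff.1 hP).recursiveIn (O := {chi A})
    have hid : Nat.RecursiveIn {chi A} fun q : ℕ => (q : Part ℕ) :=
      (Primrec.nat_iff.1 Primrec.id).recursiveIn
    have hk : Nat.RecursiveIn {chi A} fun q : ℕ => ((q.unpair.2.unpair.1 : ℕ) : Part ℕ) :=
      (Primrec.nat_iff.1 (Primrec.fst.comp (Primrec.unpair.comp
        (Primrec.snd.comp Primrec.unpair)))).recursiveIn
    have h1 := Nat.RecursiveIn.comp hP' (Nat.RecursiveIn.pair hid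
      (Nat.RecursiveIn.comp (Turing_rec_pre A) hk))
    refine h1.of_eq fun q => ?_
    change Part.bind _ _ = _
    simp only [seq_eq_bind_map, Part.bind_eq_bind, Part.map_eq_map, Part.coe_some,
      Part.map_some, Part.bind_some, Nat.unpair_pair, encodek, hQ, Option.map_some,
      Option.getD_some]
  have hR := Nat.RecursiveIn.rfind hF
  have hout : Nat.RecursiveIn {chi A} fun m : ℕ =>
      (((decide (m.unpair.2.unpair.2 = 1)).toNat : ℕ) : Part ℕ) := by
    have e2 : Primrec fun m : ℕ => m.unpair.2.unpair.2 :=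
      Primrec.snd.comp (Primrec.unpair.comp (Primrec.snd.comp Primrec.unpair))
    have e3 : Primrec fun m : ℕ => (decide (m.unpair.2.unpair.2 = 1)).toNat := by
      have : Primrec Bool.toNat := by
        have h5 : (Bool.toNat) = fun b : Bool => cond b 1 0 := by
          funext b; cases b <;> rfl
        rw [h5]
        exact Primrec.cond Primrec.id (Primrec.const 1) (Primrec.const 0)
      exact this.comp ((Primrec.eq.comp e2 (Primrec.const 1)).decide)
    exact (Primrec.nat_iff.1 e3).recursiveIn
  have hfin := Nat.RecursiveIn.comp hout hR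
  rw [Turing_tle_iff]
  refine hfin.of_eq fun n => ?_
  change Part.bind _ _ = _
  simp only [Part.map_eq_map, Part.map_some, Nat.unpair_pair]
  -- the search succeeds
  have hdom : (Nat.rfind fun m => Part.some (decide (Q n m = 0))).Dom := by
    rw [Nat.rfind_dom]
    obtain ⟨k, hk⟩ := (h n (C n)).1 rfl
    obtain ⟨s, hs⟩ := (eg (pre A k, n, C n)).1 hk
    refine ⟨Nat.pair k (Nat.pair s (C n).toNat), ?_, fun _ => trivial⟩
    have : Q n (Nat.pair k (Nat.pair s (C n).toNat)) = 0 := by
      rw [hQ]
      have hb : decide ((C n).toNat = 1) = C n := by cases C n <;> rfl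
      simp only [Nat.unpair_pair, hb, hs, cond_true]
    simp [this]
  obtain ⟨m, hm⟩ := Part.dom_iff_mem.1 hdom
  rw [Part.eq_some_iff.2 hm, Part.bind_some]
  have hm' : Q n m = 0 := by
    have := (Nat.mem_rfind.1 hm).1
    simpa using this
  have hC : C n = decide (m.unpair.2.unpair.2 = 1) := by
    have hgv : g (pre A m.unpair.1, n, decide (m.unpair.2.unpair.2 = 1)) m.unpair.2.unpair.1 =
        true := by
      rw [hQ] at hm'
      by_contra hne
      rw [Bool.not_eq_true] at hne
      simp [hne] at hm'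
    exact (h n (decide (m.unpair.2.unpair.2 = 1))).2 ⟨m.unpair.1, (eg _).2 ⟨_, hgv⟩⟩
  rw [hC]
  exact Part.coe_some _

theorem tle_refl (A : ℕ → Bool) : TLe A A := by
  rw [Turing_tle_iff, ← Turing_chi]
  exact Nat.RecursiveIn.oracle _ (Set.mem_singleton _)

theorem tle_of_computable {C A : ℕ → Bool} (h : Computable C) : TLe C A :=
  h.computableIn

theorem tle_trans {A B C : ℕ → Bool} (h : TLe A B) (h' : TLe B C) : TLe A C := by
  rw [Turing_tle_iff] at h h' ⊢
  refine h.subst ?_
  intro g hg
  rw [Set.mem_singleton_iff.1 hg, Turing_chi B]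
  exact h'

end Cup
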