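import Pool.Agent.H59.Cup.Min
import Pool.Agent.H59.Cup.Turing
import Pool.Agent.H59.Cup.ReUtil

/-!
# Module Minimal: generic sets have minimal degree

Let `C ≤_T A`, computed by `F` (`func_of_tle`), and let `q` satisfy `MinR F q`, `Through q A`.
The first alternative is impossible. In the second, `(C j).toNat = v j` for all `j` (for given `j`
take `y` alive with `q.T y` an initial segment of `A` longer than the use), so `C` is computable.

Third alternative: `A ≤_T C` by `tle_of_graph`. Say that `σ : Str` (an initial segment of `C`)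
excludes a string `z` if `¬ legit P z ∨ q.Bad z ∨ ∃ j v c, F.R (q.T z) j v ∧ σ[j]? = some c ∧
v ≠ c.toNat`, r.e. in `(σ, z)`. Say that `σ` excludes the bit `b` at `y` if it excludes
`y ++ [b, false]` and `y ++ [b, true]`. Let `Ψ σ x b` say that there is a string `y ≥ q.s` with
`(q.T y)[x]? = some b` and such that for every `y'`, `b'` with `q.s <+: y'`, `y' ++ [b'] <+: y`, `σ`
excludes the bit `!b'` at `y'`.
* Soundness: by induction such a `y` is the alive string of its length whose image is an initial
  segment of `A` (`through_length`, `T_eq_of_pre`): if `y' ++ [b'']` is the true one (and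
  `y' ++ [b'', c]` the true one of the next length, which is alive and on which `F` agrees with
  `C`), then it is not excluded by an initial segment of `C`, so `b'' = b'`.
* Completeness: let `y` be the true string of length `k` and `y' ++ [b'] <+: y`, `q.s <+: y'`,
  and let `y' ++ [b', c']` be true. For each `c`: if `y' ++ [!b', c]` is not alive it is excluded
  (`¬ legit` or `Bad`; it extends `q.s`); if it is alive, by the third alternative of `MinR` the
  two nodes split: there is `j` with values `v ≠ v'`, and the value at the true node is `(C j).toNat`,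
  so the other one is excluded by a long enough initial segment of `C`. Finitely many conditions,
  monotone in `σ`.
-/

namespace Cup

open Encodable OWR

variable {P : Par}

private theorem Minimal_pre_get (A : ℕ → Bool) {n k : ℕ} {c : Bool} :
    (pre A k)[n]? = some c ↔ n < k ∧ c = A n := by
  rw [List.getElem?_eq_some_iff]
  constructor
  · rintro ⟨h, he⟩
    rw [pre_length] at h
    refine ⟨h, ?_⟩
    rw [← he]
    simp [pre]
  · rintro ⟨h, rfl⟩
    refine ⟨by rw [pre_length]; exact h, ?_⟩
    simp [pre]

private theorem Minimal_pre_of_prefix {A : ℕ → Bool} {k : ℕ} {l : Str} (h : l <+: pre A k) :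
    l = pre A l.length := by
  have h1 := List.prefix_iff_eq_take.1 h
  have hlen : l.length ≤ k := by
    have := h.length_le
    rwa [pre_length] at this
  rwa [pre_take_of_le A hlen] at h1

/-- `σ` excludes the string `z`. -/
private def Minimal_ex (q : Cond P) (F : Func) (σ z : Str) : Prop :=
  ¬ legit P z ∨ q.Bad z ∨
    ∃ a : ℕ × ℕ × Bool, F.R (q.T z) a.1 a.2.1 ∧ σ[a.1]? = some a.2.2 ∧ ¬ a.2.1 = a.2.2.toNat

private theorem Minimal_ex_re (q : Cond P) (F : Func) :
    REPred fun p : Str × Str => Minimal_ex q F p.1 p.2 := by
  unfold Minimal_ex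
  refine re_or (re_comp (re_ill P) Computable.snd) (re_or (re_comp q.hBad Computable.snd) ?_)
  refine re_exists (α := Str × Str) (β := ℕ × ℕ × Bool)
    (p := fun p a => F.R (q.T p.2) a.1 a.2.1 ∧ p.1[a.1]? = some a.2.2 ∧ ¬ a.2.1 = a.2.2.toNat) ?_
  refine re_and ?_ (re_and (re_of_primrec ?_) (re_of_primrec ?_))
  · exact re_comp (α := (Str × Str) × (ℕ × ℕ × Bool)) (β := Str × ℕ × ℕ) F.re
      (f := fun a => (q.T a.1.2, a.2.1, a.2.2.1))
      ((q.hT.comp (Computable.snd.comp Computable.fst)).pair
        ((Computable.fst.comp Computable.snd).pair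
          (Computable.fst.comp (Computable.snd.comp Computable.snd))))
  · exact Primrec.eq.comp (Primrec.list_getElem?.comp (Primrec.fst.comp Primrec.fst)
      (Primrec.fst.comp Primrec.snd))
      (Primrec.option_some.comp (Primrec.snd.comp (Primrec.snd.comp Primrec.snd)))
  · exact (Primrec.eq.comp (Primrec.fst.comp (Primrec.snd.comp Primrec.snd))
      ((Primrec.dom_bool Bool.toNat).comp (Primrec.snd.comp (Primrec.snd.comp Primrec.snd)))).not

private theorem Minimal_ex_mono {q : Cond P} {F : Func} {σ σ' z : Str} (h : σ <+: σ')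
    (hz : Minimal_ex q F σ z) : Minimal_ex q F σ' z := by
  rcases hz with h1 | h1 | ⟨a, h1, h2, h3⟩
  · exact Or.inl h1
  · exact Or.inr (Or.inl h1)
  · refine Or.inr (Or.inr ⟨a, h1, ?_, h3⟩)
    obtain ⟨t, rfl⟩ := h
    obtain ⟨hlt, he⟩ := List.getElem?_eq_some_iff.1 h2
    rw [List.getElem?_append_left hlt]
    exact h2

/-- the bit computed from `σ` -/
private def Minimal_psi (q : Cond P) (F : Func) (σ : Str) (x : ℕ) (b : Bool) : Prop :=
  ∃ y : Str, (q.s.length ≤ y.length ∧ y.take q.s.length = q.s) ∧ (q.T y)[x]? = some b ∧
    ∀ m ∈ List.range y.length, m < q.s.length ∨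
      (Minimal_ex q F σ (y.take m ++ [!(y.getD m false), false]) ∧
        Minimal_ex q F σ (y.take m ++ [!(y.getD m false), true]))

private theorem Minimal_psi_re (q : Cond P) (F : Func) :
    REPred fun p : Str × ℕ × Bool => Minimal_psi q F p.1 p.2.1 p.2.2 := by
  unfold Minimal_psi
  refine re_exists (α := Str × ℕ × Bool) (β := Str)
    (p := fun p y => (q.s.length ≤ y.length ∧ y.take q.s.length = q.s) ∧
      (q.T y)[p.2.1]? = some p.2.2 ∧
      ∀ m ∈ List.range y.length, m < q.s.length ∨
        (Minimal_ex q F p.1 (y.take m ++ [!(y.getD m false), false]) ∧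
          Minimal_ex q F p.1 (y.take m ++ [!(y.getD m false), true]))) ?_
  refine re_and (re_and (re_of_primrec ?_) (re_of_primrec ?_)) (re_and ?_ ?_)
  · exact Primrec.nat_le.comp (Primrec.const _) (Primrec.list_length.comp Primrec.snd)
  · exact Primrec.eq.comp (Primrec.list_take.comp (Primrec.const _) Primrec.snd)
      (Primrec.const _)
  · refine re_comp (α := (Str × ℕ × Bool) × Str) (β := Str × ℕ × Bool)
      (p := fun a => a.1[a.2.1]? = some a.2.2) (re_of_primrec ?_)
      (f := fun a => (q.T a.2, a.1.2.1, a.1.2.2)) ?_
    · exact Primrec.eq.comp (Primrec.list_getElem?.comp Primrec.fst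
        (Primrec.fst.comp Primrec.snd)) (Primrec.option_some.comp (Primrec.snd.comp Primrec.snd))
    · exact (q.hT.comp Computable.snd).pair
        ((Computable.fst.comp (Computable.snd.comp Computable.fst)).pair
          (Computable.snd.comp (Computable.snd.comp Computable.fst)))
  · refine re_forall_mem (α := (Str × ℕ × Bool) × Str) (β := ℕ)
      (p := fun a m => m < q.s.length ∨
        (Minimal_ex q F a.1.1 (a.2.take m ++ [!(a.2.getD m false), false]) ∧
          Minimal_ex q F a.1.1 (a.2.take m ++ [!(a.2.getD m false), true])))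
      ?_ (Primrec.list_range.comp (Primrec.list_length.comp Primrec.snd))
    have hmap : ∀ c : Bool, Primrec fun r : ((Str × ℕ × Bool) × Str) × ℕ =>
        (r.1.1.1, r.1.2.take r.2 ++ [!(r.1.2.getD r.2 false), c]) := by
      intro c
      refine Primrec.pair (Primrec.fst.comp (Primrec.fst.comp Primrec.fst)) ?_
      refine Primrec.list_append.comp
        (Primrec.list_take.comp Primrec.snd (Primrec.snd.comp Primrec.fst)) ?_
      refine Primrec.list_cons.comp ?_ (Primrec.const [c])
      exact Primrec.not.comp ((Primrec.list_getD false).comp (Primrec.snd.comp Primrec.fst)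
        Primrec.snd)
    refine re_or (re_of_primrec ?_) (re_and ?_ ?_)
    · exact Primrec.nat_lt.comp Primrec.snd (Primrec.const _)
    · exact re_comp (p := fun r : Str × Str => Minimal_ex q F r.1 r.2)
        (f := fun r : ((Str × ℕ × Bool) × Str) × ℕ =>
          (r.1.1.1, r.1.2.take r.2 ++ [!(r.1.2.getD r.2 false), false]))
        (Minimal_ex_re q F) (hmap false).to_comp
    · exact re_comp (p := fun r : Str × Str => Minimal_ex q F r.1 r.2)
        (f := fun r : ((Str × ℕ × Bool) × Str) × ℕ =>
          (r.1.1.1, r.1.2.take r.2 ++ [!(r.1.2.getD r.2 false), true]))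
        (Minimal_ex_re q F) (hmap true).to_comp

private theorem Minimal_tr_prefix {q : Cond P} {A : ℕ → Bool} {y y' : Str} (h : y <+: y')
    (hy : q.T y' = pre A (q.T y').length) : q.T y = pre A (q.T y).length := by
  have h1 := T_mono q h
  rw [hy] at h1
  exact Minimal_pre_of_prefix h1

/-- The true strings are not excluded. -/
private theorem Minimal_not_ex {q : Cond P} {F : Func} {A C : ℕ → Bool}
    (hF : ∀ x y, (∃ k, F.R (pre A k) x y) ↔ y = (C x).toNat) {z : Str} (hz : Alive q z)
    (hT : q.T z = pre A (q.T z).length) (k : ℕ) : ¬ Minimal_ex q F (pre C k) z := by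
  rintro (h | h | ⟨⟨j, v, c⟩, h1, h2, h3⟩)
  · exact h hz.2.1
  · exact hz.2.2 h
  · simp only at h1 h2 h3
    rw [hT] at h1
    have h4 := (hF j v).1 ⟨_, h1⟩
    have h5 := (Minimal_pre_get C).1 h2
    exact h3 (by rw [h4, h5.2])

private theorem Minimal_take_succ {y : Str} {m : ℕ} (h : m < y.length) :
    y.take (m + 1) = y.take m ++ [y.getD m false] := by
  rw [List.take_add_one]
  congr 1
  rw [List.getD_eq_getElem?_getD, List.getElem?_eq_getElem h]
  rfl

/-- The true string of length `m + 2` above a true string. -/
private theorem Minimal_next {q : Cond P} {A : ℕ → Bool} (hA : Through q A) {y : Str} {m : ℕ}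
    (hs : q.s.length ≤ m) (hl : y.length = m) (hy : q.T y = pre A (q.T y).length) :
    ∃ b c, Alive q (y ++ [b, c]) ∧
      q.T (y ++ [b, c]) = pre A (q.T (y ++ [b, c])).length := by
  obtain ⟨z, hzl, hza, hzT⟩ := through_length hA (j := m + 2) (by omega)
  have h1 : z.take m = y := by
    refine T_eq_of_pre (A := A) ?_ (Minimal_tr_prefix (List.take_prefix m z) hzT) hy
    rw [List.length_take, hzl, hl]
    omega
  have h2 : z = y ++ z.drop m := by
    rw [← h1, List.take_append_drop]
  have h3 : (z.drop m).length = 2 := by
    rw [List.length_drop, hzl]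
    omega
  obtain ⟨b, c, hbc⟩ := List.length_eq_two.1 h3
  rw [hbc] at h2
  rw [h2] at hza hzT
  exact ⟨b, c, hza, hzT⟩

private theorem Minimal_sound {q : Cond P} {F : Func} {A C : ℕ → Bool}
    (hF : ∀ x y, (∃ k, F.R (pre A k) x y) ↔ y = (C x).toNat) (hA : Through q A) {k x : ℕ}
    {b : Bool} (h : Minimal_psi q F (pre C k) x b) : A x = b := by
  obtain ⟨y, ⟨hy1, hy2⟩, hyx, hyex⟩ := h
  have key : ∀ m, q.s.length ≤ m → m ≤ y.length →
      q.T (y.take m) = pre A (q.T (y.take m)).length := by
    intro m hm
    induction m, hm using Nat.le_induction with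
    | base =>
      intro _
      rw [hy2]
      exact through_stem hA
    | succ m hm ih =>
      intro hmy
      have ih' := ih (by omega)
      have hlen : (y.take m).length = m := by
        rw [List.length_take]
        omega
      obtain ⟨b', c, hal, hT⟩ := Minimal_next hA hm hlen ih'
      have hne := Minimal_not_ex hF hal hT k
      rcases hyex m (List.mem_range.2 (by omega)) with h1 | h1
      · omega
      · have hb : b' = y.getD m false := by
          by_contra hcon
          have hb' : b' = !(y.getD m false) := by
            generalize y.getD m false = g at hcon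
            cases b' <;> cases g <;> first | rfl | exact absurd rfl hcon
          rw [← hb'] at h1
          cases c with
          | false => exact hne h1.1
          | true => exact hne h1.2
        rw [Minimal_take_succ (by omega), ← hb]
        refine Minimal_tr_prefix (y' := y.take m ++ [b', c]) ?_ hT
        exact ⟨[c], List.append_assoc _ _ _⟩
  have h2 := key y.length hy1 le_rfl
  rw [List.take_length] at h2
  rw [h2] at hyx
  exact ((Minimal_pre_get A).1 hyx).2.symm

private theorem Minimal_complete {q : Cond P} {F : Func} {A C : ℕ → Bool}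
    (hF : ∀ x y, (∃ k, F.R (pre A k) x y) ↔ y = (C x).toNat) (hA : Through q A)
    (hsp : ∀ y c c', Alive q (y ++ [false, c]) → Alive q (y ++ [true, c']) →
      ∃ j v v', v ≠ v' ∧ F.R (q.T (y ++ [false, c])) j v ∧ F.R (q.T (y ++ [true, c'])) j v')
    (x : ℕ) : ∃ k, Minimal_psi q F (pre C k) x (A x) := by
  obtain ⟨y, hyl, hya, hyT⟩ := through_length hA (j := q.s.length + (x + 1)) (by omega)
  have hlenT := length_le_T q y
  -- values at the true nodes
  have hval : ∀ z : Str, q.T z = pre A (q.T z).length → ∀ j v, F.R (q.T z) j v →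
      v = (C j).toNat := by
    intro z hz j v h
    rw [hz] at h
    exact (hF j v).1 ⟨_, h⟩
  -- exclusion of one string
  have hone : ∀ m, q.s.length ≤ m → m < y.length → ∀ c : Bool,
      ∃ K, Minimal_ex q F (pre C K) (y.take m ++ [!(y.getD m false), c]) := by
    intro m hm hmy c
    have hlen : (y.take m).length = m := by
      rw [List.length_take]
      omega
    have hT := Minimal_tr_prefix (List.take_prefix m y) hyT
    obtain ⟨b', c', hal, hT'⟩ := Minimal_next hA hm hlen hT
    have hb : b' = y.getD m false := by
      have h1 : q.T (y.take m ++ [b']) = pre A (q.T (y.take m ++ [b'])).length :=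
        Minimal_tr_prefix (y' := y.take m ++ [b', c']) ⟨[c'], List.append_assoc _ _ _⟩ hT'
      have h2 : q.T (y.take (m + 1)) = pre A (q.T (y.take (m + 1))).length :=
        Minimal_tr_prefix (List.take_prefix (m + 1) y) hyT
      have h3 : y.take m ++ [b'] = y.take (m + 1) := by
        refine T_eq_of_pre (A := A) ?_ h1 h2
        rw [List.length_append, hlen, List.length_take]
        simp only [List.length_cons, List.length_nil]
        omega
      rw [Minimal_take_succ hmy] at h3
      have h4 := List.append_cancel_left h3
      simpa using h4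
    by_cases halive : Alive q (y.take m ++ [!(y.getD m false), c])
    · -- the two nodes split
      have hsplit : ∃ j v, F.R (q.T (y.take m ++ [!(y.getD m false), c])) j v ∧
          v ≠ (C j).toNat := by
        rw [hb] at hal hT'
        cases hbit : y.getD m false with
        | false =>
          rw [hbit] at hal hT' halive
          obtain ⟨j, v, v', hne, h1, h2⟩ := hsp (y.take m) c' c hal halive
          refine ⟨j, v', h2, ?_⟩
          have := hval _ hT' j v h1
          rw [← this]
          exact hne.symm
        | true =>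
          rw [hbit] at hal hT' halive
          obtain ⟨j, v, v', hne, h1, h2⟩ := hsp (y.take m) c c' halive hal
          refine ⟨j, v, h1, ?_⟩
          have := hval _ hT' j v' h2
          rw [← this]
          exact hne
      obtain ⟨j, v, h1, h2⟩ := hsplit
      exact ⟨j + 1, Or.inr (Or.inr ⟨(j, v, C j), h1,
        (Minimal_pre_get C).2 ⟨Nat.lt_succ_self j, rfl⟩, h2⟩)⟩
    · -- not alive
      have hpre : q.s <+: y.take m ++ [!(y.getD m false), c] := by
        have h1 : q.s <+: y.take m :=
          List.prefix_take_iff.2 ⟨hya.1, hm⟩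
        exact h1.trans (List.prefix_append _ _)
      refine ⟨0, ?_⟩
      by_cases hleg : legit P (y.take m ++ [!(y.getD m false), c])
      · by_cases hbad : q.Bad (y.take m ++ [!(y.getD m false), c])
        · exact Or.inr (Or.inl hbad)
        · exact absurd ⟨hpre, hleg, hbad⟩ halive
      · exact Or.inl hleg
  -- collect
  have hall : ∀ M ≤ y.length, ∃ K, ∀ m < M, q.s.length ≤ m →
      Minimal_ex q F (pre C K) (y.take m ++ [!(y.getD m false), false]) ∧
        Minimal_ex q F (pre C K) (y.take m ++ [!(y.getD m false), true]) := by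
    intro M
    induction M with
    | zero =>
      intro _
      exact ⟨0, fun m hm => absurd hm (Nat.not_lt_zero m)⟩
    | succ M ih =>
      intro hM
      obtain ⟨K, hK⟩ := ih (by omega)
      by_cases hMs : q.s.length ≤ M
      · obtain ⟨K1, hK1⟩ := hone M hMs (by omega) false
        obtain ⟨K2, hK2⟩ := hone M hMs (by omega) true
        refine ⟨max K (max K1 K2), ?_⟩
        intro m hm hms
        have e0 : pre C K <+: pre C (max K (max K1 K2)) := pre_isPre C (le_max_left _ _)
        have e1 : pre C K1 <+: pre C (max K (max K1 K2)) :=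
          pre_isPre C ((le_max_left _ _).trans (le_max_right _ _))
        have e2 : pre C K2 <+: pre C (max K (max K1 K2)) :=
          pre_isPre C ((le_max_right _ _).trans (le_max_right _ _))
        by_cases hmM : m < M
        · have := hK m hmM hms
          exact ⟨Minimal_ex_mono e0 this.1, Minimal_ex_mono e0 this.2⟩
        · have hmM' : m = M := by omega
          subst hmM'
          exact ⟨Minimal_ex_mono e1 hK1, Minimal_ex_mono e2 hK2⟩
      · refine ⟨K, ?_⟩
        intro m hm hms
        exact hK m (by omega) hms
  obtain ⟨K, hK⟩ := hall y.length le_rfl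
  refine ⟨K, y, ⟨by omega, ?_⟩, ?_, ?_⟩
  · have := List.prefix_iff_eq_take.1 hya.1
    exact this.symm
  · rw [hyT]
    exact (Minimal_pre_get A).2 ⟨by omega, rfl⟩
  · intro m hm
    rw [List.mem_range] at hm
    by_cases hms : m < q.s.length
    · exact Or.inl hms
    · exact Or.inr (hK m hm (by omega))

theorem minimal_of_through {A : ℕ → Bool}
    (h : ∀ F : Func, ∃ q : Cond P, MinR F q ∧ Through q A) (hA : ¬ Computable A) :
    MinimalDeg A := by
  refine ⟨hA, ?_⟩
  intro C hC
  obtain ⟨F, hF⟩ := func_of_tle hC
  obtain ⟨q, hq, hqA⟩ := h F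
  have hconv : ∀ j, ∃ y, Alive q y ∧ F.R (q.T y) j (C j).toNat := by
    intro j
    obtain ⟨k, hk⟩ := (hF j _).2 rfl
    obtain ⟨y, hy1, hy2, hy3⟩ := hqA k
    refine ⟨y, hy2, F.mono (pre A k) _ _ _ ?_ hk⟩
    rw [hy3]
    exact pre_isPre A (hy1.trans (length_le_T q y))
  rcases hq with ⟨m, hm⟩ | ⟨v, hv, hv'⟩ | hsp
  · exfalso
    obtain ⟨y, hy1, hy2⟩ := hconv m
    exact hm y hy1 _ hy2
  · left
    have he : C = fun j => decide (v j = 1) := by
      funext j
      obtain ⟨y, hy1, hy2⟩ := hconv j
      have h1 := hv' y hy1 j _ hy2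
      rw [← h1]
      cases C j <;> simp
    rw [he]
    have h2 : Computable fun n : ℕ => decide (n = 1) :=
      (Primrec.eq.decide.comp Primrec.id (Primrec.const 1)).to_comp
    exact h2.comp hv
  · right
    refine tle_of_graph (Minimal_psi q F) (Minimal_psi_re q F) ?_
    intro x b
    constructor
    · rintro rfl
      exact Minimal_complete hF hqA hsp x
    · rintro ⟨k, hk⟩
      exact Minimal_sound hF hqA hk

end Cup
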