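import Pool.Agent.H59.Cup.Turing

/-!
# Module Join: functionals with the oracle `A ⊕ B`

See the header of `Pool.Agent.H59.Cup.Turing`. Let `jn σ τ` be the string of length
`2 * min σ.length τ.length` which interleaves `σ` and `τ`
(for instance `(List.zip σ τ).flatMap fun p => [p.1, p.2]`); it is monotone in both arguments and
`pre (join A B) (2 * k) = jn (pre A k) (pre B k)`.
-/

namespace Cup

open Encodable OWR

private def jn (σ τ : Str) : Str :=
  (List.range (min σ.length τ.length)).flatMap fun i => [σ.getD i false, τ.getD i false]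

private theorem jn_primrec : Primrec₂ jn := by
  have h1 : Primrec fun q : Str × Str => List.range (min q.1.length q.2.length) :=
    Primrec.list_range.comp (Primrec.nat_min.comp (Primrec.list_length.comp Primrec.fst)
      (Primrec.list_length.comp Primrec.snd))
  have h2 : Primrec fun r : (Str × Str) × ℕ => r.1.1.getD r.2 false :=
    (Primrec.list_getD false).comp (Primrec.fst.comp Primrec.fst) Primrec.snd
  have h3 : Primrec fun r : (Str × Str) × ℕ => r.1.2.getD r.2 false :=
    (Primrec.list_getD false).comp (Primrec.snd.comp Primrec.fst) Primrec.snd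
  have h4 : Primrec₂ fun (q : Str × Str) (i : ℕ) => [q.1.getD i false, q.2.getD i false] :=
    Primrec.list_cons.comp h2 (Primrec.list_cons.comp h3 (Primrec.const []))
  exact Primrec.list_flatMap h1 h4

private theorem getD_prefix {σ σ' : Str} (h : σ <+: σ') {i : ℕ} (hi : i < σ.length) :
    σ'.getD i false = σ.getD i false := by
  obtain ⟨t, rfl⟩ := h
  rw [List.getD_eq_getElem?_getD, List.getD_eq_getElem?_getD, List.getElem?_append_left hi]

private theorem jn_mono {σ σ' τ τ' : Str} (h : σ <+: σ') (h' : τ <+: τ') :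
    jn σ τ <+: jn σ' τ' := by
  have l1 := h.length_le
  have l2 := h'.length_le
  unfold jn
  obtain ⟨k, hk⟩ : ∃ k, min σ'.length τ'.length = min σ.length τ.length + k :=
    ⟨min σ'.length τ'.length - min σ.length τ.length, by omega⟩
  rw [hk, List.range_add, List.flatMap_append]
  have e : (List.range (min σ.length τ.length)).flatMap
      (fun i => [σ'.getD i false, τ'.getD i false]) =
      (List.range (min σ.length τ.length)).flatMap
      (fun i => [σ.getD i false, τ.getD i false]) := by
    refine List.flatMap_congr fun i hi => ?_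
    rw [List.mem_range] at hi
    rw [getD_prefix h (by omega), getD_prefix h' (by omega)]
  rw [e]
  exact List.prefix_append _ _

private theorem pre_getD (A : ℕ → Bool) {i k : ℕ} (h : i < k) : (pre A k).getD i false = A i := by
  simp [pre, h]

private theorem join_even (A B : ℕ → Bool) (i : ℕ) : join A B (2 * i) = A i := by
  unfold join
  rw [if_pos (by omega), Nat.mul_div_cancel_left _ (by norm_num)]

private theorem join_odd (A B : ℕ → Bool) (i : ℕ) : join A B (2 * i + 1) = B i := by
  unfold join
  rw [if_neg (by omega), show (2 * i + 1) / 2 = i by omega]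

private theorem pre_join (A B : ℕ → Bool) (k : ℕ) :
    pre (join A B) (2 * k) = jn (pre A k) (pre B k) := by
  induction k with
  | zero => rfl
  | succ k ih =>
    have h1 : jn (pre A (k + 1)) (pre B (k + 1)) = jn (pre A k) (pre B k) ++ [A k, B k] := by
      unfold jn
      simp only [pre_length, min_self]
      rw [List.range_succ, List.flatMap_append]
      congr 1
      · refine List.flatMap_congr fun i hi => ?_
        rw [List.mem_range] at hi
        rw [pre_getD A hi, pre_getD B hi, pre_getD A (by omega), pre_getD B (by omega)]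
      · simp only [List.flatMap_cons, List.flatMap_nil, List.append_nil]
        rw [pre_getD A (by omega), pre_getD B (by omega)]
    rw [h1, show 2 * (k + 1) = 2 * k + 1 + 1 by ring, pre_succ, pre_succ, ih, join_odd, join_even,
      List.append_assoc]
    rfl

/-- For a functional `F` with oracle `A ⊕ B` there is an equivalent one with two oracles. -/
theorem join_split (F : Func) :
    ∃ R : Str → Str → ℕ → ℕ → Prop,
      (REPred fun p : Str × Str × ℕ × ℕ => R p.1 p.2.1 p.2.2.1 p.2.2.2) ∧
      (∀ σ σ' τ τ' x y, σ <+: σ' → τ <+: τ' → R σ τ x y → R σ' τ' x y) ∧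
      ∀ (A B : ℕ → Bool) x y, (∃ k, F.R (pre (join A B) k) x y) ↔
        ∃ k l, R (pre A k) (pre B l) x y := by
  refine ⟨fun σ τ x y => F.R (jn σ τ) x y, ?_, ?_, ?_⟩
  · have h1 : Primrec fun p : Str × Str × ℕ × ℕ => (jn p.1 p.2.1, p.2.2.1, p.2.2.2) :=
      (jn_primrec.comp Primrec.fst (Primrec.fst.comp Primrec.snd)).pair
        ((Primrec.fst.comp (Primrec.snd.comp Primrec.snd)).pair
          (Primrec.snd.comp (Primrec.snd.comp Primrec.snd)))
    have h9 := re_comp F.re h1.to_comp
    exact h9
  · intro σ σ' τ τ' x y h h' hR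
    exact F.mono _ _ _ _ (jn_mono h h') hR
  · intro A B x y
    constructor
    · rintro ⟨k, hk⟩
      refine ⟨k, k, ?_⟩
      show F.R (jn (pre A k) (pre B k)) x y
      rw [← pre_join]
      exact F.mono _ _ _ _ (pre_isPre _ (by omega)) hk
    · rintro ⟨k, l, h⟩
      refine ⟨2 * max k l, ?_⟩
      rw [pre_join]
      exact F.mono _ _ _ _ (jn_mono (pre_isPre _ (le_max_left _ _))
        (pre_isPre _ (le_max_right _ _))) h

private def ev (ρ : Str) (k : ℕ) : Str := (List.range k).map fun i => ρ.getD (2 * i) false
private def od (ρ : Str) (k : ℕ) : Str := (List.range k).map fun i => ρ.getD (2 * i + 1) false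

private theorem ev_primrec : Primrec₂ ev := by
  have h2 : Primrec₂ fun (q : Str × ℕ) (i : ℕ) => q.1.getD (2 * i) false :=
    (Primrec.list_getD false).comp (Primrec.fst.comp Primrec.fst)
      (Primrec.nat_mul.comp (Primrec.const 2) Primrec.snd)
  exact Primrec.list_map (Primrec.list_range.comp Primrec.snd) h2

private theorem od_primrec : Primrec₂ od := by
  have h2 : Primrec₂ fun (q : Str × ℕ) (i : ℕ) => q.1.getD (2 * i + 1) false :=
    (Primrec.list_getD false).comp (Primrec.fst.comp Primrec.fst)
      (Primrec.succ.comp (Primrec.nat_mul.comp (Primrec.const 2) Primrec.snd))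
  exact Primrec.list_map (Primrec.list_range.comp Primrec.snd) h2

private theorem ev_pre (A B : ℕ → Bool) {k n : ℕ} (h : 2 * k ≤ n) :
    ev (pre (join A B) n) k = pre A k := by
  show _ = (List.range k).map A
  refine List.map_congr_left fun i hi => ?_
  rw [List.mem_range] at hi
  rw [pre_getD _ (by omega), join_even]

private theorem od_pre (A B : ℕ → Bool) {k n : ℕ} (h : 2 * k ≤ n) :
    od (pre (join A B) n) k = pre B k := by
  show _ = (List.range k).map B
  refine List.map_congr_left fun i hi => ?_
  rw [List.mem_range] at hi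
  rw [pre_getD _ (by omega), join_odd]

/-- If the graph of `C` is r.e. in `A ⊕ B`, then `C ≤_T A ⊕ B`. -/
theorem tle_join_of_re {A B C : ℕ → Bool} (R : Str → Str → ℕ → Bool → Prop)
    (hR : REPred fun p : Str × Str × ℕ × Bool => R p.1 p.2.1 p.2.2.1 p.2.2.2)
    (h : ∀ x b, C x = b ↔ ∃ k l, R (pre A k) (pre B l) x b) : TLe C (join A B) := by
  refine tle_of_graph (fun ρ x b => ∃ q : ℕ × ℕ, (2 * q.1 ≤ ρ.length ∧ 2 * q.2 ≤ ρ.length) ∧
    R (ev ρ q.1) (od ρ q.2) x b) ?_ fun x b => ?_
  · refine re_exists (re_and (re_of_primrec ?_) ?_)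
    · have hl : Primrec fun r : (Str × ℕ × Bool) × ℕ × ℕ => r.1.1.length :=
        Primrec.list_length.comp (Primrec.fst.comp Primrec.fst)
      exact (Primrec.nat_le.comp (Primrec.nat_mul.comp (Primrec.const 2)
        (Primrec.fst.comp Primrec.snd)) hl).and
        (Primrec.nat_le.comp (Primrec.nat_mul.comp (Primrec.const 2)
        (Primrec.snd.comp Primrec.snd)) hl)
    · have h1 : Primrec fun r : (Str × ℕ × Bool) × ℕ × ℕ =>
          (ev r.1.1 r.2.1, od r.1.1 r.2.2, r.1.2.1, r.1.2.2) :=
        (ev_primrec.comp (Primrec.fst.comp Primrec.fst) (Primrec.fst.comp Primrec.snd)).pair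
          ((od_primrec.comp (Primrec.fst.comp Primrec.fst) (Primrec.snd.comp Primrec.snd)).pair
            ((Primrec.fst.comp (Primrec.snd.comp Primrec.fst)).pair
              (Primrec.snd.comp (Primrec.snd.comp Primrec.fst))))
      have h9 := re_comp hR h1.to_comp
      exact h9
  · rw [h]
    constructor
    · rintro ⟨k, l, hkl⟩
      refine ⟨2 * k + 2 * l, (k, l), ?_, ?_⟩
      · rw [pre_length]
        constructor <;> simp only <;> omega
      · simp only
        rw [ev_pre A B (by omega), od_pre A B (by omega)]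
        exact hkl
    · rintro ⟨n, ⟨k, l⟩, ⟨h1, h2⟩, h3⟩
      simp only at h1 h2 h3
      rw [pre_length] at h1 h2
      rw [ev_pre A B h1, od_pre A B h2] at h3
      exact ⟨k, l, h3⟩

private theorem pre_get (A : ℕ → Bool) {n k : ℕ} {c : Bool} :
    (pre A k)[n]? = some c ↔ n < k ∧ A n = c := by
  rw [List.getElem?_eq_some_iff]
  constructor
  · rintro ⟨h, he⟩
    rw [pre_length] at h
    refine ⟨h, ?_⟩
    rw [← he]
    simp [pre]
  · rintro ⟨h, rfl⟩
    refine ⟨by rw [pre_length]; exact h, ?_⟩
    simp [pre]

theorem tle_join_left (A B : ℕ → Bool) : TLe A (join A B) := by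
  refine tle_join_of_re (fun σ _ x b => σ[x]? = some b) (re_of_primrec ?_) fun x b => ?_
  · exact Primrec.eq.comp (Primrec.list_getElem?.comp Primrec.fst
      (Primrec.fst.comp (Primrec.snd.comp Primrec.snd)))
      (Primrec.option_some.comp (Primrec.snd.comp (Primrec.snd.comp Primrec.snd)))
  · simp only [pre_get]
    exact ⟨fun h => ⟨x + 1, 0, by omega, h⟩, fun ⟨_, _, _, h⟩ => h⟩

theorem tle_join_right (A B : ℕ → Bool) : TLe B (join A B) := by
  refine tle_join_of_re (fun _ τ x b => τ[x]? = some b) (re_of_primrec ?_) fun x b => ?_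
  · exact Primrec.eq.comp (Primrec.list_getElem?.comp (Primrec.fst.comp Primrec.snd)
      (Primrec.fst.comp (Primrec.snd.comp Primrec.snd)))
      (Primrec.option_some.comp (Primrec.snd.comp (Primrec.snd.comp Primrec.snd)))
  · simp only [pre_get]
    exact ⟨fun h => ⟨0, x + 1, by omega, h⟩, fun ⟨_, _, _, h⟩ => h⟩

/-- A computable set does not help in a join. -/
theorem tle_of_join_computable {A B C : ℕ → Bool} (hA : Computable A) (h : TLe C (join A B)) :
    TLe C B := by
  refine tle_trans h (tle_of_graph (fun τ x b => (x % 2 = 0 ∧ A (x / 2) = b) ∨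
    (x % 2 = 1 ∧ τ[x / 2]? = some b)) ?_ fun x b => ?_)
  · have hx : Primrec fun p : Str × ℕ × Bool => p.2.1 := Primrec.fst.comp Primrec.snd
    have hb : Primrec fun p : Str × ℕ × Bool => p.2.2 := Primrec.snd.comp Primrec.snd
    have hm : Primrec fun p : Str × ℕ × Bool => p.2.1 % 2 :=
      Primrec.nat_mod.comp hx (Primrec.const 2)
    have hd : Primrec fun p : Str × ℕ × Bool => p.2.1 / 2 :=
      Primrec.nat_div.comp hx (Primrec.const 2)
    refine re_or (re_and (re_of_primrec (Primrec.eq.comp hm (Primrec.const 0))) ?_)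
      (re_and (re_of_primrec (Primrec.eq.comp hm (Primrec.const 1)))
        (re_of_primrec (Primrec.eq.comp (Primrec.list_getElem?.comp Primrec.fst hd)
          (Primrec.option_some.comp hb))))
    have h1 : Computable fun p : Str × ℕ × Bool => decide (A (p.2.1 / 2) = p.2.2) := by
      have h3 : Computable₂ fun (a b : Bool) => decide (a = b) := Primrec.eq.decide.to_comp
      exact h3.comp (hA.comp hd.to_comp) hb.to_comp
    refine ComputablePred.to_re (ComputablePred.computable_iff.2 ⟨_, h1, ?_⟩)
    funext p
    simp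
  · simp only [pre_get]
    constructor
    · intro h1
      unfold join at h1
      rcases Nat.mod_two_eq_zero_or_one x with h2 | h2
      · rw [if_pos h2] at h1
        exact ⟨0, Or.inl ⟨h2, h1⟩⟩
      · rw [if_neg (by omega)] at h1
        exact ⟨x / 2 + 1, Or.inr ⟨h2, by omega, h1⟩⟩
    · rintro ⟨k, (⟨h2, h1⟩ | ⟨h2, -, h1⟩)⟩
      · unfold join
        rw [if_pos h2]
        exact h1
      · unfold join
        rw [if_neg (by omega)]
        exact h1

end Cup
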