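import Pool.Agent.H59.Cup.Basic
import Pool.Agent.H59.Cup.Join

/-!
# Module NonCup: avoiding cupping, when all colours are safe

If all colours are safe then (by `disj`) none is ill, all strings are legit, every extension is a
safe extension, `good P Bad s` says that no extension of `s` is bad, and every extension of `p.s` is
alive and good.

`noncup_dense`: let `R` be as in `join_split` for `F`. If for some `s' ≥ p.s`, some `n, v`, `l` one
has `R (p.T s') (pre B l) n v` with `v ≠ (Halt n).toNat`, then `restem` with the stem `s'`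
(same `Bad`): for `A` through `q`, `p.T s' = q.T q.s` is an initial segment of `A`
(`through_stem`), so `F` computes a wrong value. If for some `n` and some `s' ≥ p.s` there are no
`y ≥ s'`, `l`, `v` with `R (p.T y) (pre B l) n v`, then `restem` with the stem `s'`: for `A` through `q`,
`F` is undefined at `n` (an initial segment of `A` is below some `p.T y`, `y ≥ s'`, by
`length_le_T`). Otherwise `Halt n = b` iff there are `y ≥ p.s` and `l` with
`R (p.T y) (pre B l) n b.toNat`, so `Halt ≤_T B` by `tle_of_graph`.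

`noncomp_dense`: `p.T (p.s ++ [false])` and `p.T (p.s ++ [true])` have the same length and differ in
the last bit (`step`), so one of them is not an initial segment of `f`.
-/

namespace Cup

open Encodable OWR

variable {P : Par}

private theorem nc_legit (hS : ∀ c, P.S c) (y : Str) : legit P y :=
  fun _ _ h => P.disj _ ⟨hS _, h⟩

private theorem nc_sext (hS : ∀ c, P.S c) {s y : Str} (h : s <+: y) : sext P s y :=
  ⟨h, fun _ _ _ => hS _⟩

private theorem nc_alive (hS : ∀ c, P.S c) (p : Cond P) {y : Str} (h : p.s <+: y) : Alive p y :=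
  ⟨h, nc_legit hS y, p.hg y (nc_sext hS h)⟩

private theorem nc_restem (hS : ∀ c, P.S c) (p : Cond P) {s' : Str} (h : p.s <+: s') :
    ∃ q : Cond P, Ext q p ∧ q.T = p.T ∧ q.s = s' := by
  obtain ⟨q, h1, h2, h3, -⟩ := restem p (nc_alive hS p h) p.Bad p.hBad p.up (fun _ h => h)
    (good_of_sext p.hg (nc_sext hS h))
  exact ⟨q, h1, h2, h3⟩

theorem noncup_dense (hS : ∀ c, P.S c) (B : ℕ → Bool) (hB : ¬ Complete B) (F : Func)
    (p : Cond P) :
    ∃ q, Ext q p ∧ ∀ A, Through q A →
      ¬ ∀ x y, (∃ k, F.R (pre (join A B) k) x y) ↔ y = (Halt x).toNat := by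
  obtain ⟨R, hRre, hRmono, hRiff⟩ := join_split F
  by_cases c1 : ∃ s', p.s <+: s' ∧ ∃ n v l, R (p.T s') (pre B l) n v ∧ v ≠ (Halt n).toNat
  · obtain ⟨s', hs', n, v, l, hR, hv⟩ := c1
    obtain ⟨q, hq, hqT, hqs⟩ := nc_restem hS p hs'
    refine ⟨q, hq, fun A hA hF => hv ?_⟩
    have h1 := through_stem hA
    rw [hqT, hqs] at h1
    rw [← hF n v, hRiff]
    exact ⟨(p.T s').length, l, h1 ▸ hR⟩
  by_cases c2 : ∃ n, ∃ s', p.s <+: s' ∧ ∀ y, s' <+: y → ∀ l v, ¬ R (p.T y) (pre B l) n v
  · obtain ⟨n, s', hs', hno⟩ := c2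
    obtain ⟨q, hq, hqT, hqs⟩ := nc_restem hS p hs'
    refine ⟨q, hq, fun A hA hF => ?_⟩
    have h1 := (hF n (Halt n).toNat).2 rfl
    rw [hRiff] at h1
    obtain ⟨k, l, hkl⟩ := h1
    obtain ⟨y, hky, hy, hTy⟩ := hA k
    have h2 : s' <+: y := by
      have := hy.1
      rwa [hqs] at this
    refine hno y h2 l _ (hRmono _ _ _ _ _ _ ?_ (List.prefix_refl _) hkl)
    rw [← hqT, hTy]
    exact pre_isPre A (hky.trans (length_le_T q y))
  -- the remaining case
  exfalso
  apply hB
  push Not at c1 c2
  refine tle_of_graph (fun τ x b => ∃ z : Str, R (p.T (p.s ++ z)) τ x b.toNat) ?_ ?_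
  · refine re_exists (p := fun (q : Str × ℕ × Bool) (z : Str) =>
      R (p.T (p.s ++ z)) q.1 q.2.1 q.2.2.toNat) ?_
    refine re_comp hRre (f := fun q : (Str × ℕ × Bool) × Str =>
      (p.T (p.s ++ q.2), q.1.1, q.1.2.1, q.1.2.2.toNat)) ?_
    have hT : Computable fun q : (Str × ℕ × Bool) × Str => p.T (p.s ++ q.2) :=
      p.hT.comp (Primrec.list_append.to_comp.comp (Computable.const p.s) Computable.snd)
    have hb : Computable fun q : (Str × ℕ × Bool) × Str => q.1.2.2.toNat :=
      (Primrec.dom_finite Bool.toNat).to_comp.comp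
        (Computable.snd.comp (Computable.snd.comp Computable.fst))
    exact hT.pair ((Computable.fst.comp Computable.fst).pair
      ((Computable.fst.comp (Computable.snd.comp Computable.fst)).pair hb))
  · intro x b
    constructor
    · intro hx
      obtain ⟨y, hy, l, v, hR⟩ := c2 x p.s (List.prefix_refl _)
      have hv := c1 y hy x v l hR
      obtain ⟨z, hz⟩ := hy
      refine ⟨l, z, ?_⟩
      rw [hz, ← hx, ← hv]
      exact hR
    · rintro ⟨l, z, hR⟩
      have hv := c1 (p.s ++ z) ⟨z, rfl⟩ x _ l hR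
      cases b <;> cases h : Halt x <;> simp_all

theorem noncomp_dense (hS : ∀ c, P.S c) (f : ℕ → Bool) (p : Cond P) :
    ∃ q, Ext q p ∧ ∀ A, Through q A → A ≠ f := by
  have key : ∃ b, p.T (p.s ++ [b]) ≠ pre f (p.T (p.s ++ [b])).length := by
    by_contra hcon
    push Not at hcon
    obtain ⟨ρ, hρ, -⟩ := p.step p.s
    have h0 := hcon false
    have h1 := hcon true
    have hl : (p.T (p.s ++ [false])).length = (p.T (p.s ++ [true])).length := by
      rw [hρ, hρ]
      simp
    rw [hl, ← h1, hρ, hρ] at h0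
    simp at h0
  obtain ⟨b, hb⟩ := key
  obtain ⟨q, hq, hqT, hqs⟩ := nc_restem hS p (List.prefix_append p.s [b])
  refine ⟨q, hq, fun A hA hAf => hb ?_⟩
  have h1 := through_stem hA
  rw [hqT, hqs, hAf] at h1
  exact h1

end Cup
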