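import Pool.Agent.H77.OW.Part0b

/-!
# Module Opt: an optimal prefix-free machine exists

Use `OWR.kc` (`Pool.Agent.H77.OW.Part0b`): from an r.e. set `P` of requests `(r, x)` of total weight
`∑ 2^{-r} ≤ 1` it gives a prefix-free machine `M` with `cplx M x ≤ r + 1` for all requests.

`Opt_h e s n` says that the `e`-th partial recursive function halts at `n` in at most `s` steps,
`Opt_w e s s` is `2 ^ s` times the weight of the set of the `n < s` with `Opt_h e s n`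
(`n = Nat.pair r x` is the request `(r, x)`), and `Opt_Q e r x` says that there is a
stage `s` of weight at most `1` with `Opt_h e s (Nat.pair r x)`.
`P r x := ∃ e r', r = r' + e + 1 ∧ Opt_Q e r' x` is r.e. of weight at most `1`. Let `U` be the
machine given by `kc`. If `M` is a prefix-free machine, the request set
`{(r, x) : ∃ σ, σ.length = r ∧ x ∈ M σ}` is r.e. of weight at most `1` by Kraft's inequality for
prefix-free sets of strings, so it is `Opt_Q e` for some `e`, and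
`cplx U x ≤ cplx M x + (e + 2)` (`OWR.cplx_le_iff`).
-/

namespace Cup

open Encodable OWR

/-- The `e`-th function halts at `n` in `s` steps. -/
private def Opt_h (e s n : ℕ) : Bool :=
  (Nat.Partrec.Code.evaln s (Denumerable.ofNat Nat.Partrec.Code e) n).isSome

private theorem Opt_h_prim : Primrec fun p : (ℕ × ℕ) × ℕ => Opt_h p.1.1 p.1.2 p.2 :=
  Primrec.option_isSome.comp (Nat.Partrec.Code.primrec_evaln.comp
    (((Primrec.snd.comp Primrec.fst).pair
      ((Primrec.ofNat Nat.Partrec.Code).comp (Primrec.fst.comp Primrec.fst))).pair Primrec.snd))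

private theorem Opt_h_lt {e s n : ℕ} (h : Opt_h e s n = true) : n < s := by
  obtain ⟨x, hx⟩ := Option.isSome_iff_exists.1 h
  exact Nat.Partrec.Code.evaln_bound hx

private theorem Opt_h_mono {e s t n : ℕ} (hst : s ≤ t) (h : Opt_h e s n = true) :
    Opt_h e t n = true := by
  obtain ⟨x, hx⟩ := Option.isSome_iff_exists.1 h
  exact Option.isSome_iff_exists.2 ⟨x, Nat.Partrec.Code.evaln_mono hst hx⟩

/-- `2 ^ s` times the weight of the requests below `m` seen at the stage `s`. -/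
private def Opt_w (e s m : ℕ) : ℕ :=
  Nat.rec (motive := fun _ => ℕ) 0
    (fun n a => a + bif Opt_h e s n then 2 ^ (s - n.unpair.1) else 0) m

private theorem Opt_w_prim : Primrec fun p : (ℕ × ℕ) × ℕ => Opt_w p.1.1 p.1.2 p.2 := by
  have h1 : Primrec₂ fun (p : ℕ × ℕ) (q : ℕ × ℕ) =>
      q.2 + bif Opt_h p.1 p.2 q.1 then 2 ^ (p.2 - q.1.unpair.1) else 0 := by
    have e1 : Primrec fun r : (ℕ × ℕ) × ℕ × ℕ => Opt_h r.1.1 r.1.2 r.2.1 :=
      Opt_h_prim.comp (Primrec.fst.pair (Primrec.fst.comp Primrec.snd))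
    have e2 : Primrec fun r : (ℕ × ℕ) × ℕ × ℕ => 2 ^ (r.1.2 - r.2.1.unpair.1) :=
      KC.prim_pow.comp (Primrec.const 2) (Primrec.nat_sub.comp (Primrec.snd.comp Primrec.fst)
        (Primrec.fst.comp (Primrec.unpair.comp (Primrec.fst.comp Primrec.snd))))
    exact Primrec.nat_add.comp (Primrec.snd.comp Primrec.snd)
      (Primrec.cond e1 e2 (Primrec.const 0))
  exact Primrec.nat_rec (Primrec.const 0) h1

private theorem Opt_w_eq (e s m : ℕ) (hm : m ≤ s) : (Opt_w e s m : ℝ) =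
    2 ^ s * ∑ n ∈ (Finset.range m).filter (fun n => Opt_h e s n = true),
      (2 : ℝ)⁻¹ ^ n.unpair.1 := by
  induction m with
  | zero => simp [Opt_w]
  | succ m ih =>
    have h1 : Opt_w e s (m + 1) = Opt_w e s m +
        bif Opt_h e s m then 2 ^ (s - m.unpair.1) else 0 := rfl
    rw [h1, Finset.sum_filter, Finset.sum_range_succ, ← Finset.sum_filter, mul_add,
      ← ih (by omega)]
    push_cast
    congr 1
    cases hh : Opt_h e s m with
    | false => simp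
    | true =>
      have h2 : m.unpair.1 ≤ s := (Nat.unpair_left_le m).trans (by omega)
      have h4 : (2 : ℝ) ^ s = 2 ^ (s - m.unpair.1) * 2 ^ m.unpair.1 := by
        rw [← pow_add, Nat.sub_add_cancel h2]
      simp only [cond_true, if_true]
      push_cast
      rw [h4, inv_pow]
      field_simp

/-- The `e`-th set of requests, cut off so that the weight is at most `1`. -/
private def Opt_Q (e r x : ℕ) : Prop :=
  ∃ s, Opt_h e s (Nat.pair r x) = true ∧ Opt_w e s s ≤ 2 ^ s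

private theorem Opt_Q_weight (e : ℕ) (F : Finset (ℕ × ℕ)) (hF : ∀ p ∈ F, Opt_Q e p.1 p.2) :
    ∑ p ∈ F, (2 : ℝ)⁻¹ ^ p.1 ≤ 1 := by
  classical
  rcases F.eq_empty_or_nonempty with rfl | hne
  · simp
  have h1 : ∀ p : ℕ × ℕ, ∃ s, p ∈ F → Opt_h e s (Nat.pair p.1 p.2) = true ∧
      Opt_w e s s ≤ 2 ^ s := by
    intro p
    by_cases hp : p ∈ F
    · obtain ⟨s, hs⟩ := hF p hp
      exact ⟨s, fun _ => hs⟩
    · exact ⟨0, fun h => absurd h hp⟩
  choose st hst using h1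
  obtain ⟨p0, hp0, hmax⟩ := Finset.exists_max_image F st hne
  set s := st p0 with hs
  have hw := (hst p0 hp0).2
  have hw2 := Opt_w_eq e s s le_rfl
  have hsub : F.image (fun p => Nat.pair p.1 p.2) ⊆
      (Finset.range s).filter (fun n => Opt_h e s n = true) := by
    intro n hn
    obtain ⟨p, hp, rfl⟩ := Finset.mem_image.1 hn
    have h2 := Opt_h_mono (hmax p hp) (hst p hp).1
    exact Finset.mem_filter.2 ⟨Finset.mem_range.2 (Opt_h_lt h2), h2⟩
  have h3 : ∑ p ∈ F, (2 : ℝ)⁻¹ ^ p.1 =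
      ∑ n ∈ F.image (fun p => Nat.pair p.1 p.2), (2 : ℝ)⁻¹ ^ n.unpair.1 := by
    rw [Finset.sum_image]
    · simp
    · intro a _ b _ hab
      have := Nat.pair_eq_pair.1 hab
      exact Prod.ext this.1 this.2
  have h4 : ∑ p ∈ F, (2 : ℝ)⁻¹ ^ p.1 ≤
      ∑ n ∈ (Finset.range s).filter (fun n => Opt_h e s n = true), (2 : ℝ)⁻¹ ^ n.unpair.1 := by
    rw [h3]
    exact Finset.sum_le_sum_of_subset_of_nonneg hsub fun _ _ _ => by positivity
  have h5 : (Opt_w e s s : ℝ) ≤ 2 ^ s := by exact_mod_cast hw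
  rw [hw2] at h5
  have h6 : (0 : ℝ) < 2 ^ s := by positivity
  have h7 := le_of_mul_le_mul_left (h5.trans_eq (mul_one _).symm) h6
  exact h4.trans h7

/-- The universal set of requests. -/
private def Opt_P (r x : ℕ) : Prop :=
  ∃ b : ℕ × ℕ × ℕ, r = b.2.1 + b.1 + 1 ∧ Opt_h b.1 b.2.2 (Nat.pair b.2.1 x) = true ∧
    Opt_w b.1 b.2.2 b.2.2 ≤ 2 ^ b.2.2

private theorem Opt_P_iff (r x : ℕ) : Opt_P r x ↔ ∃ e r', r = r' + e + 1 ∧ Opt_Q e r' x := by
  constructor
  · rintro ⟨⟨e, r', s⟩, h1, h2, h3⟩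
    exact ⟨e, r', h1, s, h2, h3⟩
  · rintro ⟨e, r', h1, s, h2, h3⟩
    exact ⟨(e, r', s), h1, h2, h3⟩

private theorem Opt_P_re : REPred fun p : ℕ × ℕ => Opt_P p.1 p.2 := by
  refine re_of_prim (α := ℕ × ℕ) (β := ℕ × ℕ × ℕ) (R := fun p b => p.1 = b.2.1 + b.1 + 1 ∧
    Opt_h b.1 b.2.2 (Nat.pair b.2.1 p.2) = true ∧ Opt_w b.1 b.2.2 b.2.2 ≤ 2 ^ b.2.2) ?_
  have be : Primrec fun q : (ℕ × ℕ) × ℕ × ℕ × ℕ => q.2.1 := Primrec.fst.comp Primrec.snd
  have br : Primrec fun q : (ℕ × ℕ) × ℕ × ℕ × ℕ => q.2.2.1 :=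
    Primrec.fst.comp (Primrec.snd.comp Primrec.snd)
  have bs : Primrec fun q : (ℕ × ℕ) × ℕ × ℕ × ℕ => q.2.2.2 :=
    Primrec.snd.comp (Primrec.snd.comp Primrec.snd)
  have h1 : PrimrecPred fun q : (ℕ × ℕ) × ℕ × ℕ × ℕ => q.1.1 = q.2.2.1 + q.2.1 + 1 :=
    Primrec.eq.comp (Primrec.fst.comp Primrec.fst)
      (Primrec.succ.comp (Primrec.nat_add.comp br be))
  have h2 : PrimrecPred fun q : (ℕ × ℕ) × ℕ × ℕ × ℕ =>
      Opt_h q.2.1 q.2.2.2 (Nat.pair q.2.2.1 q.1.2) = true := by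
    refine Primrec.eq.comp ?_ (Primrec.const true)
    exact Opt_h_prim.comp ((be.pair bs).pair
      (Primrec₂.natPair.comp br (Primrec.snd.comp Primrec.fst)))
  have h3 : PrimrecPred fun q : (ℕ × ℕ) × ℕ × ℕ × ℕ =>
      Opt_w q.2.1 q.2.2.2 q.2.2.2 ≤ 2 ^ q.2.2.2 :=
    Primrec.nat_le.comp (Opt_w_prim.comp ((be.pair bs).pair bs))
      (KC.prim_pow.comp (Primrec.const 2) bs)
  exact h1.and (h2.and h3)

private theorem Opt_P_weight (F : Finset (ℕ × ℕ)) (hF : ∀ p ∈ F, Opt_P p.1 p.2) :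
    ∑ p ∈ F, (2 : ℝ)⁻¹ ^ p.1 ≤ 1 := by
  classical
  have h1 : ∀ p : ℕ × ℕ, ∃ b : ℕ × ℕ, p ∈ F → p.1 = b.2 + b.1 + 1 ∧ Opt_Q b.1 b.2 p.2 := by
    intro p
    by_cases hp : p ∈ F
    · obtain ⟨e, r', h1, h2⟩ := (Opt_P_iff _ _).1 (hF p hp)
      exact ⟨(e, r'), fun _ => ⟨h1, h2⟩⟩
    · exact ⟨(0, 0), fun h => absurd h hp⟩
  choose b hb using h1
  obtain ⟨N, hN⟩ : ∃ N, ∀ p ∈ F, (b p).1 < N := by
    refine ⟨F.sup (fun p => (b p).1) + 1, fun p hp => ?_⟩
    exact Nat.lt_succ_of_le (Finset.le_sup (f := fun p => (b p).1) hp)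
  have h2 : ∑ p ∈ F, (2 : ℝ)⁻¹ ^ p.1 =
      ∑ e ∈ Finset.range N, ∑ p ∈ F.filter (fun p => (b p).1 = e), (2 : ℝ)⁻¹ ^ p.1 := by
    rw [Finset.sum_fiberwise_of_maps_to (fun p hp => Finset.mem_range.2 (hN p hp))]
  have h3 : ∀ e, ∑ p ∈ F.filter (fun p => (b p).1 = e), (2 : ℝ)⁻¹ ^ p.1 ≤
      (2 : ℝ)⁻¹ ^ (e + 1) := by
    intro e
    have e1 : ∀ p ∈ F.filter (fun p => (b p).1 = e), (2 : ℝ)⁻¹ ^ p.1 =
        (2 : ℝ)⁻¹ ^ (e + 1) * (2 : ℝ)⁻¹ ^ (b p).2 := by
      intro p hp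
      obtain ⟨hp1, hp2⟩ := Finset.mem_filter.1 hp
      rw [(hb p hp1).1, hp2, ← pow_add]
      congr 1
      ring
    rw [Finset.sum_congr rfl e1, ← Finset.mul_sum]
    have e2 : ∑ p ∈ F.filter (fun p => (b p).1 = e), (2 : ℝ)⁻¹ ^ (b p).2 =
        ∑ q ∈ (F.filter (fun p => (b p).1 = e)).image (fun p => ((b p).2, p.2)),
          (2 : ℝ)⁻¹ ^ q.1 := by
      rw [Finset.sum_image]
      intro p hp q hq hpq
      obtain ⟨hp1, hp2⟩ := Finset.mem_filter.1 hp
      obtain ⟨hq1, hq2⟩ := Finset.mem_filter.1 hq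
      simp only [Prod.mk.injEq] at hpq
      refine Prod.ext ?_ hpq.2
      rw [(hb p hp1).1, (hb q hq1).1, hp2, hq2, hpq.1]
    have e3 := Opt_Q_weight e ((F.filter (fun p => (b p).1 = e)).image
      (fun p => ((b p).2, p.2))) (by
        intro q hq
        obtain ⟨p, hp, rfl⟩ := Finset.mem_image.1 hq
        obtain ⟨hp1, hp2⟩ := Finset.mem_filter.1 hp
        have := (hb p hp1).2
        rw [hp2] at this
        exact this)
    rw [e2]
    have e4 : (0 : ℝ) ≤ (2 : ℝ)⁻¹ ^ (e + 1) := by positivity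
    calc (2 : ℝ)⁻¹ ^ (e + 1) * _ ≤ (2 : ℝ)⁻¹ ^ (e + 1) * 1 := mul_le_mul_of_nonneg_left e3 e4
      _ = _ := mul_one _
  rw [h2]
  have h4 : ∀ N : ℕ, ∑ e ∈ Finset.range N, (2 : ℝ)⁻¹ ^ (e + 1) = 1 - (2 : ℝ)⁻¹ ^ N := by
    intro N
    induction N with
    | zero => simp
    | succ N ih =>
      rw [Finset.sum_range_succ, ih, pow_succ]
      ring
  calc _ ≤ ∑ e ∈ Finset.range N, (2 : ℝ)⁻¹ ^ (e + 1) := Finset.sum_le_sum fun e _ => h3 e
    _ = 1 - (2 : ℝ)⁻¹ ^ N := h4 N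
    _ ≤ 1 := by
      have : (0 : ℝ) ≤ (2 : ℝ)⁻¹ ^ N := by positivity
      linarith

/-- The requests of a prefix-free machine. -/
private theorem Opt_machine (M : List Bool →. ℕ) (hM : PFMachine M) :
    ∃ e, ∀ σ x, x ∈ M σ → Opt_Q e σ.length x := by
  classical
  -- the request set is r.e.
  have hre : REPred fun n : ℕ => ∃ σ : List Bool, n.unpair.2 ∈ M σ ∧ σ.length = n.unpair.1 := by
    refine re_exists ?_
    refine re_and ?_ ?_
    · obtain ⟨c, hc⟩ := Nat.Partrec.Code.exists_code.1 hM.partrec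
      have hev : ∀ (σ : List Bool) (x : ℕ),
          x ∈ M σ ↔ x ∈ Nat.Partrec.Code.eval c (encode σ) := by
        intro σ x
        rw [hc]
        simp
      have hr : REPred fun q : ℕ × List Bool => ∃ s : ℕ,
          Nat.Partrec.Code.evaln s c (encode q.2) = some q.1.unpair.2 := by
        refine re_of_prim (α := ℕ × List Bool) (β := ℕ)
          (R := fun q s => Nat.Partrec.Code.evaln s c (encode q.2) = some q.1.unpair.2) ?_
        refine Primrec.eq.comp ?_ ?_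
        · exact Nat.Partrec.Code.primrec_evaln.comp ((Primrec.snd.pair (Primrec.const c)).pair
            (Primrec.encode.comp (Primrec.snd.comp Primrec.fst)))
        · exact Primrec.option_some.comp (Primrec.snd.comp (Primrec.unpair.comp
            (Primrec.fst.comp Primrec.fst)))
      refine hr.of_eq ?_
      intro q
      rw [hev, Nat.Partrec.Code.evaln_complete]
      rfl
    · refine re_of_primrec ?_
      exact Primrec.eq.comp (Primrec.list_length.comp Primrec.snd)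
        (Primrec.fst.comp (Primrec.unpair.comp Primrec.fst))
  -- its code
  obtain ⟨c, hc⟩ := Nat.Partrec.Code.exists_code.1 hre
  have hdom : ∀ n, (Nat.Partrec.Code.eval c n).Dom ↔
      ∃ σ : List Bool, n.unpair.2 ∈ M σ ∧ σ.length = n.unpair.1 := by
    intro n
    rw [hc]
    simp [Part.assert]
  refine ⟨encode c, fun σ x hx => ?_⟩
  have hcc : Denumerable.ofNat Nat.Partrec.Code (encode c) = c := Denumerable.ofNat_encode c
  have h1 : (Nat.Partrec.Code.eval c (Nat.pair σ.length x)).Dom := by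
    rw [hdom]
    exact ⟨σ, by simpa using hx, by simp⟩
  obtain ⟨y, hy⟩ := Part.dom_iff_mem.1 h1
  obtain ⟨s, hs⟩ := Nat.Partrec.Code.evaln_complete.1 hy
  refine ⟨s, ?_, ?_⟩
  · unfold Opt_h
    rw [hcc]
    exact Option.isSome_iff_exists.2 ⟨y, hs⟩
  · -- Kraft's inequality
    have hw := Opt_w_eq (encode c) s s le_rfl
    have h2 : ∀ n : ℕ, ∃ τ : List Bool, Opt_h (encode c) s n = true →
        n.unpair.2 ∈ M τ ∧ τ.length = n.unpair.1 := by
      intro n
      by_cases hn : Opt_h (encode c) s n = true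
      · obtain ⟨z, hz⟩ := Option.isSome_iff_exists.1 hn
        rw [hcc] at hz
        obtain ⟨τ, hτ⟩ := (hdom n).1 (Part.dom_iff_mem.2 ⟨z, Nat.Partrec.Code.evaln_sound hz⟩)
        exact ⟨τ, fun _ => hτ⟩
      · exact ⟨[], fun h => absurd h hn⟩
    choose τ hτ using h2
    have h3 : ∑ n ∈ (Finset.range s).filter (fun n => Opt_h (encode c) s n = true),
        (2 : ℝ)⁻¹ ^ n.unpair.1 ≤ 1 := by
      have e1 : ∀ n ∈ (Finset.range s).filter (fun n => Opt_h (encode c) s n = true),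
          (2 : ℝ)⁻¹ ^ n.unpair.1 = (2 : ℝ)⁻¹ ^ (τ n).length := by
        intro n hn
        rw [(hτ n (Finset.mem_filter.1 hn).2).2]
      have e2 : Set.InjOn τ
          ((Finset.range s).filter (fun n => Opt_h (encode c) s n = true) : Set ℕ) := by
        intro n hn l hl hnl
        have h4 := hτ n (Finset.mem_filter.1 hn).2
        have h5 := hτ l (Finset.mem_filter.1 hl).2
        rw [hnl] at h4
        rw [← Nat.pair_unpair n, ← Nat.pair_unpair l, Part.mem_unique h4.1 h5.1, ← h4.2, ← h5.2]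
      rw [Finset.sum_congr rfl e1, ← Finset.sum_image (f := fun σ : List Bool =>
        (2 : ℝ)⁻¹ ^ σ.length) e2]
      apply kraft_strings
      intro σ hσ ρ hρ hp
      obtain ⟨n, hn, rfl⟩ := Finset.mem_image.1 hσ
      obtain ⟨l, hl, rfl⟩ := Finset.mem_image.1 hρ
      exact hM.pf _ _ (Part.dom_iff_mem.2 ⟨_, (hτ n (Finset.mem_filter.1 hn).2).1⟩)
        (Part.dom_iff_mem.2 ⟨_, (hτ l (Finset.mem_filter.1 hl).2).1⟩) hp
    have h4 : (Opt_w (encode c) s s : ℝ) ≤ 2 ^ s := by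
      rw [hw]
      have h5 : (0 : ℝ) ≤ 2 ^ s := by positivity
      calc (2 : ℝ) ^ s * _ ≤ 2 ^ s * 1 := mul_le_mul_of_nonneg_left h3 h5
        _ = 2 ^ s := mul_one _
    exact_mod_cast h4

theorem exists_optimal : ∃ U : List Bool →. ℕ, Optimal U := by
  obtain ⟨U, hU, hUP⟩ := kc Opt_P Opt_P_re Opt_P_weight
  refine ⟨U, hU, fun M hM => ?_⟩
  obtain ⟨e, he⟩ := Opt_machine M hM
  refine ⟨e + 2, fun x => ?_⟩
  by_cases htop : cplx M x = ⊤
  · rw [htop, top_add]
    exact le_top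
  obtain ⟨r, hr⟩ := ENat.ne_top_iff_exists.1 htop
  obtain ⟨σ, h1, h2⟩ := (cplx_le_iff M x r).1 hr.ge
  have h3 := hUP (σ.length + e + 1) x ((Opt_P_iff _ _).2 ⟨e, σ.length, rfl, he σ x h1⟩)
  refine h3.trans ?_
  rw [← hr]
  have h4 : σ.length + e + 1 + 1 ≤ r + (e + 2) := by omega
  exact_mod_cast h4

end Cup
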