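import Pool.Agent.H59.Cup.Defs
import Pool.Agent.H77.OW.Stage

/-!
# Module ParCup: the parameters for the cupping theorem

Colours are `c = Nat.pair i (Nat.pair n x)`; `t m = m.unpair.2`. With
`WS e s x := (Nat.Partrec.Code.evaln s (Denumerable.ofNat Nat.Partrec.Code e) x).isSome`
(primitive recursive, monotone in `s`, `(∃ s, WS e s x) ↔ (phi e x).Dom`):
 `S c := ∃ s, WS i s x = true ∧ WS n s n = false`   (x enters W_i before n enters the halting set),
 `E c := ∃ s, WS n s n = true ∧ WS i s x = false`.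
Disjoint by monotonicity. Use `OWR.re_of_prim_nat`.
-/

namespace Cup

open Encodable OWR

/-- `x` enters the domain of the `e`-th function at stage `s`. -/
private def ParCup_WS (e s x : ℕ) : Bool :=
  (Nat.Partrec.Code.evaln s (Denumerable.ofNat Nat.Partrec.Code e) x).isSome

private theorem ParCup_mono {e s t x : ℕ} (h : s ≤ t) (hs : ParCup_WS e s x = true) :
    ParCup_WS e t x = true := by
  unfold ParCup_WS at hs ⊢
  simp only [Option.isSome_iff_exists] at hs ⊢
  obtain ⟨y, hy⟩ := hs
  exact ⟨y, Nat.Partrec.Code.evaln_mono h hy⟩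

private theorem ParCup_iff (e x : ℕ) : (∃ s, ParCup_WS e s x = true) ↔ (phi e x).Dom := by
  unfold ParCup_WS phi
  constructor
  · rintro ⟨s, hs⟩
    obtain ⟨y, hy⟩ := Option.isSome_iff_exists.1 hs
    exact Part.dom_iff_mem.2 ⟨y, Nat.Partrec.Code.evaln_sound hy⟩
  · intro h
    obtain ⟨y, hy⟩ := Part.dom_iff_mem.1 h
    obtain ⟨k, hk⟩ := Nat.Partrec.Code.evaln_complete.1 hy
    exact ⟨k, Option.isSome_iff_exists.2 ⟨y, hk⟩⟩

private theorem ParCup_prim {α : Type*} [Primcodable α] {e s x : α → ℕ} (he : Primrec e)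
    (hs : Primrec s) (hx : Primrec x) : Primrec fun a => ParCup_WS (e a) (s a) (x a) := by
  unfold ParCup_WS
  exact Primrec.option_isSome.comp (Nat.Partrec.Code.primrec_evaln.comp
    ((hs.pair ((Primrec.ofNat Nat.Partrec.Code).comp he)).pair hx))

theorem exists_parCup : ∃ P : Par,
    (∀ i n x, (phi n n).Dom → ¬ (phi i x).Dom → P.E (Nat.pair i (Nat.pair n x))) ∧
    (∀ i n x, ¬ (phi n n).Dom → (P.S (Nat.pair i (Nat.pair n x)) ↔ (phi i x).Dom)) ∧
    (∀ i n x, ¬ (phi n n).Dom → ¬ P.E (Nat.pair i (Nat.pair n x))) := by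
  have hi : Primrec fun p : ℕ × ℕ => p.1.unpair.1 :=
    Primrec.fst.comp (Primrec.unpair.comp Primrec.fst)
  have hn : Primrec fun p : ℕ × ℕ => p.1.unpair.2.unpair.1 :=
    Primrec.fst.comp (Primrec.unpair.comp (Primrec.snd.comp (Primrec.unpair.comp Primrec.fst)))
  have hx : Primrec fun p : ℕ × ℕ => p.1.unpair.2.unpair.2 :=
    Primrec.snd.comp (Primrec.unpair.comp (Primrec.snd.comp (Primrec.unpair.comp Primrec.fst)))
  have hA : Primrec fun p : ℕ × ℕ => ParCup_WS p.1.unpair.1 p.2 p.1.unpair.2.unpair.2 :=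
    ParCup_prim hi Primrec.snd hx
  have hB : Primrec fun p : ℕ × ℕ =>
      ParCup_WS p.1.unpair.2.unpair.1 p.2 p.1.unpair.2.unpair.1 :=
    ParCup_prim hn Primrec.snd hn
  have hS : REPred fun c : ℕ => ∃ s, (ParCup_WS c.unpair.1 s c.unpair.2.unpair.2 &&
      !ParCup_WS c.unpair.2.unpair.1 s c.unpair.2.unpair.1) = true :=
    re_of_prim_nat (f := fun (c s : ℕ) => ParCup_WS c.unpair.1 s c.unpair.2.unpair.2 &&
      !ParCup_WS c.unpair.2.unpair.1 s c.unpair.2.unpair.1)
      (Primrec.and.comp hA (Primrec.not.comp hB))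
  have hE : REPred fun c : ℕ => ∃ s, (ParCup_WS c.unpair.2.unpair.1 s c.unpair.2.unpair.1 &&
      !ParCup_WS c.unpair.1 s c.unpair.2.unpair.2) = true :=
    re_of_prim_nat (f := fun (c s : ℕ) => ParCup_WS c.unpair.2.unpair.1 s c.unpair.2.unpair.1 &&
      !ParCup_WS c.unpair.1 s c.unpair.2.unpair.2)
      (Primrec.and.comp hB (Primrec.not.comp hA))
  refine ⟨{ t := fun m => m.unpair.2
            ht := (Primrec.snd.comp Primrec.unpair).to_comp
            inf := fun c N => ⟨Nat.pair N c, Nat.left_le_pair N c, by simp⟩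
            S := _
            E := _
            hS := hS
            hE := hE
            disj := ?_ }, ?_, ?_, ?_⟩
  · rintro c ⟨⟨s, h1⟩, ⟨s', h2⟩⟩
    simp only [Bool.and_eq_true, Bool.not_eq_true'] at h1 h2
    rcases le_total s s' with h | h
    · have := ParCup_mono h h1.1
      rw [h2.2] at this
      exact absurd this (by simp)
    · have := ParCup_mono h h2.1
      rw [h1.2] at this
      exact absurd this (by simp)
  · intro i n x h1 h2
    obtain ⟨s, hs⟩ := (ParCup_iff n n).2 h1
    refine ⟨s, ?_⟩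
    simp only [Nat.unpair_pair, Bool.and_eq_true, Bool.not_eq_true']
    refine ⟨hs, ?_⟩
    by_contra hcon
    rw [Bool.not_eq_false] at hcon
    exact h2 ((ParCup_iff i x).1 ⟨s, hcon⟩)
  · intro i n x h1
    rw [← ParCup_iff]
    simp only [Nat.unpair_pair, Bool.and_eq_true, Bool.not_eq_true']
    constructor
    · rintro ⟨s, hs, -⟩
      exact ⟨s, hs⟩
    · rintro ⟨s, hs⟩
      refine ⟨s, hs, ?_⟩
      by_contra hcon
      rw [Bool.not_eq_false] at hcon
      exact h1 ((ParCup_iff n n).1 ⟨s, hcon⟩)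
  · rintro i n x h1 ⟨s, hs⟩
    simp only [Nat.unpair_pair, Bool.and_eq_true, Bool.not_eq_true'] at hs
    exact h1 ((ParCup_iff n n).1 ⟨s, hs.1⟩)

/-- Parameters for which all colours are safe. -/
theorem exists_parAll : ∃ P : Par, ∀ c, P.S c := by
  refine ⟨{ t := fun m => m.unpair.2
            ht := (Primrec.snd.comp Primrec.unpair).to_comp
            inf := fun c N => ⟨Nat.pair N c, Nat.left_le_pair N c, by simp⟩
            S := fun _ => True
            E := fun _ => False
            hS := ?_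
            hE := ?_
            disj := fun _ h => h.2 }, fun _ => trivial⟩
  · exact (ComputablePred.computable_iff.2 ⟨fun _ => true, Computable.const true, by
      funext a
      simp⟩ : ComputablePred fun _ : ℕ => True).to_re
  · exact (ComputablePred.computable_iff.2 ⟨fun _ => false, Computable.const false, by
      funext a
      simp⟩ : ComputablePred fun _ : ℕ => False).to_re

end Cup
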