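import Pool.Agent.H59.Cup.Dec
import Pool.Agent.H59.Cup.Turing
import Pool.Agent.H59.Cup.ReUtil

/-!
# Module Trace: generic sets are computably traceable

Let `h` be an order and `f ≤_T A`; by `func_of_computableIn` `F` computes `f` from `A`. Let
`g` be a computable function such that for all `k`: `k ≤ g k`... precisely we want: `g` computable,
unbounded and nondecreasing, and for `j ≥ g k`: `2 ^ (k + 1) ≤ h j`
(for instance `g k := k + ` the least `m` with `2 ^ (k + 1) ≤ h m`; computable with `Nat.rfind`,
total since `h` is unbounded). Take `q` with `DecR F g q`, `Through q A`. The first alternative is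
impossible (take `y` alive and long enough with `q.T y` an initial segment of `A` containing the
use at `m`; `F.mono`). So the second holds. For `j` let `k(j)` be the least `k ≥ q.s.length` with
`j < g k` (computable). If `k(j) = q.s.length` the only alive string of this length is `q.s`, and
`1 ≤ h j`; otherwise `j ≥ g (k(j) - 1)` so `2 ^ k(j) ≤ h j`. The trace: for `j` let `L j` be the list of
all strings `y` of length `k(j)` extending `q.s` (at most `2 ^ k(j)`, one if `k(j) = q.s.length`),
and for each of them find, by a computable selector, an element of the r.e. total relation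
`(flag = true ∧ F.R (q.T y) j v) ∨ (flag = false ∧ (¬ legit P y ∨ q.Bad y))`, and put `v` in the
list `T j` (put `0` if the flag is false; the length is at most that of `L j`). The value `f j` is in
the list: take the alive `y` of length `k(j)` with `q.T y` an initial segment of `A`
(`through_length`).
-/

namespace Cup

open Encodable OWR

variable {P : Par}

/-- Computable search for the least witness. -/
private theorem tr_find {p : ℕ → ℕ → Bool} (hp : Computable₂ p)
    (h : ∀ j, ∃ k, p j k = true) :
    ∃ f : ℕ → ℕ, Computable f ∧ ∀ j, p j (f j) = true ∧ ∀ k < f j, p j k = false := by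
  classical
  refine ⟨fun j => Nat.find (h j), ?_, fun j => ⟨Nat.find_spec (h j), fun k hk => ?_⟩⟩
  · have h3 : Partrec (fun a : ℕ => Nat.rfind ((p a : ℕ → Bool) : ℕ →. Bool)) :=
      Partrec.rfind hp.partrec₂
    refine h3.of_eq_tot fun j => ?_
    refine Nat.mem_rfind.2 ⟨?_, fun {m} hm => ?_⟩
    · exact Part.mem_some_iff.2 (Nat.find_spec (h j)).symm
    · have h4 : p j m = false := by simpa using Nat.find_min (h j) hm
      exact Part.mem_some_iff.2 h4.symm
  · simpa using Nat.find_min (h j) hk

/-- Mapping a computable function over a computable list. -/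
private theorem tr_map {s : ℕ → Str → ℕ} (hs : Computable₂ s) {l : ℕ → List Str}
    (hl : Computable l) : Computable fun j => (l j).map (s j) := by
  have h1 : Computable fun j => Nat.rec (motive := fun _ => List ℕ) []
      (fun i IH => IH ++ [s j (((l j)[i]?).getD [])]) (l j).length := by
    refine Computable.nat_rec
      (h := fun j (q : ℕ × List ℕ) => q.2 ++ [s j (((l j)[q.1]?).getD [])])
      (Computable.list_length.comp hl) (Computable.const []) ?_
    refine Computable.list_concat.comp (Computable.snd.comp Computable.snd) ?_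
    refine hs.comp Computable.fst ?_
    refine Computable.option_getD ?_ (Computable.const [])
    exact Computable.list_getElem?.comp (hl.comp Computable.fst)
      (Computable.fst.comp Computable.snd)
  refine h1.of_eq fun j => ?_
  have key : ∀ n, n ≤ (l j).length → Nat.rec (motive := fun _ => List ℕ) []
      (fun i IH => IH ++ [s j (((l j)[i]?).getD [])]) n = ((l j).take n).map (s j) := by
    intro n
    induction n with
    | zero => intro _; simp
    | succ n ih =>
      intro hn
      have hlt : n < (l j).length := hn
      have ih' := ih (by omega)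
      simp only at ih' ⊢
      rw [ih', List.getElem?_eq_getElem hlt, List.take_succ_eq_append_getElem hlt,
        List.map_append]
      rfl
  rw [key _ le_rfl, List.take_length]

/-- The list of all strings of length `n`. -/
private def tr_all (n : ℕ) : List Str :=
  Nat.rec [[]] (fun _ l => l.map (fun z => z ++ [false]) ++ l.map (fun z => z ++ [true])) n

private theorem tr_all_succ (n : ℕ) : tr_all (n + 1) =
    (tr_all n).map (fun z => z ++ [false]) ++ (tr_all n).map (fun z => z ++ [true]) := rfl

private theorem tr_all_length (n : ℕ) : (tr_all n).length = 2 ^ n := by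
  induction n with
  | zero => rfl
  | succ n ih => rw [tr_all_succ, List.length_append, List.length_map, List.length_map, ih]; ring

private theorem tr_mem_all (n : ℕ) : ∀ z : Str, z.length = n → z ∈ tr_all n := by
  induction n with
  | zero =>
    intro z hz
    rw [List.length_eq_zero_iff] at hz
    subst hz
    exact List.mem_singleton.2 rfl
  | succ n ih =>
    intro z hz
    obtain ⟨z', b, rfl⟩ : ∃ z' b, z = z' ++ [b] := by
      rcases List.eq_nil_or_concat z with h | ⟨z', b, h⟩
      · subst h; simp at hz
      · exact ⟨z', b, by simpa using h⟩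
    have hz' : z'.length = n := by simpa using hz
    rw [tr_all_succ, List.mem_append, List.mem_map, List.mem_map]
    cases b
    · exact Or.inl ⟨z', ih z' hz', rfl⟩
    · exact Or.inr ⟨z', ih z' hz', rfl⟩

private theorem tr_all_primrec : Primrec tr_all := by
  have h1 : ∀ b : Bool, Primrec₂ fun (_ : ℕ) (l : List Str) => l.map (fun z => z ++ [b]) := by
    intro b
    refine Primrec.list_map Primrec.snd ?_
    exact Primrec.list_concat.comp Primrec.snd (Primrec.const b)
  have h2 : Primrec₂ fun (_ : ℕ) (l : List Str) =>
      l.map (fun z => z ++ [false]) ++ l.map (fun z => z ++ [true]) :=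
    Primrec.list_append.comp (h1 false) (h1 true)
  exact Primrec.nat_rec₁ [[]] h2

private theorem tr_pow : Primrec fun k : ℕ => 2 ^ (k + 1) := by
  have h2 : Primrec₂ fun (_ : ℕ) (l : ℕ) => l * 2 :=
    Primrec.nat_mul.comp Primrec.snd (Primrec.const 2)
  refine (Primrec.nat_rec₁ 2 h2).of_eq fun n => ?_
  induction n with
  | zero => rfl
  | succ n ih => simp only at ih ⊢; rw [ih]; ring

private theorem tr_le {f g : ℕ → ℕ → ℕ} (hf : Computable₂ f) (hg : Computable₂ g) :
    Computable₂ fun j k => decide (f j k ≤ g j k) :=
  Primrec.nat_le.decide.to_comp.comp hf hg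

theorem trace_of_through {A : ℕ → Bool}
    (h : ∀ (F : Func) (g : {g : ℕ → ℕ // Computable g}), ∃ q : Cond P, DecR F g.1 q ∧
      Through q A) : CompTraceable A := by
  intro H hH hmono hunb hpos f hf
  obtain ⟨F, hF⟩ := func_of_computableIn hf
  obtain ⟨m, hm, hmspec⟩ := tr_find (p := fun k m => decide (2 ^ (k + 1) ≤ H m))
    (tr_le (f := fun k _ => 2 ^ (k + 1)) (g := fun _ m => H m)
      (tr_pow.to_comp.comp Computable.fst) (hH.comp Computable.snd))
    (fun k => by
      obtain ⟨n, hn⟩ := hunb (2 ^ (k + 1))
      exact ⟨n, by simpa using hn⟩)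
  have hm2 : ∀ k, 2 ^ (k + 1) ≤ H (m k) := fun k => by simpa using (hmspec k).1
  set g : ℕ → ℕ := fun k => k + m k with hgdef
  have hg : Computable g := Primrec.nat_add.to_comp.comp Computable.id hm
  obtain ⟨q, hdec, hthr⟩ := h F ⟨g, hg⟩
  rcases hdec with ⟨m₀, hm₀⟩ | htot
  · exfalso
    obtain ⟨k, hk⟩ := (hF m₀ (f m₀)).2 rfl
    obtain ⟨y, hky, hy, hTy⟩ := hthr k
    refine hm₀ y hy (f m₀) ?_
    rw [hTy]
    exact F.mono _ _ _ _ (pre_isPre A (hky.trans (length_le_T q y))) hk
  -- the levels
  obtain ⟨K, hK, hKspec⟩ := tr_find (p := fun j k => decide (j + 1 ≤ g (q.s.length + k)))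
    (tr_le (f := fun j _ => j + 1) (g := fun _ k => g (q.s.length + k))
      (Computable.succ.comp Computable.fst)
      (hg.comp (Primrec.nat_add.to_comp.comp (Computable.const _) Computable.snd)))
    (fun j => ⟨j + 1, by
      have : j + 1 ≤ g (q.s.length + (j + 1)) := by simp only [hgdef]; omega
      simpa using this⟩)
  have hK1 : ∀ j, j < g (q.s.length + K j) := fun j => by simpa using (hKspec j).1
  have hK2 : ∀ j k, k < K j → g (q.s.length + k) ≤ j := fun j k hk => by
    have := (hKspec j).2 k hk
    simp only [decide_eq_false_iff_not, not_le] at this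
    omega
  -- the selector
  obtain ⟨sel, hsel, hselR⟩ := exists_selector (α := ℕ × Str) (β := ℕ)
    (R := fun a v => F.R (q.T (q.s ++ a.2)) a.1 v ∨ ¬ legit P (q.s ++ a.2) ∨
      q.Bad (q.s ++ a.2) ∨ g (q.s ++ a.2).length ≤ a.1) (by
    have hy : Computable fun a : (ℕ × Str) × ℕ => q.s ++ a.1.2 :=
      Primrec.list_append.to_comp.comp (Computable.const q.s)
        (Computable.snd.comp Computable.fst)
    have hj : Computable fun a : (ℕ × Str) × ℕ => a.1.1 :=
      Computable.fst.comp Computable.fst
    refine re_or ?_ (re_or ?_ (re_or ?_ ?_))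
    · exact re_comp F.re (f := fun a : (ℕ × Str) × ℕ => (q.T (q.s ++ a.1.2), a.1.1, a.2))
        ((q.hT.comp hy).pair (hj.pair Computable.snd))
    · exact re_comp (re_ill P) hy
    · exact re_comp q.hBad hy
    · exact re_comp (re_of_primrec (p := fun a : ℕ × ℕ => a.1 ≤ a.2) Primrec.nat_le)
        (f := fun a : (ℕ × Str) × ℕ => (g (q.s ++ a.1.2).length, a.1.1))
        ((hg.comp (Computable.list_length.comp hy)).pair hj)) (by
    intro a
    by_cases h1 : legit P (q.s ++ a.2)
    · by_cases h2 : q.Bad (q.s ++ a.2)
      · exact ⟨0, Or.inr (Or.inr (Or.inl h2))⟩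
      · by_cases h3 : a.1 < g (q.s ++ a.2).length
        · obtain ⟨v, hv⟩ := htot (q.s ++ a.2) ⟨List.prefix_append _ _, h1, h2⟩ a.1 h3
          exact ⟨v, Or.inl hv⟩
        · exact ⟨0, Or.inr (Or.inr (Or.inr (not_lt.1 h3)))⟩
    · exact ⟨0, Or.inr (Or.inl h1)⟩)
  refine ⟨fun j => (tr_all (K j)).map (fun z => sel (j, z)), ?_, fun j => ⟨?_, ?_⟩⟩
  · exact tr_map (s := fun j z => sel (j, z)) hsel (tr_all_primrec.to_comp.comp hK)
  · rw [List.length_map, tr_all_length]
    rcases Nat.eq_zero_or_pos (K j) with h0 | h0
    · rw [h0]
      simpa using hpos j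
    · obtain ⟨k, hk⟩ : ∃ k, K j = k + 1 := ⟨K j - 1, by omega⟩
      have h1 := hK2 j k (by omega)
      have h2 : m (q.s.length + k) ≤ j := le_trans (Nat.le_add_left _ _) h1
      calc 2 ^ K j ≤ 2 ^ (q.s.length + k + 1) := Nat.pow_le_pow_right (by norm_num) (by omega)
        _ ≤ H (m (q.s.length + k)) := hm2 _
        _ ≤ H j := hmono h2
  · obtain ⟨y, hyl, hya, hTy⟩ := through_length hthr (j := q.s.length + K j) (by omega)
    obtain ⟨z, rfl⟩ := hya.1
    have hzl : z.length = K j := by
      rw [List.length_append] at hyl
      omega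
    refine List.mem_map.2 ⟨z, tr_mem_all _ z hzl, ?_⟩
    rcases hselR (j, z) with h1 | h1 | h1 | h1
    · refine (hF j (sel (j, z))).1 ⟨(q.T (q.s ++ z)).length, ?_⟩
      rw [← hTy]
      exact h1
    · exact absurd hya.2.1 h1
    · exact absurd h1 hya.2.2
    · exfalso
      have h2 := hK1 j
      simp only at h1
      rw [hyl] at h1
      omega

end Cup
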