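import Pool.Agent.H59.Cup.Gen
import Pool.Agent.H59.Cup.Trace
import Pool.Agent.H59.Cup.Minimal
import Pool.Agent.H59.Cup.CodeD
import Pool.Agent.H59.Cup.NonCup
import Pool.Agent.H59.Cup.Count
import Pool.Agent.H59.Cup.ParCup
import Pool.Agent.H59.Cup.Decode
import Pool.Agent.H59.Cup.Opt
import Pool.Agent.H59.Cup.KTE
import Pool.Agent.H59.Cup.KInc

/-!
# Project CUP: the final theorems
-/

namespace Cup

open Encodable OWR

theorem exists_ktrivial :
    ∃ B : ℕ → Bool, (REPred fun x => B x = true) ∧ ¬ Computable B ∧ KTrivial B := by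
  obtain ⟨U, hU⟩ := exists_optimal
  obtain ⟨S, hS⟩ := ksys_of_optimal U hU
  obtain ⟨B, h1, h2, b, h3⟩ := exists_ce_ktrivial S
  refine ⟨B, h1, h2, U, hU, b, fun n => ?_⟩
  by_cases hr : cplx U n = ⊤
  · rw [hr]; simp
  · obtain ⟨r, hr⟩ := ENat.ne_top_iff_exists.1 hr
    have h4 := (hS n r).2 hr.symm.le
    have h5 := (hS _ _).1 (h3 n r h4)
    rw [← hr]
    exact_mod_cast h5

theorem part_one : ∃ A : ℕ → Bool, MinimalDeg A ∧ CompTraceable A ∧
    ∀ B : ℕ → Bool, (REPred fun x => B x = true) → ¬ Computable B → Complete (join A B) := by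
  classical
  obtain ⟨P, h1, h2, h3⟩ := exists_parCup
  obtain ⟨p0⟩ := exists_cond P
  let ι : Type := (Func × {g : ℕ → ℕ // Computable g}) ⊕ (Func ⊕ (ℕ × ℕ))
  let Rq : ι → Cond P → Prop := fun i q => match i with
    | Sum.inl (F, g) => DecR F g.1 q
    | Sum.inr (Sum.inl F) => MinR F q
    | Sum.inr (Sum.inr (i, n)) => ¬ (phi n n).Dom → (¬ REPred fun x => ¬ (phi i x).Dom) →
        ∃ x m, ¬ (phi i x).Dom ∧ P.t m = Nat.pair i (Nat.pair n x) ∧ (q.T q.s)[m]? = some true
  have hd : ∀ i p, ∃ q, Ext q p ∧ Rq i q := by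
    rintro (⟨F, g⟩ | F | ⟨i, n⟩) p
    · exact dec_dense F g.2 p
    · exact min_dense F p
    · by_cases hn : (phi n n).Dom
      · exact ⟨p, ext_refl p, fun h => absurd hn h⟩
      by_cases hi : REPred fun x => ¬ (phi i x).Dom
      · exact ⟨p, ext_refl p, fun _ h => absurd hi h⟩
      have hc : Computable fun x : ℕ => Nat.pair i (Nat.pair n x) :=
        (Primrec₂.natPair.comp (Primrec.const i)
          (Primrec₂.natPair.comp (Primrec.const n) Primrec.id)).to_comp
      obtain ⟨q, hq, x, m, h4, h5, h6⟩ := code_dense (P := P) (fun x => Nat.pair i (Nat.pair n x))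
        hc (fun x => h3 i n x hn) (by simpa only [h2 i n _ hn] using hi) p
      exact ⟨q, hq, fun _ _ => ⟨x, m, by simpa only [h2 i n x hn] using h4, h5, h6⟩⟩
  obtain ⟨A, hA0, hA⟩ := exists_generic Rq hd p0
  have hcup : ∀ B : ℕ → Bool, (REPred fun x => B x = true) → ¬ Computable B →
      Complete (join A B) := by
    intro B hB hBc
    refine complete_of_codes h1 (through_legit hA0) hB hBc ?_
    intro i n hn hi
    obtain ⟨q, hq, hqA⟩ := hA (Sum.inr (Sum.inr (i, n)))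
    obtain ⟨x, m, h4, h5, h6⟩ := hq hn hi
    refine ⟨x, m, h4, h5, ?_⟩
    rw [through_stem hqA] at h6
    obtain ⟨h7, h8⟩ := List.getElem?_eq_some_iff.1 h6
    simpa [pre] using h8
  refine ⟨A, minimal_of_through (fun F => hA (Sum.inr (Sum.inl F))) ?_,
    trace_of_through (fun F g => hA (Sum.inl (F, g))), hcup⟩
  intro hAc
  obtain ⟨B, hB1, hB2, hB3⟩ := exists_ktrivial
  exact not_complete_of_ktrivial hB3 (tle_of_join_computable hAc (hcup B hB1 hB2))

theorem part_two : ∃ A : ℕ → Bool, MinimalDeg A ∧ CompTraceable A ∧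
    ∀ B : ℕ → Bool, KTrivial B → ¬ Complete (join A B) := by
  classical
  obtain ⟨P, hS⟩ := exists_parAll
  obtain ⟨p0⟩ := exists_cond P
  have : Countable {B : ℕ → Bool // KTrivial B} := countable_ktrivial.to_subtype
  let ι : Type := (Func × {g : ℕ → ℕ // Computable g}) ⊕ (Func ⊕
    ((Func × {B : ℕ → Bool // KTrivial B}) ⊕ {g : ℕ → Bool // Computable g}))
  let Rq : ι → Cond P → Prop := fun i q => match i with
    | Sum.inl (F, g) => DecR F g.1 q
    | Sum.inr (Sum.inl F) => MinR F q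
    | Sum.inr (Sum.inr (Sum.inl (F, B))) => ∀ A, Through q A →
      ¬ ∀ x y, (∃ k, F.R (pre (join A B.1) k) x y) ↔ y = (Halt x).toNat
    | Sum.inr (Sum.inr (Sum.inr g)) => ∀ A, Through q A → A ≠ g.1
  have hd : ∀ i p, ∃ q, Ext q p ∧ Rq i q := by
    rintro (⟨F, g⟩ | F | ⟨F, B⟩ | g) p
    · exact dec_dense F g.2 p
    · exact min_dense F p
    · exact noncup_dense hS B.1 (not_complete_of_ktrivial B.2) F p
    · exact noncomp_dense hS g.1 p
  obtain ⟨A, hA0, hA⟩ := exists_generic Rq hd p0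
  refine ⟨A, minimal_of_through (fun F => hA (Sum.inr (Sum.inl F))) ?_,
    trace_of_through (fun F g => hA (Sum.inl (F, g))), ?_⟩
  · intro hAc
    obtain ⟨q, hq, hqA⟩ := hA (Sum.inr (Sum.inr (Sum.inr ⟨A, hAc⟩)))
    exact hq A hqA rfl
  · intro B hB hcomp
    obtain ⟨F, hF⟩ := func_of_tle hcomp
    obtain ⟨q, hq, hqA⟩ := hA (Sum.inr (Sum.inr (Sum.inl (F, ⟨B, hB⟩))))
    exact hq A hqA hF

end Cup
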