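import Pool.Agent.H59.Cup.Basic

/-!
# Module Gen: generic sets

Enumerate the countable index type (`exists_surjective_nat` or `Countable`/`Encodable`; treat the
empty type separately or index the requirements by `Option ι`). Build a sequence `p k` with
`p 0 = p0`, `Ext (p (k+1)) (p k)`, where `p (k+1)` is obtained from `p k` by the density of the
`k`-th requirement followed by `grow`; keep in the data a condition `q k` with `Rq i (q k)` and
`Ext (p (k+1)) (q k)`. The stems have length at least `k`, hence so have the strings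
`(p k).T (p k).s`, which form a chain for `<+:` (`Ext`: `(p l).T (p l).s = (p k).T (θ (p l).s)` with
`(p k).s <+: θ (p l).s`, and `T_mono`). Let `A` be the limit. For `Through q A`, use `Ext (p l) q` for
large `l` with its `θ`: the node `θ (p l).s` is alive, of length at least `l`, and is mapped by
`q.T` to the initial segment `(p l).T (p l).s` of `A`.
-/

namespace Cup

open Encodable OWR

variable {P : Par}

private theorem Gen_grow (p : Cond P) (N : ℕ) : ∃ q : Cond P, Ext q p ∧ N ≤ q.s.length := by
  induction N with
  | zero => exact ⟨p, ext_refl p, Nat.zero_le _⟩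
  | succ N ih =>
    obtain ⟨q, hq, hN⟩ := ih
    obtain ⟨r, hr, -, hs, -⟩ := grow q
    refine ⟨r, ext_trans hr hq, ?_⟩
    rw [hs]
    simp
    exact hN

private theorem Gen_le {q p : Cond P} (h : Ext q p) : p.T p.s <+: q.T q.s := by
  obtain ⟨θ, h1, h2, h3, h4⟩ := h
  rw [h1]
  exact T_mono p (h4 _ (alive_stem q)).1

private theorem Gen_pre (σ : ℕ → Str) (hch : ∀ k l, k ≤ l → σ k <+: σ l)
    (hlen : ∀ k, k ≤ (σ k).length) :
    ∃ A : ℕ → Bool, ∀ k, σ k = pre A (σ k).length := by
  refine ⟨fun n => (σ (n + 1))[n]?.getD false, fun k => ?_⟩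
  apply List.ext_getElem?
  intro n
  by_cases hn : n < (σ k).length
  · have h1 : (pre (fun n => (σ (n + 1))[n]?.getD false) (σ k).length)[n]? =
        some ((σ (n + 1))[n]?.getD false) := by
      unfold pre
      rw [List.getElem?_map, List.getElem?_range hn]
      rfl
    rw [h1]
    have h2 : n < (σ (n + 1)).length := lt_of_lt_of_le (Nat.lt_succ_self n) (hlen (n + 1))
    have h3 : (σ k)[n]? = (σ (n + 1))[n]? := by
      rcases le_total k (n + 1) with h | h
      · obtain ⟨t, ht⟩ := hch _ _ h
        rw [← ht, List.getElem?_append_left hn]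
      · obtain ⟨t, ht⟩ := hch _ _ h
        rw [← ht, List.getElem?_append_left h2]
    rw [h3, List.getElem?_eq_getElem h2]
    rfl
  · rw [List.getElem?_eq_none (by omega), List.getElem?_eq_none]
    unfold pre
    simp
    omega

theorem exists_generic {ι : Type} [Countable ι] (Rq : ι → Cond P → Prop)
    (hd : ∀ i p, ∃ q, Ext q p ∧ Rq i q) (p0 : Cond P) :
    ∃ A : ℕ → Bool, Through p0 A ∧ ∀ i, ∃ q, Rq i q ∧ Through q A := by
  classical
  obtain ⟨e, he⟩ := exists_surjective_nat (Option ι)
  have step : ∀ (k : ℕ) (p : Cond P), ∃ r : Cond P × Cond P, Ext r.1 p ∧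
      (∀ i, e k = some i → Rq i r.1) ∧ Ext r.2 r.1 ∧ k + 1 ≤ r.2.s.length := by
    intro k p
    have h1 : ∃ q, Ext q p ∧ ∀ i, e k = some i → Rq i q := by
      cases h : e k with
      | none => exact ⟨p, ext_refl p, fun i hi => by simp at hi⟩
      | some i =>
        obtain ⟨q, hq, hr⟩ := hd i p
        refine ⟨q, hq, fun j hj => ?_⟩
        have : i = j := by simpa using hj
        rw [← this]
        exact hr
    obtain ⟨q, hq, hr⟩ := h1
    obtain ⟨q', hq', hl⟩ := Gen_grow q (k + 1)
    exact ⟨(q, q'), hq, hr, hq', hl⟩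
  choose F hF using step
  let p : ℕ → Cond P := fun n => Nat.rec p0 (fun k q => (F k q).2) n
  have hp0 : p 0 = p0 := rfl
  have hps : ∀ k, p (k + 1) = (F k (p k)).2 := fun _ => rfl
  have hext : ∀ k, Ext (p (k + 1)) (p k) := by
    intro k
    rw [hps]
    exact ext_trans (hF k (p k)).2.2.1 (hF k (p k)).1
  have hextl : ∀ k l, k ≤ l → Ext (p l) (p k) := by
    intro k l h
    induction l, h using Nat.le_induction with
    | base => exact ext_refl _
    | succ l _ ih => exact ext_trans (hext l) ih
  have hlen : ∀ k, k ≤ (p k).s.length := by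
    intro k
    cases k with
    | zero => exact Nat.zero_le _
    | succ k =>
      rw [hps]
      exact (hF k (p k)).2.2.2
  obtain ⟨A, hA⟩ := Gen_pre (fun k => (p k).T (p k).s)
    (fun k l h => Gen_le (hextl k l h))
    (fun k => (hlen k).trans (length_le_T (p k) (p k).s))
  have hthr : ∀ (q : Cond P) (k : ℕ), (∀ l, k ≤ l → Ext (p l) q) → Through q A := by
    intro q k hq j
    obtain ⟨θ, h1, h2, h3, h4⟩ := hq (max k j) (le_max_left _ _)
    refine ⟨θ (p (max k j)).s, ?_, h4 _ (alive_stem _), ?_⟩
    · exact (le_max_right k j).trans ((hlen _).trans (h3 _))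
    · rw [← h1]
      exact hA (max k j)
  refine ⟨A, hthr p0 0 (fun l hl => ?_), fun i => ?_⟩
  · rw [← hp0]
    exact hextl 0 l hl
  · obtain ⟨k, hk⟩ := he (some i)
    refine ⟨(F k (p k)).1, (hF k (p k)).2.1 i hk, hthr _ (k + 1) (fun l hl => ?_)⟩
    refine ext_trans (hextl (k + 1) l hl) ?_
    rw [hps]
    exact (hF k (p k)).2.2.1

/-- The trivial condition. -/
theorem exists_cond (P : Par) : Nonempty (Cond P) := by
  refine ⟨{ T := id
            s := []
            Bad := fun _ => False
            hT := Computable.id
            hBad := ?_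
            up := fun _ _ _ h => h
            hs := ?_
            hg := fun _ _ h => h
            hTs := ?_
            step := ?_ }⟩
  · exact (ComputablePred.computable_iff.2 ⟨fun _ => false, Computable.const false, by
      funext a
      simp⟩ : ComputablePred fun _ : Str => False).to_re
  · intro i hi
    simp at hi
  · intro i hi
    simp at hi
  · intro y
    refine ⟨[], fun b => by simp, by simp, fun _ _ _ i hi => ?_⟩
    simp at hi

end Cup
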