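import Pool.Agent.H59.Cup.Dec

/-!
# Module Min: making the degree minimal

First apply `dec_dense` with `g = id`. If its first alternative holds, done. So let `p` satisfy:
for `y` alive, `∃ v, F.R (p.T y) j v` for all `j < y.length`. Hence for every `z` alive and good
(for `p.Bad`) and every `j`, the safe extension `z ++ zeros` (long enough) is alive and converges
at `j`.

Case (c): there is `s'` alive and good such that `F` does not split on safe extensions of `s'`:
`sext s' ρ → sext s' ρ' → F.R (p.T ρ) j v → F.R (p.T ρ') j v' → v = v'`. The relation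
`∃ ρ, sext s' ρ ∧ F.R (p.T ρ) j v` of `(j, v)` is r.e. and total: a computable selector `vv`.
Take `restem` with stem `s'` and `Bad' y := p.Bad y ∨ ∃ j v, F.R (p.T y) j v ∧ v ≠ vv j`.
Second alternative of `MinR`.

Case (d): for all alive good `s'` there are safe extensions `ρ, ρ'` of `s'` and `j`, `v ≠ v'` with
`F.R (p.T ρ) j v`, `F.R (p.T ρ') j v'`. Call `z` dead as in `Dec`. Consider the r.e. relation of a
pair of strings `(z0, z1)` and `(w0, w1, tp)`, `tp : Fin 3` (or ℕ):
 `tp = 0`: `sext z0 (z0 ++ w0)`, `sext z1 (z1 ++ w1)` and there are `j`, `v ≠ v'` with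
    `F.R (p.T (z0 ++ w0)) j v`, `F.R (p.T (z1 ++ w1)) j v'`;
 `tp = 1`: `w0 = w1 = []` and `z0` is dead;  `tp = 2`: `w0 = w1 = []` and `z1` is dead.
It is total: if `z0`, `z1` are not dead, take `ρ, ρ'` for `z0` splitting at `j`, and a safe
extension of `z1` converging at `j` to `v1`; `v1` differs from one of the two values.
Selector `sel (z0, z1)`. Define the insertion at a nonempty `y = y' ++ [b]` with
`p.s.length < y.length`, image `z` (its last bit is `b`; its sibling is `z.dropLast ++ [!b]`):
`r y z = w0` of `sel (z, sibling)` if `b = false`, and `w1` of `sel (sibling, z)` if `b = true`;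
`r y z = []` if `y.length ≤ p.s.length`. Note `θ (y' ++ [false])` and `θ (y' ++ [true])` are siblings:
`θ (y' ++ [b]) = θ y' ++ (w y' ++ [b])`. Let `D y` say: `p.s.length < y.length`, and `tp = 1` and the
last bit of `y` is `false`, or `tp = 2` and the last bit is `true`.
 `Bad' y := (∃ y', y' <+: y ∧ D y') ∨ p.Bad (θ y ++ w y)`, `s' := p.s`. Apply `comp_cond`;
the verifications are as in `Dec` (a node which is not dead is not marked by `D`; if its sibling
is marked then its own insertion is empty, which is safe).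
Third alternative of `MinR`: if `y ++ [false, c]` and `y ++ [true, c']` are alive for `q`, then
`p.s.length ≤ y.length`, `D` fails at `y ++ [false]` and `y ++ [true]`, so `tp = 0` and the strings
`θ (y ++ [false]) ++ w (y ++ [false]) <+: θ (y ++ [false, c])`, and similarly for `true`, split.
-/

namespace Cup

open Encodable OWR

variable {P : Par}

def MinR (F : Func) (q : Cond P) : Prop :=
  (∃ m, ∀ y, Alive q y → ∀ v, ¬ F.R (q.T y) m v) ∨
  (∃ v : ℕ → ℕ, Computable v ∧ ∀ y, Alive q y → ∀ j w, F.R (q.T y) j w → w = v j) ∨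
  (∀ y c c', Alive q (y ++ [false, c]) → Alive q (y ++ [true, c']) →
    ∃ j v v', v ≠ v' ∧ F.R (q.T (y ++ [false, c])) j v ∧ F.R (q.T (y ++ [true, c'])) j v')

/-- The string `z` cannot lead to the generic set (r.e.). -/
private def Dead (p : Cond P) (z : Str) : Prop := ¬ p.s <+: z ∨ ¬ legit P z ∨ ¬ good P p.Bad z

private theorem re_dead (p : Cond P) : REPred (Dead p) := by
  refine re_or ?_ (re_or (re_ill P) (re_not_good P p.hBad))
  refine re_of_primrec ?_
  have h1 : PrimrecPred fun z : Str => z.take p.s.length = p.s :=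
    Primrec.eq.comp (Primrec.list_take.comp (Primrec.const _) Primrec.id) (Primrec.const _)
  refine (h1.not).of_eq fun z => ?_
  rw [List.prefix_iff_eq_take, eq_comm]

private theorem alive_of_not_dead {p : Cond P} {z : Str} (h : ¬ Dead p z) :
    Alive p z ∧ good P p.Bad z := by
  unfold Dead at h
  rw [not_or, not_or, not_not, not_not, not_not] at h
  obtain ⟨h1, h2, h3⟩ := h
  exact ⟨⟨h1, h2, h3 z (sext_refl z)⟩, h3⟩

private def Rel (F : Func) (p : Cond P) (a : Str × Str) (b : Str × Str × ℕ) : Prop :=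
  (b.2.2 = 0 ∧ sext P a.1 (a.1 ++ b.1) ∧ sext P a.2 (a.2 ++ b.2.1) ∧
    ∃ t : ℕ × ℕ × ℕ, t.2.1 ≠ t.2.2 ∧ F.R (p.T (a.1 ++ b.1)) t.1 t.2.1 ∧
      F.R (p.T (a.2 ++ b.2.1)) t.1 t.2.2) ∨
  (b.2.2 = 1 ∧ b.1 = [] ∧ b.2.1 = [] ∧ Dead p a.1) ∨
  (b.2.2 = 2 ∧ b.1 = [] ∧ b.2.1 = [] ∧ Dead p a.2)

private theorem re_Rel (F : Func) (p : Cond P) :
    REPred fun q : (Str × Str) × (Str × Str × ℕ) => Rel F p q.1 q.2 := by
  have a1 : Primrec fun q : (Str × Str) × (Str × Str × ℕ) => q.1.1 :=
    Primrec.fst.comp Primrec.fst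
  have a2 : Primrec fun q : (Str × Str) × (Str × Str × ℕ) => q.1.2 :=
    Primrec.snd.comp Primrec.fst
  have b1 : Primrec fun q : (Str × Str) × (Str × Str × ℕ) => q.2.1 :=
    Primrec.fst.comp Primrec.snd
  have b2 : Primrec fun q : (Str × Str) × (Str × Str × ℕ) => q.2.2.1 :=
    Primrec.fst.comp (Primrec.snd.comp Primrec.snd)
  have b3 : Primrec fun q : (Str × Str) × (Str × Str × ℕ) => q.2.2.2 :=
    Primrec.snd.comp (Primrec.snd.comp Primrec.snd)
  have z0 : Primrec fun q : (Str × Str) × (Str × Str × ℕ) => q.1.1 ++ q.2.1 :=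
    Primrec.list_append.comp a1 b1
  have z1 : Primrec fun q : (Str × Str) × (Str × Str × ℕ) => q.1.2 ++ q.2.2.1 :=
    Primrec.list_append.comp a2 b2
  have hn : ∀ k : ℕ, REPred fun q : (Str × Str) × (Str × Str × ℕ) => q.2.2.2 = k := fun k =>
    re_of_primrec (Primrec.eq.comp b3 (Primrec.const k))
  have he1 : REPred fun q : (Str × Str) × (Str × Str × ℕ) => q.2.1 = [] :=
    re_of_primrec (Primrec.eq.comp b1 (Primrec.const []))
  have he2 : REPred fun q : (Str × Str) × (Str × Str × ℕ) => q.2.2.1 = [] :=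
    re_of_primrec (Primrec.eq.comp b2 (Primrec.const []))
  have hs1 : REPred fun q : (Str × Str) × (Str × Str × ℕ) => sext P q.1.1 (q.1.1 ++ q.2.1) :=
    re_comp (re_sext P) (f := fun q : (Str × Str) × (Str × Str × ℕ) => (q.1.1, q.1.1 ++ q.2.1))
      (a1.pair z0).to_comp
  have hs2 : REPred fun q : (Str × Str) × (Str × Str × ℕ) => sext P q.1.2 (q.1.2 ++ q.2.2.1) :=
    re_comp (re_sext P) (f := fun q : (Str × Str) × (Str × Str × ℕ) => (q.1.2, q.1.2 ++ q.2.2.1))
      (a2.pair z1).to_comp
  have hd1 : REPred fun q : (Str × Str) × (Str × Str × ℕ) => Dead p q.1.1 :=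
    re_comp (re_dead p) a1.to_comp
  have hd2 : REPred fun q : (Str × Str) × (Str × Str × ℕ) => Dead p q.1.2 :=
    re_comp (re_dead p) a2.to_comp
  have hx : REPred fun q : (Str × Str) × (Str × Str × ℕ) =>
      ∃ t : ℕ × ℕ × ℕ, t.2.1 ≠ t.2.2 ∧ F.R (p.T (q.1.1 ++ q.2.1)) t.1 t.2.1 ∧
        F.R (p.T (q.1.2 ++ q.2.2.1)) t.1 t.2.2 := by
    refine re_exists ?_
    have t1 : Primrec fun u : ((Str × Str) × (Str × Str × ℕ)) × (ℕ × ℕ × ℕ) => u.2.1 :=
      Primrec.fst.comp Primrec.snd
    have t2 : Primrec fun u : ((Str × Str) × (Str × Str × ℕ)) × (ℕ × ℕ × ℕ) => u.2.2.1 :=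
      Primrec.fst.comp (Primrec.snd.comp Primrec.snd)
    have t3 : Primrec fun u : ((Str × Str) × (Str × Str × ℕ)) × (ℕ × ℕ × ℕ) => u.2.2.2 :=
      Primrec.snd.comp (Primrec.snd.comp Primrec.snd)
    refine re_and (re_of_primrec (Primrec.eq.comp t2 t3).not) (re_and ?_ ?_)
    · exact re_comp F.re (f := fun u : ((Str × Str) × (Str × Str × ℕ)) × (ℕ × ℕ × ℕ) =>
        (p.T (u.1.1.1 ++ u.1.2.1), u.2.1, u.2.2.1))
        ((p.hT.comp (z0.comp Primrec.fst).to_comp).pair (t1.to_comp.pair t2.to_comp))
    · exact re_comp F.re (f := fun u : ((Str × Str) × (Str × Str × ℕ)) × (ℕ × ℕ × ℕ) =>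
        (p.T (u.1.1.2 ++ u.1.2.2.1), u.2.1, u.2.2.2))
        ((p.hT.comp (z1.comp Primrec.fst).to_comp).pair (t1.to_comp.pair t3.to_comp))
  exact re_or (re_and (hn 0) (re_and hs1 (re_and hs2 hx)))
    (re_or (re_and (hn 1) (re_and he1 (re_and he2 hd1)))
      (re_and (hn 2) (re_and he1 (re_and he2 hd2))))

/-- last bit -/
private def lastb (z : Str) : Bool := (z.reverse.head?).getD false

private def dl (z : Str) : Str := z.take (z.length - 1)

private theorem lastb_append (u : Str) (b : Bool) : lastb (u ++ [b]) = b := by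
  simp [lastb]

private theorem dl_append (u : Str) (b : Bool) : dl (u ++ [b]) = u := by
  simp [dl]

private theorem lastb_comp : Primrec lastb :=
  Primrec.option_getD.comp (Primrec.list_head?.comp Primrec.list_reverse) (Primrec.const false)

private theorem dl_comp : Primrec dl :=
  Primrec.list_take.comp (Primrec.nat_sub.comp Primrec.list_length (Primrec.const 1)) Primrec.id

private theorem sext_pre {a b c : Str} (h : sext P a c) (h1 : a <+: b) (h2 : b <+: c) :
    sext P a b := by
  refine ⟨h1, fun i hi hb => h.2 i hi ?_⟩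
  obtain ⟨v, rfl⟩ := h2
  obtain ⟨h3, -⟩ := List.getElem?_eq_some_iff.1 hb
  rw [List.getElem?_append_left h3]; exact hb

private theorem get_last {u : Str} {b : Bool} {i : ℕ} (h1 : u.length ≤ i)
    (h2 : (u ++ [b])[i]? = some true) : i = u.length ∧ b = true := by
  obtain ⟨h3, -⟩ := List.getElem?_eq_some_iff.1 h2
  have h4 : i = u.length := by simp at h3; omega
  subst h4
  exact ⟨rfl, by simpa using h2⟩

private theorem sext_single {u : Str} {b : Bool} (h : b = true → P.S (P.t u.length)) :
    sext P u (u ++ [b]) := by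
  refine ⟨List.prefix_append _ _, fun i hi hb => ?_⟩
  obtain ⟨rfl, hb'⟩ := get_last hi hb
  exact h hb'

private theorem legit_single {u : Str} {b : Bool} (hu : legit P u)
    (h : b = true → ¬ P.E (P.t u.length)) : legit P (u ++ [b]) := by
  intro i hi
  rcases lt_or_ge i u.length with hl | hl
  · rw [List.getElem?_append_left hl] at hi
    exact hu i hi
  · obtain ⟨rfl, hb'⟩ := get_last hl hi
    exact h hb'

private theorem conv_of_alive_good {F : Func} {p : Cond P}
    (hconv : ∀ y, Alive p y → ∀ j < y.length, ∃ v, F.R (p.T y) j v) {z : Str} (hz : Alive p z)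
    (hg : good P p.Bad z) (j : ℕ) : ∃ ρ v, sext P z ρ ∧ F.R (p.T ρ) j v := by
  have h1 := sext_false (P := P) z (j + 1)
  obtain ⟨v, hv⟩ := hconv _ (alive_of_sext hz hg h1) j (by simp; omega)
  exact ⟨_, v, h1, hv⟩

private theorem rel_total {F : Func} {p : Cond P}
    (hconv : ∀ y, Alive p y → ∀ j < y.length, ∃ v, F.R (p.T y) j v)
    (hd : ∀ s', Alive p s' → good P p.Bad s' → ∃ ρ ρ' j v v', sext P s' ρ ∧ sext P s' ρ' ∧
      F.R (p.T ρ) j v ∧ F.R (p.T ρ') j v' ∧ v ≠ v') (a : Str × Str) : ∃ b, Rel F p a b := by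
  by_cases h0 : Dead p a.1
  · exact ⟨([], [], 1), Or.inr (Or.inl ⟨rfl, rfl, rfl, h0⟩)⟩
  by_cases h1 : Dead p a.2
  · exact ⟨([], [], 2), Or.inr (Or.inr ⟨rfl, rfl, rfl, h1⟩)⟩
  obtain ⟨a0, g0⟩ := alive_of_not_dead h0
  obtain ⟨a1, g1⟩ := alive_of_not_dead h1
  obtain ⟨ρ, ρ', j, v, v', s1, s2, r1, r2, hne⟩ := hd _ a0 g0
  obtain ⟨ρ1, v1, s3, r3⟩ := conv_of_alive_good hconv a1 g1 j
  obtain ⟨w, rfl⟩ := s1.1
  obtain ⟨w', rfl⟩ := s2.1
  obtain ⟨w1, rfl⟩ := s3.1
  by_cases hv : v = v1
  · refine ⟨(w', w1, 0), Or.inl ⟨rfl, s2, s3, (j, v', v1), ?_, r2, r3⟩⟩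
    rw [← hv]; exact fun e => hne e.symm
  · exact ⟨(w, w1, 0), Or.inl ⟨rfl, s1, s3, (j, v, v1), hv, r1, r3⟩⟩

theorem min_dense (F : Func) (p : Cond P) : ∃ q, Ext q p ∧ MinR F q := by
  obtain ⟨q0, hq0, hdec⟩ := dec_dense F (g := id) Computable.id p
  rcases hdec with hdiv | hconv
  · exact ⟨q0, hq0, Or.inl hdiv⟩
  suffices h : ∃ q, Ext q q0 ∧ MinR F q by
    obtain ⟨q, h1, h2⟩ := h
    exact ⟨q, ext_trans h1 hq0, h2⟩
  clear hq0 p
  rename' q0 => p
  by_cases hc : ∃ s', Alive p s' ∧ good P p.Bad s' ∧ ∀ ρ ρ' j v v', sext P s' ρ → sext P s' ρ' →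
      F.R (p.T ρ) j v → F.R (p.T ρ') j v' → v = v'
  · -- case (c)
    obtain ⟨s', ha, hg, hns⟩ := hc
    have hre : REPred fun q : ℕ × ℕ => ∃ ρ, sext P s' ρ ∧ F.R (p.T ρ) q.1 q.2 := by
      refine re_exists (re_and ?_ ?_)
      · exact re_comp (re_sext P) (f := fun u : (ℕ × ℕ) × Str => (s', u.2))
          ((Primrec.const s').pair Primrec.snd).to_comp
      · exact re_comp F.re (f := fun u : (ℕ × ℕ) × Str => (p.T u.2, u.1.1, u.1.2))
          ((p.hT.comp Computable.snd).pair Computable.fst)
    obtain ⟨vv, hvc, hvv⟩ := exists_selector (R := fun j v : ℕ => ∃ ρ, sext P s' ρ ∧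
      F.R (p.T ρ) j v) hre (fun j => by
        obtain ⟨ρ, v, h1, h2⟩ := conv_of_alive_good hconv ha hg j
        exact ⟨v, ρ, h1, h2⟩)
    obtain ⟨q, hq, hqT, hqs, hqB⟩ := restem p ha
      (fun y => p.Bad y ∨ ∃ t : ℕ × ℕ, F.R (p.T y) t.1 t.2 ∧ t.2 ≠ vv t.1) (by
        refine re_or p.hBad (re_exists (re_and ?_ ?_))
        · exact re_comp F.re (f := fun u : Str × (ℕ × ℕ) => (p.T u.1, u.2.1, u.2.2))
            ((p.hT.comp Computable.fst).pair Computable.snd)
        · have hc2 : Computable fun u : Str × (ℕ × ℕ) => decide (u.2.2 = vv u.2.1) :=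
            (Primrec.eq.decide.to_comp).comp (Computable.snd.comp Computable.snd)
              (hvc.comp (Computable.fst.comp Computable.snd))
          refine (re_of_computable_eq hc2 (Computable.const false)).of_eq fun u => ?_
          simp)
      (by
        rintro y y' hyy (h | ⟨t, h1, h2⟩)
        · exact Or.inl (p.up y y' hyy h)
        · exact Or.inr ⟨t, F.mono _ _ _ _ (T_mono p hyy) h1, h2⟩)
      (fun y h => Or.inl h)
      (by
        rintro y hy (h | ⟨t, h1, h2⟩)
        · exact hg y hy h
        · obtain ⟨ρ, h3, h4⟩ := hvv t.1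
          exact h2 (hns _ _ _ _ _ hy h3 h1 h4))
    refine ⟨q, hq, Or.inr (Or.inl ⟨vv, hvc, fun y hy j w hw => ?_⟩)⟩
    by_contra hne
    refine hy.2.2 ?_
    rw [hqB]
    rw [hqT] at hw
    exact Or.inr ⟨(j, w), hw, hne⟩
  -- case (d)
  have hd : ∀ s', Alive p s' → good P p.Bad s' → ∃ ρ ρ' j v v', sext P s' ρ ∧ sext P s' ρ' ∧
      F.R (p.T ρ) j v ∧ F.R (p.T ρ') j v' ∧ v ≠ v' := by
    intro s' h1 h2
    by_contra hcon
    refine hc ⟨s', h1, h2, fun ρ ρ' j v v' h3 h4 h5 h6 => ?_⟩
    by_contra hne
    exact hcon ⟨ρ, ρ', j, v, v', h3, h4, h5, h6, hne⟩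
  clear hc
  obtain ⟨sel0, hsc, hsel0⟩ := exists_selector (re_Rel F p) (rel_total hconv hd)
  -- the selector at the two successors of `u`
  obtain ⟨sel, hselc, hsel⟩ : ∃ sel : Str → Str × Str × ℕ, Computable sel ∧
      ∀ u, Rel F p (u ++ [false], u ++ [true]) (sel u) :=
    ⟨fun u => sel0 (u ++ [false], u ++ [true]),
      hsc.comp ((Primrec.list_append.comp Primrec.id (Primrec.const [false])).pair
        (Primrec.list_append.comp Primrec.id (Primrec.const [true]))).to_comp,
      fun u => hsel0 _⟩
  clear hsel0 hsc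
  -- the insertion function
  obtain ⟨r, hrc, hr0, hrf, hrt⟩ : ∃ r : Str → Str → Str, Computable₂ r ∧
      (∀ y z, y.length ≤ p.s.length → r y z = []) ∧
      (∀ y u, p.s.length < y.length → r y (u ++ [false]) = (sel u).1) ∧
      (∀ y u, p.s.length < y.length → r y (u ++ [true]) = (sel u).2.1) := by
    refine ⟨fun y z => bif decide (y.length ≤ p.s.length) then [] else
      bif lastb z then (sel (dl z)).2.1 else (sel (dl z)).1, ?_, ?_, ?_, ?_⟩
    · refine Computable.cond ?_ (Computable.const []) (Computable.cond ?_ ?_ ?_)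
      · exact (Primrec.nat_le.decide.comp (Primrec.list_length.comp Primrec.fst)
          (Primrec.const _)).to_comp
      · exact (lastb_comp.comp Primrec.snd).to_comp
      · exact (Computable.fst.comp Computable.snd).comp
          (hselc.comp (dl_comp.comp Primrec.snd).to_comp)
      · exact Computable.fst.comp (hselc.comp (dl_comp.comp Primrec.snd).to_comp)
    · intro y z h; simp [h]
    · intro y u h; simp [not_le.2 h, lastb_append, dl_append]
    · intro y u h; simp [not_le.2 h, lastb_append, dl_append]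
  obtain ⟨θ, w, hθc, hwc, hθ0, hθ, hw, hcol, hwn⟩ := exists_tree P r hrc
  have hθ' : ∀ y b, θ (y ++ [b]) = (θ y ++ w y) ++ [b] := fun y b => by
    rw [hθ, List.append_assoc]
  -- short strings
  have hshort : ∀ y : Str, y.length ≤ p.s.length → θ y = y := by
    intro y
    induction y using List.reverseRecOn with
    | nil => intro _; exact hθ0
    | append_singleton y b ih =>
      intro hl
      have hl' : y.length ≤ p.s.length := by simp at hl; omega
      rw [hθ, ih hl', hwn y (ih hl') (hr0 _ _ hl')]; rfl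
  have hwshort : ∀ y : Str, y.length ≤ p.s.length → w y = [] := fun y hl =>
    hwn y (hshort y hl) (hr0 _ _ hl)
  have hθs : θ p.s = p.s := hshort _ le_rfl
  have hws : w p.s = [] := hwshort _ le_rfl
  -- monotonicity
  have hmono1 : ∀ y v, ∀ b, θ y ++ w y <+: θ (y ++ ([b] ++ v)) := by
    intro y v b
    induction v using List.reverseRecOn with
    | nil => rw [List.append_nil, hθ']; exact List.prefix_append _ _
    | append_singleton v c ih =>
      rw [← List.append_assoc [b], ← List.append_assoc, hθ']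
      exact ih.trans ((List.prefix_append _ _).trans (List.prefix_append _ _))
  have hmono : ∀ y y', y <+: y' → y = y' ∨ θ y ++ w y <+: θ y' := by
    rintro y y' ⟨v, rfl⟩
    cases v with
    | nil => left; simp
    | cons b v => right; exact hmono1 y v b
  have hmonoθ : ∀ y y', y <+: y' → θ y <+: θ y' := by
    intro y y' h
    rcases hmono y y' h with rfl | h
    · exact List.prefix_rfl
    · exact (List.prefix_append _ _).trans h
  -- the marker
  obtain ⟨D, hDc, hD0, hDf, hDt⟩ : ∃ D : Str → Bool, Computable D ∧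
      (∀ y, y.length ≤ p.s.length → D y = false) ∧
      (∀ y, p.s.length ≤ y.length →
        (D (y ++ [false]) = true ↔ (sel (θ y ++ w y)).2.2 = 1)) ∧
      (∀ y, p.s.length ≤ y.length →
        (D (y ++ [true]) = true ↔ (sel (θ y ++ w y)).2.2 = 2)) := by
    refine ⟨fun y => bif decide (y.length ≤ p.s.length) then false else
      bif lastb y then decide ((sel (dl (θ y))).2.2 = 2) else decide ((sel (dl (θ y))).2.2 = 1),
      ?_, ?_, ?_, ?_⟩
    · have h1 : Computable fun y : Str => (sel (dl (θ y))).2.2 :=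
        (Computable.snd.comp Computable.snd).comp (hselc.comp (dl_comp.to_comp.comp hθc))
      refine Computable.cond ?_ (Computable.const false) (Computable.cond ?_ ?_ ?_)
      · exact (Primrec.nat_le.decide.comp Primrec.list_length (Primrec.const _)).to_comp
      · exact lastb_comp.to_comp
      · exact (Primrec.eq.decide.to_comp).comp h1 (Computable.const 2)
      · exact (Primrec.eq.decide.to_comp).comp h1 (Computable.const 1)
    · intro y h; simp [h]
    · intro y h
      have : ¬ (y ++ [false]).length ≤ p.s.length := by simp; omega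
      simp only [this, decide_false, cond_false, lastb_append, hθ', dl_append, decide_eq_true_eq]
    · intro y h
      have : ¬ (y ++ [true]).length ≤ p.s.length := by simp; omega
      simp only [this, decide_false, cond_false, cond_true, lastb_append, hθ', dl_append,
        decide_eq_true_eq]
  -- insertions at unmarked nodes are safe
  have hsafe : ∀ y b, p.s.length ≤ y.length → D (y ++ [b]) = false →
      sext P (θ (y ++ [b])) (θ (y ++ [b]) ++ w (y ++ [b])) := by
    intro y b hl hD
    obtain ⟨k, hk⟩ := hw (y ++ [b])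
    rw [hk, ← List.append_assoc]
    refine sext_append_false ?_ k
    have hl' : p.s.length < (y ++ [b]).length := by simp; omega
    cases b with
    | false =>
      rw [hθ', hrf _ _ hl']
      have h1 : (sel (θ y ++ w y)).2.2 ≠ 1 := fun h => by
        rw [(hDf y hl).2 h] at hD; exact absurd hD (by decide)
      rcases hsel (θ y ++ w y) with ⟨-, h2, -⟩ | ⟨h2, -⟩ | ⟨-, h2, -⟩
      · exact h2
      · exact absurd h2 h1
      · rw [h2, List.append_nil]; exact sext_refl _
    | true =>
      rw [hθ', hrt _ _ hl']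
      have h1 : (sel (θ y ++ w y)).2.2 ≠ 2 := fun h => by
        rw [(hDt y hl).2 h] at hD; exact absurd hD (by decide)
      rcases hsel (θ y ++ w y) with ⟨-, -, h2, -⟩ | ⟨-, -, h2, -⟩ | ⟨h2, -⟩
      · exact h2
      · rw [h2, List.append_nil]; exact sext_refl _
      · exact absurd h2 h1
  have hcol' : ∀ y, P.t (θ y ++ w y).length = P.t y.length := fun y => by
    rw [List.length_append]; exact hcol y
  -- safe extensions of the stem
  have claim1 : ∀ y, p.s <+: y → sext P p.s y →
      sext P p.s (θ y) ∧ sext P (θ y) (θ y ++ w y) ∧ D y = false := by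
    intro y
    induction y using List.reverseRecOn with
    | nil =>
      intro h _
      have h0 : p.s = [] := List.prefix_nil.1 h
      have h1 : ([] : Str).length ≤ p.s.length := Nat.zero_le _
      rw [hshort _ h1, hwshort _ h1, h0]
      exact ⟨sext_refl _, sext_refl _, hD0 _ h1⟩
    | append_singleton y b ih =>
      intro h hs
      rcases List.prefix_concat_iff.1 h with h1 | h1
      · rw [← h1, hθs, hws, List.append_nil]
        exact ⟨sext_refl _, sext_refl _, hD0 _ le_rfl⟩
      · obtain ⟨i1, i2, -⟩ := ih h1 (sext_pre hs h1 (List.prefix_append _ _))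
        have hl := h1.length_le
        have i3 : sext P p.s (θ y ++ w y) := sext_trans i1 i2
        have i4 : sext P p.s (θ (y ++ [b])) := by
          rw [hθ']
          refine sext_trans i3 (sext_single fun hb => ?_)
          rw [hcol']
          refine hs.2 _ hl ?_
          subst hb
          simp
        have i5 : ¬ Dead p (θ (y ++ [b])) := by
          rintro (h2 | h2 | h2)
          · exact h2 i4.1
          · exact h2 (legit_of_sext p.hs i4)
          · exact h2 (good_of_sext p.hg i4)
        have i6 : D (y ++ [b]) = false := by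
          rw [hθ'] at i5
          cases b with
          | false =>
            rw [Bool.eq_false_iff]
            intro hD
            rcases hsel (θ y ++ w y) with ⟨h2, -⟩ | ⟨-, -, -, h2⟩ | ⟨h2, -⟩
            · rw [(hDf y hl).1 hD] at h2; exact absurd h2 (by decide)
            · exact i5 h2
            · rw [(hDf y hl).1 hD] at h2; exact absurd h2 (by decide)
          | true =>
            rw [Bool.eq_false_iff]
            intro hD
            rcases hsel (θ y ++ w y) with ⟨h2, -⟩ | ⟨h2, -⟩ | ⟨-, -, -, h2⟩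
            · rw [(hDt y hl).1 hD] at h2; exact absurd h2 (by decide)
            · rw [(hDt y hl).1 hD] at h2; exact absurd h2 (by decide)
            · exact i5 h2
        exact ⟨i4, hsafe y b hl i6, i6⟩
  have claim2 : ∀ y, p.s <+: y → D y = false → sext P (θ y) (θ y ++ w y) := by
    intro y
    induction y using List.reverseRecOn with
    | nil =>
      intro _ _
      rw [hwshort _ (Nat.zero_le _), List.append_nil]; exact sext_refl _
    | append_singleton y b _ =>
      intro h hD
      rcases List.prefix_concat_iff.1 h with h1 | h1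
      · rw [← h1, hws, List.append_nil]; exact sext_refl _
      · exact hsafe y b h1.length_le hD
  have claim3 : ∀ y, p.s <+: y → (∀ y', y' <+: y → D y' = false) → legit P y →
      legit P (θ y) := by
    intro y
    induction y using List.reverseRecOn with
    | nil =>
      intro _ _ _
      rw [hθ0]; intro i hi; simp at hi
    | append_singleton y b ih =>
      intro h hD hy
      rcases List.prefix_concat_iff.1 h with h1 | h1
      · rw [← h1, hθs]; exact p.hs
      · have i1 := ih h1 (fun y' h' => hD y' (h'.trans (List.prefix_append _ _)))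
          (legit_prefix (List.prefix_append _ _) hy)
        have i2 := claim2 y h1 (hD y (List.prefix_append _ _))
        rw [hθ']
        refine legit_single (legit_of_sext i1 i2) fun hb => ?_
        rw [hcol']
        refine hy _ ?_
        subst hb
        simp
  -- the condition
  obtain ⟨q, hq, hqT, hqs, hqB⟩ := comp_cond p θ w hθc hθ hcol p.s
    (fun y => (∃ y', y' <+: y ∧ True ∧ D y' = true) ∨ p.Bad (θ y ++ w y))
    (by
      refine re_or (re_exists_prefix (re_of_computable_eq hDc (Computable.const true))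
        (fun _ => True) ?_) (re_comp p.hBad (Primrec.list_append.to_comp.comp hθc hwc))
      exact (PrimrecPred.of_eq (Primrec.eq.comp (Primrec.const 0) (Primrec.const 0))
        (by simp)).computablePred)
    (by
      rintro y y' hyy (⟨y1, h1, h2⟩ | h)
      · exact Or.inl ⟨y1, h1.trans hyy, h2⟩
      · rcases hmono y y' hyy with rfl | h1
        · exact Or.inr h
        · exact Or.inr (p.up _ _ (h1.trans (List.prefix_append _ _)) h))
    p.hs
    (by
      rintro y hy (⟨y1, h1, -, h2⟩ | h)
      · rcases List.prefix_or_prefix_of_prefix h1 hy.1 with h3 | h3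
        · rw [hD0 _ h3.length_le] at h2; exact absurd h2 (by decide)
        · rw [(claim1 y1 h3 (sext_pre hy h3 h1)).2.2] at h2; exact absurd h2 (by decide)
      · obtain ⟨i1, i2, -⟩ := claim1 y hy.1 hy
        exact p.hg _ (sext_trans i1 i2) h)
    (by
      intro y hy hl hB
      have hD : ∀ y', y' <+: y → D y' = false := by
        intro y' h'
        rw [Bool.eq_false_iff]
        intro h2
        exact hB (Or.inl ⟨y', h', trivial, h2⟩)
      have h1 := claim2 y hy (hD y List.prefix_rfl)
      have h2 := claim3 y hy hD hl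
      have h3 : ¬ p.Bad (θ y ++ w y) := fun h => hB (Or.inr h)
      have h4 : p.s <+: θ y := by
        have := hmonoθ _ _ hy
        rwa [hθs] at this
      exact ⟨⟨h4, h2, fun h => h3 (p.up _ _ (List.prefix_append _ _) h)⟩,
        ⟨h4.trans (List.prefix_append _ _), legit_of_sext h2 h1, h3⟩, h1⟩)
  refine ⟨q, hq, Or.inr (Or.inr fun y c c' hf ht => ?_)⟩
  have hmem : ∀ y', Alive q y' → ∀ y'', y'' <+: y' → D y'' = false := by
    intro y' h1 y'' h2
    rw [Bool.eq_false_iff]
    intro h3
    refine h1.2.2 ?_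
    rw [hqB]
    exact Or.inl ⟨y'', h2, trivial, h3⟩
  have hl : p.s.length ≤ y.length := by
    by_contra hcon
    push Not at hcon
    have h1 := hf.1
    have h2 := ht.1
    rw [hqs] at h1 h2
    have h3 : p.s[y.length]? = some false := by
      obtain ⟨v, hv⟩ := h1
      have : (p.s ++ v)[y.length]? = some false := by rw [hv]; simp
      rwa [List.getElem?_append_left hcon] at this
    have h4 : p.s[y.length]? = some true := by
      obtain ⟨v, hv⟩ := h2
      have : (p.s ++ v)[y.length]? = some true := by rw [hv]; simp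
      rwa [List.getElem?_append_left hcon] at this
    rw [h3] at h4
    exact absurd h4 (by decide)
  have ef : y ++ [false, c] = (y ++ [false]) ++ [c] := by simp
  have et : y ++ [true, c'] = (y ++ [true]) ++ [c'] := by simp
  have hDf' : D (y ++ [false]) = false := hmem _ hf _ (by rw [ef]; exact List.prefix_append _ _)
  have hDt' : D (y ++ [true]) = false := hmem _ ht _ (by rw [et]; exact List.prefix_append _ _)
  have hl1 : p.s.length < (y ++ [false]).length := by simp; omega
  have hl2 : p.s.length < (y ++ [true]).length := by simp; omega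
  have hF : ∀ b d W, r (y ++ [b]) (θ y ++ w y ++ [b]) = W →
      (θ y ++ w y ++ [b]) ++ W <+: θ ((y ++ [b]) ++ [d]) := by
    intro b d W hW
    obtain ⟨k, hk⟩ := hw (y ++ [b])
    rw [hθ' (y ++ [b]) d, hk, hθ' y b, hW]
    rw [← List.append_assoc (θ y ++ w y ++ [b]) W, List.append_assoc _ (List.replicate k false)]
    exact List.prefix_append _ _
  rcases hsel (θ y ++ w y) with ⟨-, -, -, ⟨j, v, v'⟩, h1, h2, h3⟩ | ⟨h2, -⟩ | ⟨h2, -⟩
  · refine ⟨j, v, v', h1, ?_, ?_⟩
    · rw [hqT, ef]
      exact F.mono _ _ _ _ (T_mono p (hF false c _ (hrf _ _ hl1))) h2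
    · rw [hqT, et]
      exact F.mono _ _ _ _ (T_mono p (hF true c' _ (hrt _ _ hl2))) h3
  · rw [(hDf y hl).2 h2] at hDf'; exact absurd hDf' (by decide)
  · rw [(hDt y hl).2 h2] at hDt'; exact absurd hDt' (by decide)

end Cup
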